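import Pool.Agent.Lib.MP_343ccd_co.Defs

/-!
# MP_343ccd_co, module ActB: basic facts on the action of `F[Phi]`
-/

namespace Prism

open Polynomial

variable {k : Type*} [Field k] (p m : ℕ) [hp : Fact p.Prime] [CharP k p] (F : Subfield k)
  (hF : ∀ c ∈ F, c ^ (p ^ m) = c)

private theorem ab_Phi_pow (n : ℕ) (x : MvPolynomial (Fin 4) k) :
    (Phi p m F hF ^ n) x = x ^ ((p ^ m) ^ n) := by
  induction n with
  | zero => simp
  | succ n ih =>
    rw [pow_succ', Module.End.mul_apply, ih]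
    change (x ^ (p ^ m) ^ n) ^ (p ^ m) = _
    rw [← pow_mul, ← pow_succ]

/-- (1) -/
theorem act_apply (g : F[X]) (x : MvPolynomial (Fin 4) k) :
    act p m F hF g x = ∑ n ∈ g.support,
      MvPolynomial.C ((g.coeff n : F) : k) * x ^ ((p ^ m) ^ n) := by
  unfold act
  rw [Polynomial.aeval_eq_sum_range, LinearMap.sum_apply]
  have h1 : ∑ n ∈ Finset.range (g.natDegree + 1), (g.coeff n • Phi p m F hF ^ n) x =
      ∑ n ∈ Finset.range (g.natDegree + 1),
        MvPolynomial.C ((g.coeff n : F) : k) * x ^ ((p ^ m) ^ n) := by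
    refine Finset.sum_congr rfl fun n _ => ?_
    rw [LinearMap.smul_apply, ab_Phi_pow, ← MvPolynomial.smul_eq_C_mul]
    rfl
  rw [h1]
  symm
  refine Finset.sum_subset ?_ ?_
  · intro n hn
    rw [Finset.mem_range]
    exact Nat.lt_succ_of_le (Polynomial.le_natDegree_of_mem_supp n hn)
  · intro n _ hn
    rw [Polynomial.notMem_support_iff] at hn
    rw [hn]
    simp

/-- (2) -/
theorem act_C_mul (g : F[X]) (c : k) (hc : ∀ n, g.coeff n ≠ 0 → c ^ ((p ^ m) ^ n) = c)
    (x : MvPolynomial (Fin 4) k) :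
    act p m F hF g (MvPolynomial.C c * x) = MvPolynomial.C c * act p m F hF g x := by
  rw [act_apply, act_apply, Finset.mul_sum]
  refine Finset.sum_congr rfl fun n hn => ?_
  rw [mul_pow, ← map_pow, hc n (Polynomial.mem_support_iff.mp hn)]
  ring

/-- (3) `act g x` is a polynomial in `x` -/
theorem act_mem_adjoin (g : F[X]) (x : MvPolynomial (Fin 4) k)
    (A : Subalgebra k (MvPolynomial (Fin 4) k)) (hx : x ∈ A) : act p m F hF g x ∈ A := by
  rw [act_apply]
  refine A.sum_mem fun n _ => A.mul_mem ?_ (A.pow_mem hx _)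
  exact A.algebraMap_mem _

private theorem ab_coeff_mul (x y : MvPolynomial (Fin 4) k) (j : Fin 4) :
    MvPolynomial.coeff (Finsupp.single j 1) (x * y) =
      MvPolynomial.coeff 0 x * MvPolynomial.coeff (Finsupp.single j 1) y +
        MvPolynomial.coeff (Finsupp.single j 1) x * MvPolynomial.coeff 0 y := by
  classical
  rw [MvPolynomial.coeff_mul, Finsupp.antidiagonal_single, Finset.sum_map]
  have h : (Finset.HasAntidiagonal.antidiagonal (1 : ℕ)) = {((0 : ℕ), (1 : ℕ)), (1, 0)} := by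
    rfl
  rw [h, Finset.sum_pair (by decide)]
  simp

private theorem ab_coeff0_mul (x y : MvPolynomial (Fin 4) k) :
    MvPolynomial.coeff 0 (x * y) = MvPolynomial.coeff 0 x * MvPolynomial.coeff 0 y := by
  have := map_mul (MvPolynomial.constantCoeff (R := k) (σ := Fin 4)) x y
  simpa only [MvPolynomial.constantCoeff_eq] using this

private theorem ab_coeff0_X (i : Fin 4) :
    MvPolynomial.coeff 0 (MvPolynomial.X i : MvPolynomial (Fin 4) k) = 0 := by
  classical
  rw [MvPolynomial.coeff_X, if_neg]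
  intro h
  have := (Finsupp.single_eq_zero).mp h
  exact one_ne_zero this

private theorem ab_coeff_X (i : Fin 4) (j : Fin 4) :
    MvPolynomial.coeff (Finsupp.single j 1) (MvPolynomial.X i : MvPolynomial (Fin 4) k) =
      if i = j then 1 else 0 := by
  classical
  rw [MvPolynomial.coeff_X]
  by_cases h : i = j
  · rw [h, if_pos rfl, if_pos rfl]
  · rw [if_neg h, if_neg]
    intro h2
    exact h ((Finsupp.single_left_inj one_ne_zero).mp h2)

private theorem ab_coeff0_pow (x : MvPolynomial (Fin 4) k) (hx : MvPolynomial.coeff 0 x = 0)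
    {n : ℕ} (hn : 1 ≤ n) : MvPolynomial.coeff 0 (x ^ n) = 0 := by
  obtain ⟨n, rfl⟩ : ∃ n', n = n' + 1 := ⟨n - 1, by omega⟩
  rw [pow_succ, ab_coeff0_mul, hx, mul_zero]

private theorem ab_coeff1_pow (x : MvPolynomial (Fin 4) k) (hx : MvPolynomial.coeff 0 x = 0)
    {n : ℕ} (hn : 2 ≤ n) (j : Fin 4) :
    MvPolynomial.coeff (Finsupp.single j 1) (x ^ n) = 0 := by
  obtain ⟨n, rfl⟩ : ∃ n', n = n' + 1 := ⟨n - 1, by omega⟩
  rw [pow_succ, ab_coeff_mul, hx, mul_zero, ab_coeff0_pow x hx (by omega), zero_mul, add_zero]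

/-- constant coefficient of `act g (T_i)` -/
private theorem ab_act_coeff0 (g : F[X]) (i : Fin 4) :
    MvPolynomial.coeff 0 (act p m F hF g (MvPolynomial.X i)) = 0 := by
  rw [act_apply, MvPolynomial.coeff_sum]
  refine Finset.sum_eq_zero fun n _ => ?_
  rw [MvPolynomial.coeff_C_mul, ab_coeff0_pow _ (ab_coeff0_X i), mul_zero]
  exact Nat.one_le_pow _ _ (pow_pos hp.out.pos m)

private theorem ab_act_coeff1 (hm : 1 ≤ m) (g : F[X]) (i j : Fin 4) :
    MvPolynomial.coeff (Finsupp.single j 1) (act p m F hF g (MvPolynomial.X i)) =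
      if i = j then ((g.coeff 0 : F) : k) else 0 := by
  have hQ : 2 ≤ p ^ m := by
    calc 2 ≤ p := hp.out.two_le
      _ = p ^ 1 := (pow_one p).symm
      _ ≤ p ^ m := Nat.pow_le_pow_right hp.out.pos hm
  rw [act_apply, MvPolynomial.coeff_sum]
  have h1 : ∀ n ∈ g.support, MvPolynomial.coeff (Finsupp.single j 1)
      (MvPolynomial.C ((g.coeff n : F) : k) * (MvPolynomial.X i) ^ ((p ^ m) ^ n)) =
      if n = 0 then ((g.coeff 0 : F) : k) * (if i = j then 1 else 0) else 0 := by
    intro n _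
    rw [MvPolynomial.coeff_C_mul]
    by_cases hn : n = 0
    · rw [if_pos hn, hn, pow_zero, pow_one, ab_coeff_X]
    · rw [if_neg hn, ab_coeff1_pow _ (ab_coeff0_X i), mul_zero]
      calc 2 ≤ p ^ m := hQ
        _ = (p ^ m) ^ 1 := (pow_one _).symm
        _ ≤ (p ^ m) ^ n := Nat.pow_le_pow_right (by omega) (by omega)
  rw [Finset.sum_congr rfl h1, Finset.sum_ite_eq']
  by_cases h0 : 0 ∈ g.support
  · rw [if_pos h0]
    split_ifs <;> simp
  · rw [if_neg h0]
    rw [Polynomial.notMem_support_iff] at h0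
    rw [h0]
    simp

/-- (4) -/
theorem relt_coeff_zero (s : Fin 3 → F) (w1 w2 : F[X]) (l : Fin 3) :
    MvPolynomial.coeff 0 (relt p m F hF s w1 w2 l) = 0 := by
  unfold relt
  rw [MvPolynomial.coeff_sum]
  exact Finset.sum_eq_zero fun j _ => ab_act_coeff0 p m F hF _ j

/-- (5) -/
theorem relt_coeff_single (hm : 1 ≤ m) (s : Fin 3 → F) (w1 w2 : F[X]) (l : Fin 3) (j : Fin 4) :
    MvPolynomial.coeff (Finsupp.single j 1) (relt p m F hF s w1 w2 l) =
      ((vec ((s (l + 1))⁻¹ * (s (l + 2))⁻¹) ((s (l + 1))⁻¹ + (s (l + 2))⁻¹)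
        (w1.coeff 0) (w2.coeff 0) j : F) : k) := by
  unfold relt
  rw [MvPolynomial.coeff_sum]
  have h1 : ∀ i ∈ (Finset.univ : Finset (Fin 4)), MvPolynomial.coeff (Finsupp.single j 1)
      (act p m F hF (vec (C ((s (l + 1))⁻¹ * (s (l + 2))⁻¹))
        (C ((s (l + 1))⁻¹ + (s (l + 2))⁻¹)) w1 w2 i) (MvPolynomial.X i)) =
      if i = j then (((vec (C ((s (l + 1))⁻¹ * (s (l + 2))⁻¹))
        (C ((s (l + 1))⁻¹ + (s (l + 2))⁻¹)) w1 w2 i).coeff 0 : F) : k) else 0 :=
    fun i _ => ab_act_coeff1 p m F hF hm _ i j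
  rw [Finset.sum_congr rfl h1, Finset.sum_ite_eq' Finset.univ j, if_pos (Finset.mem_univ j)]
  congr 1
  fin_cases j <;> simp [vec, Polynomial.coeff_zero_eq_eval_zero]

/-- (6) -/
theorem lelt_coeff_zero (s : Fin 3 → k) (t : k) (l : Fin 3) :
    MvPolynomial.coeff 0 (lelt s t l) = 0 := by
  unfold lelt
  rw [MvPolynomial.coeff_sum]
  refine Finset.sum_eq_zero fun j _ => ?_
  rw [MvPolynomial.coeff_C_mul, ab_coeff0_X, mul_zero]

/-- (7) -/
theorem lelt_coeff_single (s : Fin 3 → k) (t : k) (l : Fin 3) (j : Fin 4) :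
    MvPolynomial.coeff (Finsupp.single j 1) (lelt s t l) = cvec s false l t j := by
  unfold lelt
  rw [MvPolynomial.coeff_sum]
  have h1 : ∀ i ∈ (Finset.univ : Finset (Fin 4)), MvPolynomial.coeff (Finsupp.single j 1)
      (MvPolynomial.C (cvec s false l t i) * MvPolynomial.X i) =
      if i = j then cvec s false l t i else 0 := by
    intro i _
    rw [MvPolynomial.coeff_C_mul, ab_coeff_X]
    split_ifs <;> simp
  rw [Finset.sum_congr rfl h1, Finset.sum_ite_eq' Finset.univ j, if_pos (Finset.mem_univ j)]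

end Prism
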