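import Mathlib

/-!
# MP_343ccd_co, characteristic zero: algebraic independence is linear independence of differentials
-/

namespace Prism

open MvPolynomial

section

variable {k : Type*} {K : Type*} [Field k] [Field K] [Algebra k K]

/-- the differential of a polynomial expression -/
private theorem D_aeval {ι : Type*} [Fintype ι] (x : ι → K) (P : MvPolynomial ι k) :
    KaehlerDifferential.D k K (aeval x P) =
      ∑ i, aeval x (pderiv i P) • KaehlerDifferential.D k K (x i) := by
  classical
  induction P using MvPolynomial.induction_on with
  | C a => simp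
  | add p q hp hq => simp [hp, hq, add_smul, Finset.sum_add_distrib]
  | mul_X p j hp =>
    have h1 : KaehlerDifferential.D k K (aeval x (p * X j)) =
        aeval x p • KaehlerDifferential.D k K (x j) +
          x j • KaehlerDifferential.D k K (aeval x p) := by
      simp [Derivation.leibniz]
    have h2 : ∀ i, aeval x (pderiv i (p * X j)) • KaehlerDifferential.D k K (x i) =
        (if i = j then aeval x p • KaehlerDifferential.D k K (x i) else 0) +
          x j • (aeval x (pderiv i p) • KaehlerDifferential.D k K (x i)) := by
      intro i
      rw [Derivation.leibniz, pderiv_X, map_add, add_smul]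
      congr 1
      · by_cases hij : i = j
        · subst hij; simp
        · simp [hij, Ne.symm hij]
      · simp [mul_smul]
    rw [h1, hp, Finset.smul_sum]
    simp only [h2, Finset.sum_add_distrib, Finset.sum_ite_eq', Finset.mem_univ, if_true]

/-- linearly independent differentials (characteristic zero): algebraically independent elements -/
private theorem algInd_of_linInd [CharZero k] {ι : Type*} [Fintype ι] (x : ι → K)
    (h : LinearIndependent K (fun i => KaehlerDifferential.D k K (x i))) :
    AlgebraicIndependent k x := by
  classical
  rw [algebraicIndependent_iff]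
  by_contra hcon
  push Not at hcon
  obtain ⟨P0, hP0, hP0n⟩ := hcon
  have hex : ∃ n, ∃ P : MvPolynomial ι k, aeval x P = 0 ∧ P ≠ 0 ∧ P.totalDegree = n :=
    ⟨_, P0, hP0, hP0n, rfl⟩
  obtain ⟨P, hP, hPn, hdeg⟩ := Nat.find_spec hex
  have hmin : ∀ Q : MvPolynomial ι k, aeval x Q = 0 → Q ≠ 0 → P.totalDegree ≤ Q.totalDegree := by
    intro Q hQ hQn
    rw [hdeg]
    exact Nat.find_min' hex ⟨Q, hQ, hQn, rfl⟩
  have hsum : ∑ i, aeval x (pderiv i P) • KaehlerDifferential.D k K (x i) = 0 := by
    rw [← D_aeval, hP, map_zero]
  rw [Fintype.linearIndependent_iff] at h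
  have hz := h _ hsum
  have hpd : ∀ i, pderiv i P = 0 := by
    intro i
    by_contra hne
    have h1 := hmin _ (hz i) hne
    obtain ⟨m, hm, hmd⟩ := Finset.exists_mem_eq_sup _ (support_nonempty.mpr hne)
      (fun s : ι →₀ ℕ => s.sum fun _ e => e)
    have h2 : (pderiv i P).totalDegree = m.sum fun _ e => e := hmd
    have hmc : coeff (m + Finsupp.single i 1) P ≠ 0 := by
      intro h0
      rw [mem_support_iff, coeff_pderiv, h0, zero_mul] at hm
      exact hm rfl
    have h3 := le_totalDegree (mem_support_iff.mpr hmc)
    rw [Finsupp.sum_add_index' (by simp) (by simp)] at h3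
    simp only [Finsupp.sum_single_index] at h3
    omega
  have hC : P = C (coeff 0 P) := by
    ext n
    rw [coeff_C]
    split_ifs with hn
    · rw [← hn]
    · obtain ⟨i, hi⟩ : ∃ i, n i ≠ 0 := by
        by_contra hall
        push Not at hall
        exact hn (Finsupp.ext fun i => (hall i).symm)
      have h4 : coeff (n - Finsupp.single i 1) (pderiv i P) = 0 := by rw [hpd i, coeff_zero]
      rw [coeff_pderiv, tsub_add_cancel_of_le (by
        rw [Finsupp.single_le_iff]; omega)] at h4
      exact (mul_eq_zero.mp h4).resolve_right (Nat.cast_add_one_ne_zero _)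
  rw [hC, aeval_C] at hP
  apply hPn
  rw [hC, (map_eq_zero (algebraMap k K)).mp hP, C_0]

/-- algebraically independent elements have linearly independent differentials
(characteristic zero) -/
private theorem linInd_of_algInd [CharZero k] {ι : Type*} (x : ι → K)
    (h : AlgebraicIndependent k x) :
    LinearIndependent K (fun i => KaehlerDifferential.D k K (x i)) := by
  classical
  obtain ⟨t, hxt, ht⟩ := exists_isTranscendenceBasis_superset h.coe_range
  let P := MvPolynomial t k
  let f : P →ₐ[k] K := aeval ((↑) : t → K)
  have hf : Function.Injective f := ht.1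
  let _ : Algebra P K := f.toRingHom.toAlgebra
  have : IsScalarTower k P K := IsScalarTower.of_algebraMap_eq fun r => (f.commutes r).symm
  have : FaithfulSMul P K := (faithfulSMul_iff_algebraMap_injective P K).mpr hf
  have halg : Algebra.IsAlgebraic P K := by
    have h0 : Algebra.IsAlgebraic (Algebra.adjoin k (Set.range ((↑) : t → K))) K := ht.isAlgebraic
    refine Algebra.IsAlgebraic.of_ringHom_of_comp_eq
      (S := Algebra.adjoin k (Set.range ((↑) : t → K))) (B := K)
      (ht.1.aevalEquiv : MvPolynomial t k ≃ₐ[k] _) (RingHom.id K)
      (AlgEquiv.surjective _) Function.injective_id ?_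
    ext p
    · simp [RingHom.algebraMap_toAlgebra, f]
      exact (aeval_C ((↑) : t → K) p).symm
    · simp [RingHom.algebraMap_toAlgebra, f]
      exact (aeval_X (R := k) ((↑) : t → K) p).symm
  let _ : Algebra (FractionRing P) K := FractionRing.liftAlgebra P K
  have : IsScalarTower P (FractionRing P) K := FractionRing.isScalarTower_liftAlgebra P K
  have : CharZero (FractionRing P) :=
    charZero_of_injective_algebraMap (algebraMap k (FractionRing P)).injective
  have : Algebra.IsAlgebraic (FractionRing P) K :=
    (IsFractionRing.comap_isAlgebraic_iff (A := P)).mp halg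
  have : Algebra.IsSeparable (FractionRing P) K := inferInstance
  have : Algebra.FormallyEtale (FractionRing P) K := Algebra.FormallyEtale.of_isSeparable _ _
  have : Algebra.FormallyEtale P (FractionRing P) :=
    Algebra.FormallyEtale.of_isLocalization (nonZeroDivisors P)
  have : Algebra.FormallyEtale P K := Algebra.FormallyEtale.comp P (FractionRing P) K
  let b := ((KaehlerDifferential.mvPolynomialBasis k t).baseChange K).map
    (KaehlerDifferential.tensorKaehlerEquivOfFormallyEtale k P K)
  have hb : ∀ i : t, b i = KaehlerDifferential.D k K (i : K) := by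
    intro i
    have h1 : algebraMap P K (X i) = (i : K) := aeval_X _ _
    simp only [b, Module.Basis.map_apply, Module.Basis.baseChange_apply,
      KaehlerDifferential.mvPolynomialBasis_apply,
      KaehlerDifferential.tensorKaehlerEquivOfFormallyEtale_apply]
    refine (KaehlerDifferential.mapBaseChange_tmul k P K 1 _).trans ?_
    rw [one_smul]
    exact (KaehlerDifferential.map_D k k P K (X i)).trans (by rw [h1])
  have hli := b.linearIndependent
  let j : ι → t := fun i => ⟨x i, hxt ⟨i, rfl⟩⟩
  have hj : Function.Injective j := fun a c hac => h.injective (congrArg Subtype.val hac)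
  have h2 := hli.comp j hj
  have h3 : (b ∘ j) = fun i => KaehlerDifferential.D k K (x i) := funext fun i => hb (j i)
  rwa [h3] at h2

/-- characteristic zero: elements are algebraically independent iff their differentials are
linearly independent -/
theorem algInd_iff_linInd [CharZero k] {ι : Type*} [Finite ι] (x : ι → K) :
    AlgebraicIndependent k x ↔ LinearIndependent K (fun i => KaehlerDifferential.D k K (x i)) := by
  have := Fintype.ofFinite ι
  exact ⟨linInd_of_algInd x, algInd_of_linInd x⟩

end

end Prism
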