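import Pool.Agent.Lib.MP_343ccd_co.Defs

/-!
# MP_343ccd_co, module Comm: the commutative model, basic identities

PROOFS.
`ev_cvec`: with `a, b` the two types, `ev (vec (a b) (a + b) t 1) r = (r - t)(r t - a)(r t - b)(a b r - t)`
is a polynomial identity (`simp [ev, cvec, vec]; ring`).
`cvec_zero_ne`: component `0` is `a b t²`.
`letters_indep`: write `a_i = sv s b i`.  The `3 x 3` determinant of the components `0, 1, 2` of
the three letters is `± (a_0 - a_1)(a_1 - a_2)(a_2 - a_0) t³ (t² - a_0 a_1 a_2)²` (`ring`), which is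
`≠ 0` (for `b = true` the `a_i = (s i)⁻¹` are distinct as well).  A vanishing combination
`x • c_0 + y • c_1 + z • c_2 = 0` gives three equations in the components `0, 1, 2`, hence
`x = y = z = 0` (`Matrix.eq_zero_of_mulVec_eq_zero`, or elimination by `linear_combination`).
`minor_eq`: for two letters `l = i+1, l' = i+2` of the type `i` (same vertex, same side)
`p_{01} = c_0 c'_1 - c_1 c'_0 = t³ a_i (a_{i+1} - a_{i+2}) (t² - a_0 a_1 a_2)` up to sign and
`p_{03} = a_i p_{01}` (`ring`, three cases of `i`).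
-/

namespace Prism

variable {k : Type*} [Field k]

theorem sv_ne_zero (s : Fin 3 → k) (hs : SGood s) (b : Bool) (i : Fin 3) : sv s b i ≠ 0 := by
  unfold sv
  split
  · exact inv_ne_zero (hs.1 i)
  · exact hs.1 i

theorem sv_ne (s : Fin 3 → k) (hs : SGood s) (b : Bool) (i j : Fin 3) (hij : i ≠ j) :
    sv s b i ≠ sv s b j := by
  unfold sv
  split
  · intro h
    exact hs.2.1 i j hij (inv_injective h)
  · exact hs.2.1 i j hij

theorem sv_mul_ne_one (s : Fin 3 → k) (hs : SGood s) (b : Bool) (i j : Fin 3) :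
    sv s b i * sv s b j ≠ 1 := by
  unfold sv
  split
  · intro h
    rw [← mul_inv, inv_eq_one] at h
    exact hs.2.2 i j h
  · exact hs.2.2 i j

theorem ev_cvec (s : Fin 3 → k) (b : Bool) (l : Fin 3) (t r : k) :
    ev (cvec s b l t) r = (r - t) * (r * t - sv s b (l + 1)) * (r * t - sv s b (l + 2)) *
      (sv s b (l + 1) * sv s b (l + 2) * r - t) := by
  simp only [ev, cvec, vec, Matrix.cons_val]
  ring

theorem cvec_zero_ne (s : Fin 3 → k) (hs : SGood s) (b : Bool) (l : Fin 3) (t : k) (ht : t ≠ 0) :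
    cvec s b l t 0 ≠ 0 := by
  simp only [cvec, vec, Matrix.cons_val]
  have h1 := sv_ne_zero s hs b (l + 1)
  have h2 := sv_ne_zero s hs b (l + 2)
  exact mul_ne_zero (mul_ne_zero (mul_ne_zero h1 h2) (pow_ne_zero 2 ht)) (by simp)

private theorem det_id (a : Fin 3 → k) (t : k) :
    (Matrix.of fun (l j : Fin 3) => vec (a (l + 1) * a (l + 2)) (a (l + 1) + a (l + 2)) t 1
      (Fin.castSucc j)).det =
      (a 0 - a 1) * (a 1 - a 2) * (a 2 - a 0) * t ^ 3 * (t ^ 2 - a 0 * a 1 * a 2) ^ 2 := by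
  rw [Matrix.det_fin_three]
  simp only [Matrix.of_apply, vec, Fin.isValue, zero_add, Fin.castSucc_zero, Matrix.cons_val_zero,
    Fin.castSucc_one, Matrix.cons_val_one]
  have h2 : (Fin.castSucc (2 : Fin 3)) = (2 : Fin 4) := rfl
  have h3 : (1 : Fin 3) + 1 = 2 := rfl
  have h4 : (1 : Fin 3) + 2 = 0 := rfl
  have h5 : (2 : Fin 3) + 1 = 0 := rfl
  have h6 : (2 : Fin 3) + 2 = 1 := rfl
  simp only [h2, h3, h4, h5, h6, Matrix.cons_val]
  ring

theorem letters_indep (s : Fin 3 → k) (hs : SGood s) (b : Bool) (t : k) (ht : t ≠ 0)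
    (ht2 : t ^ 2 ≠ sv s b 0 * sv s b 1 * sv s b 2) :
    LinearIndependent k (fun l : Fin 3 => cvec s b l t) := by
  have hdet := det_id (fun i => sv s b i) t
  have hne : (Matrix.of fun (l j : Fin 3) => vec (sv s b (l + 1) * sv s b (l + 2))
      (sv s b (l + 1) + sv s b (l + 2)) t 1 (Fin.castSucc j)).det ≠ 0 := by
    rw [hdet]
    refine mul_ne_zero (mul_ne_zero (mul_ne_zero (mul_ne_zero ?_ ?_) ?_) (pow_ne_zero 3 ht))
      (pow_ne_zero 2 (sub_ne_zero.2 ht2))
    · exact sub_ne_zero.2 (sv_ne s hs b 0 1 (by decide))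
    · exact sub_ne_zero.2 (sv_ne s hs b 1 2 (by decide))
    · exact sub_ne_zero.2 (sv_ne s hs b 2 0 (by decide))
  have h := Matrix.linearIndependent_rows_of_det_ne_zero hne
  refine LinearIndependent.of_comp (LinearMap.funLeft k k (Fin.castSucc : Fin 3 → Fin 4)) ?_
  exact h

/-- the two minors of two letters of one vertex -/
private theorem minor_id (a : Fin 3 → k) (t : k) (i : Fin 3) :
    vec (a (i + 1 + 1) * a (i + 1 + 2)) (a (i + 1 + 1) + a (i + 1 + 2)) t 1 0 *
        vec (a (i + 2 + 1) * a (i + 2 + 2)) (a (i + 2 + 1) + a (i + 2 + 2)) t 1 1 -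
      vec (a (i + 1 + 1) * a (i + 1 + 2)) (a (i + 1 + 1) + a (i + 1 + 2)) t 1 1 *
        vec (a (i + 2 + 1) * a (i + 2 + 2)) (a (i + 2 + 1) + a (i + 2 + 2)) t 1 0 =
      t ^ 3 * a i * (a (i + 1) - a (i + 2)) * (t ^ 2 - a 0 * a 1 * a 2) := by
  have h3 : (1 : Fin 3) + 1 = 2 := rfl
  have h4 : (1 : Fin 3) + 2 = 0 := rfl
  have h5 : (2 : Fin 3) + 1 = 0 := rfl
  have h6 : (2 : Fin 3) + 2 = 1 := rfl
  fin_cases i <;>
  simp only [Fin.isValue, Fin.zero_eta, Fin.mk_one, Fin.reduceFinMk, zero_add, h3, h4, h5, h6,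
    vec, Matrix.cons_val] <;> ring

/-- the two minors of two letters of one vertex -/
theorem minor_ne (s : Fin 3 → k) (hs : SGood s) (b : Bool) (t : k) (ht : t ≠ 0)
    (ht2 : t ^ 2 ≠ sv s b 0 * sv s b 1 * sv s b 2) (i : Fin 3) :
    cvec s b (i + 1) t 0 * cvec s b (i + 2) t 1 - cvec s b (i + 1) t 1 * cvec s b (i + 2) t 0
      ≠ 0 := by
  have h := minor_id (fun j => sv s b j) t i
  unfold cvec
  rw [h]
  refine mul_ne_zero (mul_ne_zero (mul_ne_zero (pow_ne_zero 3 ht) (sv_ne_zero s hs b i)) ?_)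
    (sub_ne_zero.2 ht2)
  refine sub_ne_zero.2 (sv_ne s hs b _ _ ?_)
  intro h1
  have : (1 : Fin 3) = 2 := add_left_cancel h1
  exact absurd this (by decide)

theorem minor_eq (s : Fin 3 → k) (b : Bool) (t : k) (i : Fin 3) :
    cvec s b (i + 1) t 0 * cvec s b (i + 2) t 3 - cvec s b (i + 1) t 3 * cvec s b (i + 2) t 0 =
      sv s b i * (cvec s b (i + 1) t 0 * cvec s b (i + 2) t 1
        - cvec s b (i + 1) t 1 * cvec s b (i + 2) t 0) := by
  have h3 : (1 : Fin 3) + 1 = 2 := rfl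
  have h4 : (1 : Fin 3) + 2 = 0 := rfl
  have h5 : (2 : Fin 3) + 1 = 0 := rfl
  have h6 : (2 : Fin 3) + 2 = 1 := rfl
  fin_cases i <;>
  simp only [cvec, Fin.isValue, Fin.zero_eta, Fin.mk_one, Fin.reduceFinMk, zero_add, h3, h4, h5, h6,
    vec, Matrix.cons_val] <;> ring

end Prism
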