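import Pool.Agent.Lib.MP_343ccd_co.XYInd

/-!
# MP_343ccd_co, module CrossInd: independent cross sets

`phi = t + s_i / t`, `d = w1 w2`, `v = w1² + s_i⁻¹ w2²`, `XY_indep` applies.  By `exchange` it is
enough that `X1, X2, Y1, Y2` are algebraic over `adjoin k` of the letters.
Left: `lelt_eq` is a linear system of nonzero determinant
`s_i t³ (s_{i+2} - s_{i+1}) (t² - s_0 s_1 s_2)`.
Right: `relt_eq` is a system over the commutative ring `F[X]` of nonzero determinant `G`, so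
`act G Y1` and `act G Y2` are in the adjoin; `Y` is algebraic over the adjoin because `act G Y` is a
nonconstant polynomial in `Y`.
-/

namespace Prism

open Polynomial

variable {k : Type*} [Field k] [IsAlgClosed k] (p m : ℕ) [hp : Fact p.Prime] [CharP k p]
  (F : Subfield k) (hF : ∀ c ∈ F, c ^ (p ^ m) = c)

omit [IsAlgClosed k] in
private theorem ci_alg (hm : 1 ≤ m) (G : F[X]) (hG : G ≠ 0) (Y : MvPolynomial (Fin 4) k)
    (A : Subalgebra k (MvPolynomial (Fin 4) k)) (h : act p m F hF G Y ∈ A) : IsAlgebraic A Y := by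
  have hQ : 2 ≤ p ^ m := by
    calc 2 ≤ p := hp.out.two_le
      _ = p ^ 1 := (pow_one p).symm
      _ ≤ p ^ m := Nat.pow_le_pow_right hp.out.pos hm
  set g : k[X] := ∑ n ∈ G.support, C ((G.coeff n : F) : k) * X ^ ((p ^ m) ^ n) with hg
  have hcoeff : ∀ n ∈ G.support, g.coeff ((p ^ m) ^ n) = ((G.coeff n : F) : k) := by
    intro n hn
    rw [hg, Polynomial.finsetSum_coeff, Finset.sum_eq_single n]
    · rw [Polynomial.coeff_C_mul_X_pow, if_pos rfl]
    · intro b _ hb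
      rw [Polynomial.coeff_C_mul_X_pow, if_neg]
      intro h2
      exact hb (Nat.pow_right_injective hQ h2).symm
    · intro h2
      exact absurd hn h2
  obtain ⟨n, hn⟩ : ∃ n, n ∈ G.support := by
    by_contra hcon
    push Not at hcon
    exact hG (Polynomial.support_eq_empty.mp (Finset.eq_empty_of_forall_notMem hcon))
  have hgn : g.coeff ((p ^ m) ^ n) ≠ 0 := by
    rw [hcoeff n hn]
    have := Polynomial.mem_support_iff.mp hn
    intro h2
    exact this (Subtype.ext h2)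
  have hdeg : g.natDegree ≠ 0 := by
    have h1 := Polynomial.le_natDegree_of_ne_zero hgn
    have h2 : 1 ≤ (p ^ m) ^ n := Nat.one_le_pow _ _ (by omega)
    omega
  have hinj : Function.Injective (algebraMap k A) := FaithfulSMul.algebraMap_injective k A
  set f : A[X] := g.map (algebraMap k A) with hf
  have hfdeg : f.natDegree ≠ 0 := by
    rw [hf, Polynomial.natDegree_map_eq_of_injective hinj]
    exact hdeg
  have hf0 : f.leadingCoeff ∈ nonZeroDivisors A := by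
    rw [mem_nonZeroDivisors_iff_ne_zero, Polynomial.leadingCoeff_ne_zero]
    intro h2
    rw [h2, Polynomial.natDegree_zero] at hfdeg
    exact hfdeg rfl
  refine IsAlgebraic.of_aeval f hfdeg hf0 ?_
  have h3 : aeval Y f = act p m F hF G Y := by
    rw [hf, Polynomial.aeval_map_algebraMap, hg, map_sum, act_apply]
    refine Finset.sum_congr rfl fun n _ => ?_
    rw [map_mul, Polynomial.aeval_C, map_pow, Polynomial.aeval_X]
    rfl
  rw [h3]
  exact isAlgebraic_algebraMap (⟨_, h⟩ : A)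

omit [IsAlgClosed k] in
private theorem ci_act_mul (g h : F[X]) (x : MvPolynomial (Fin 4) k) :
    act p m F hF g (act p m F hF h x) = act p m F hF (g * h) x := by
  rw [map_mul, Module.End.mul_apply]

private theorem ci_prod {R : Type*} [CommRing R] (s : Fin 3 → R) (i : Fin 3) :
    s i * s (i + 1) * s (i + 2) = s 0 * s 1 * s 2 := by
  fin_cases i
  · rfl
  · change s 1 * s 2 * s 0 = _
    ring
  · change s 2 * s 0 * s 1 = _
    ring

theorem cross_indep (hm : 1 ≤ m) (s : Fin 3 → F) (hs : SGood s) (t : k) (ht : t ≠ 0)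
    (ht2 : t ^ 2 ≠ (s 0 * s 1 * s 2 : F)) (w1 w2 : F[X]) (hw : w1 * w2 ≠ 0)
    (hw2 : C (s 0 * s 1 * s 2) * w1 ^ 2 ≠ w2 ^ 2) (i : Fin 3) (n0 : ℕ) (hn0 : 1 ≤ n0)
    (hphi : (t + s i / t) ^ ((p ^ m) ^ n0) ≠ t + s i / t)
    (hlow : ∀ n, 0 < n → n < n0 → (w1 * w2).coeff n = 0 ∧
      (w1 ^ 2 + C (s i)⁻¹ * w2 ^ 2).coeff n = 0)
    (hdet : (w1 * w2).coeff n0 * (w1 ^ 2 + C (s i)⁻¹ * w2 ^ 2).coeff 0 ≠
      (w1 ^ 2 + C (s i)⁻¹ * w2 ^ 2).coeff n0 * (w1 * w2).coeff 0) :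
    AlgebraicIndependent k ![lelt (fun j => (s j : k)) t (i + 1),
      lelt (fun j => (s j : k)) t (i + 2), relt p m F hF s w1 w2 (i + 1),
      relt p m F hF s w1 w2 (i + 2)] := by
  obtain ⟨hs0, hsne, hs1⟩ := hs
  have hsk : ∀ j, (s j : k) ≠ 0 := fun j hj => hs0 j (Subtype.ext hj)
  have h12 : (i + 1 : Fin 3) ≠ i + 2 := by fin_cases i <;> decide
  have hXY := XY_indep p m F hF hm (s i : k) (t + s i / t) (hsk i)
    (fun hcon => hs1 i i (Subtype.ext hcon)) (w1 * w2) (w1 ^ 2 + C (s i)⁻¹ * w2 ^ 2) n0 hn0 hphi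
    hlow hdet
  refine exchange _ _ hXY ?_
  set A := Algebra.adjoin k (Set.range ![lelt (fun j => (s j : k)) t (i + 1),
      lelt (fun j => (s j : k)) t (i + 2), relt p m F hF s w1 w2 (i + 1),
      relt p m F hF s w1 w2 (i + 2)]) with hA
  have m0 : lelt (fun j => (s j : k)) t (i + 1) ∈ A := Algebra.subset_adjoin ⟨0, rfl⟩
  have m1 : lelt (fun j => (s j : k)) t (i + 2) ∈ A := Algebra.subset_adjoin ⟨1, rfl⟩
  have m2 : relt p m F hF s w1 w2 (i + 1) ∈ A := Algebra.subset_adjoin ⟨2, rfl⟩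
  have m3 : relt p m F hF s w1 w2 (i + 2) ∈ A := Algebra.subset_adjoin ⟨3, rfl⟩
  have alg : ∀ z ∈ A, IsAlgebraic A z := fun z hz =>
    isAlgebraic_algebraMap (⟨z, hz⟩ : A)
  obtain ⟨l1, l2⟩ := lelt_eq (fun j => (s j : k)) t hsk ht i
  obtain ⟨r1, r2⟩ := relt_eq p m F hF s hs0 w1 w2 i
  -- the left determinant
  have hP : (s i : k) * s (i + 1) * s (i + 2) = ((s 0 * s 1 * s 2 : F) : k) := by
    have := ci_prod (fun j => (s j : k)) i
    push_cast
    exact this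
  set D : k := (s i : k) * t ^ 3 * (s (i + 2) - s (i + 1)) *
    (t ^ 2 - (s i : k) * s (i + 1) * s (i + 2)) with hD
  have hD0 : D ≠ 0 := by
    rw [hD]
    refine mul_ne_zero (mul_ne_zero (mul_ne_zero (hsk i) (pow_ne_zero _ ht)) ?_) ?_
    · intro hcon
      exact hsne _ _ h12.symm (Subtype.ext (sub_eq_zero.mp hcon))
    · rw [hP]
      exact sub_ne_zero.mpr ht2
  have hx1 : X1 (s i : k) (t + s i / t) =
      MvPolynomial.C (D⁻¹ * ((s i : k) * s (i + 1) ^ 2 * t + t ^ 3)) *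
        lelt (fun j => (s j : k)) t (i + 1) -
      MvPolynomial.C (D⁻¹ * ((s i : k) * s (i + 2) ^ 2 * t + t ^ 3)) *
        lelt (fun j => (s j : k)) t (i + 2) := by
    rw [l1, l2]
    have h1 : (MvPolynomial.C (D⁻¹ * D) : MvPolynomial (Fin 4) k) = 1 := by
      rw [inv_mul_cancel₀ hD0, map_one]
    have h2 : X1 (s i : k) (t + s i / t) = MvPolynomial.C (D⁻¹ * D) * X1 (s i : k) (t + s i / t) := by
      rw [h1, one_mul]
    conv_lhs => rw [h2]
    have h3 : D⁻¹ * D = D⁻¹ * ((s i : k) * s (i + 1) ^ 2 * t + t ^ 3) * ((s i : k) * s (i + 2) * t ^ 2)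
        - D⁻¹ * ((s i : k) * s (i + 2) ^ 2 * t + t ^ 3) * ((s i : k) * s (i + 1) * t ^ 2) := by
      conv_lhs => rw [hD]
      ring
    rw [h3]
    simp only [map_sub, map_mul]
    ring
  have hx2 : X2 (s i : k) (t + s i / t) = MvPolynomial.C (D⁻¹ * ((s i : k) * s (i + 1) * t ^ 2)) *
      lelt (fun j => (s j : k)) t (i + 1) - MvPolynomial.C (D⁻¹ * ((s i : k) * s (i + 2) * t ^ 2)) *
      lelt (fun j => (s j : k)) t (i + 2) := by
    rw [l1, l2]
    have h1 : (MvPolynomial.C (D⁻¹ * D) : MvPolynomial (Fin 4) k) = 1 := by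
      rw [inv_mul_cancel₀ hD0, map_one]
    have h2 : X2 (s i : k) (t + s i / t) = MvPolynomial.C (D⁻¹ * D) * X2 (s i : k) (t + s i / t) := by
      rw [h1, one_mul]
    conv_lhs => rw [h2]
    have h3 : D⁻¹ * D = D⁻¹ * ((s i : k) * s (i + 2) * t ^ 2) * ((s i : k) * s (i + 1) ^ 2 * t + t ^ 3)
        - D⁻¹ * ((s i : k) * s (i + 1) * t ^ 2) * ((s i : k) * s (i + 2) ^ 2 * t + t ^ 3) := by
      conv_lhs => rw [hD]
      ring
    rw [h3]
    simp only [map_sub, map_mul]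
    ring
  -- the right determinant
  set G : F[X] := (w1 * w2) * C ((s i)⁻¹ * ((s (i + 1))⁻¹ - (s (i + 2))⁻¹)) *
    (C ((s i)⁻¹ * (s (i + 1))⁻¹ * (s (i + 2))⁻¹) * w2 ^ 2 - w1 ^ 2) with hG
  have hG0 : G ≠ 0 := by
    rw [hG]
    refine mul_ne_zero (mul_ne_zero hw ?_) ?_
    · rw [Ne, Polynomial.C_eq_zero]
      refine mul_ne_zero (inv_ne_zero (hs0 i)) ?_
      intro hcon
      exact hsne _ _ h12 (inv_injective (sub_eq_zero.mp hcon))
    · intro hcon
      apply hw2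
      have h1 : C (s i * s (i + 1) * s (i + 2)) *
          (C ((s i)⁻¹ * (s (i + 1))⁻¹ * (s (i + 2))⁻¹) * w2 ^ 2 - w1 ^ 2) = 0 := by
        rw [hcon, mul_zero]
      rw [mul_sub, ← mul_assoc, ← C_mul] at h1
      have h2 : s i * s (i + 1) * s (i + 2) * ((s i)⁻¹ * (s (i + 1))⁻¹ * (s (i + 2))⁻¹) = 1 := by
        have := hs0 i
        have := hs0 (i + 1)
        have := hs0 (i + 2)
        field_simp
      rw [h2, C_1, one_mul, ci_prod s i] at h1
      exact (sub_eq_zero.mp h1).symm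
  set y1 := Y1 p m F hF (s i : k) (w1 * w2) (w1 ^ 2 + C (s i)⁻¹ * w2 ^ 2) with hy1
  set y2 := Y2 p m F hF (s i : k) (w1 * w2) (w1 ^ 2 + C (s i)⁻¹ * w2 ^ 2) with hy2
  have hGy1 : act p m F hF G y1 =
      act p m F hF (C ((s i)⁻¹ * (s (i + 1))⁻¹ ^ 2) * w2 ^ 2 + w1 ^ 2)
        (relt p m F hF s w1 w2 (i + 1)) -
      act p m F hF (C ((s i)⁻¹ * (s (i + 2))⁻¹ ^ 2) * w2 ^ 2 + w1 ^ 2)
        (relt p m F hF s w1 w2 (i + 2)) := by
    rw [r1, r2, map_sub, map_sub, ci_act_mul, ci_act_mul, ci_act_mul, ci_act_mul]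
    have h1 : G = (C ((s i)⁻¹ * (s (i + 1))⁻¹ ^ 2) * w2 ^ 2 + w1 ^ 2) *
        (C ((s i)⁻¹ * (s (i + 2))⁻¹) * w1 * w2) -
        (C ((s i)⁻¹ * (s (i + 2))⁻¹ ^ 2) * w2 ^ 2 + w1 ^ 2) *
        (C ((s i)⁻¹ * (s (i + 1))⁻¹) * w1 * w2) := by
      rw [hG]
      simp only [C_mul, C_sub, C_pow]
      ring
    rw [h1, map_sub, LinearMap.sub_apply, mul_comm (C ((s i)⁻¹ * (s (i + 1))⁻¹ ^ 2) * w2 ^ 2 + w1 ^ 2)
      (C ((s i)⁻¹ * (s (i + 2))⁻¹ ^ 2) * w2 ^ 2 + w1 ^ 2)]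
    abel
  have hGy2 : act p m F hF G y2 =
      act p m F hF (C ((s i)⁻¹ * (s (i + 1))⁻¹) * w1 * w2)
        (relt p m F hF s w1 w2 (i + 1)) -
      act p m F hF (C ((s i)⁻¹ * (s (i + 2))⁻¹) * w1 * w2)
        (relt p m F hF s w1 w2 (i + 2)) := by
    rw [r1, r2, map_sub, map_sub, ci_act_mul, ci_act_mul, ci_act_mul, ci_act_mul]
    have h1 : G = (C ((s i)⁻¹ * (s (i + 2))⁻¹) * w1 * w2) *
        (C ((s i)⁻¹ * (s (i + 1))⁻¹ ^ 2) * w2 ^ 2 + w1 ^ 2) -
        (C ((s i)⁻¹ * (s (i + 1))⁻¹) * w1 * w2) *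
        (C ((s i)⁻¹ * (s (i + 2))⁻¹ ^ 2) * w2 ^ 2 + w1 ^ 2) := by
      rw [hG]
      simp only [C_mul, C_sub, C_pow]
      ring
    rw [h1, map_sub, LinearMap.sub_apply, mul_comm (C ((s i)⁻¹ * (s (i + 1))⁻¹) * w1 * w2)
      (C ((s i)⁻¹ * (s (i + 2))⁻¹) * w1 * w2)]
    abel
  intro j
  fin_cases j
  · refine alg _ ?_
    change X1 (s i : k) (t + s i / t) ∈ A
    rw [hx1]
    exact A.sub_mem (A.mul_mem (A.algebraMap_mem _) m0) (A.mul_mem (A.algebraMap_mem _) m1)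
  · refine alg _ ?_
    change X2 (s i : k) (t + s i / t) ∈ A
    rw [hx2]
    exact A.sub_mem (A.mul_mem (A.algebraMap_mem _) m0) (A.mul_mem (A.algebraMap_mem _) m1)
  · change IsAlgebraic A y1
    refine ci_alg p m F hF hm G hG0 y1 A ?_
    rw [hGy1]
    exact A.sub_mem (act_mem_adjoin p m F hF _ _ A m2) (act_mem_adjoin p m F hF _ _ A m3)
  · change IsAlgebraic A y2
    refine ci_alg p m F hF hm G hG0 y2 A ?_
    rw [hGy2]
    exact A.sub_mem (act_mem_adjoin p m F hF _ _ A m2) (act_mem_adjoin p m F hF _ _ A m3)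

end Prism
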