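import Pool.Agent.Lib.MP_343ccd_co.Stmt

/-!
# MP_343ccd_co, bipartite theorem: definitions

Nodal quartic model.  `k` is a field, `W = {f in k[z], deg <= 4, f_0 = f_4}` with basis
`z^4 + 1, z^3, z^2, z`; an element is a vector `Fin 4 -> k` and `ev f r` is its value at `z = r`.
Types `i : Fin 3` (pairs of letters `i+1, i+2`), letters `l : Fin 3` (types `l+1, l+2`).
Parameters `s 0, s 1, s 2` (left side) and `(s i)⁻¹` (right side).
The letter `l` at parameter `t` is the element of `W` with the roots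
`t, s_{l+1}/t, s_{l+2}/t, t/(s_{l+1} s_{l+2})`, scaled.
-/

namespace Prism

open Polynomial

/-- coordinates (basis `z^4+1, z^3, z^2, z`) of the letter with type product `pi`, type sum `Sg`
and homogeneous parameter `x / y` -/
def vec {A : Type*} [CommRing A] (pi Sg x y : A) : Fin 4 → A :=
  ![pi * x ^ 2 * y ^ 2,
    -((pi + 1) * x ^ 3 * y + pi * Sg * x * y ^ 3),
    x ^ 4 + Sg * (pi + 1) * x ^ 2 * y ^ 2 + pi ^ 2 * y ^ 4,
    -(Sg * x ^ 3 * y + pi * (pi + 1) * x * y ^ 3)]

/-- value of the element `f` of `W` at `r` -/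
def ev {k : Type*} [Field k] (f : Fin 4 → k) (r : k) : k :=
  f 0 * (r ^ 4 + 1) + f 1 * r ^ 3 + f 2 * r ^ 2 + f 3 * r

/-- type parameters of the two sides (`false` = left, `true` = right) -/
def sv {k : Type*} [Field k] (s : Fin 3 → k) (b : Bool) (i : Fin 3) : k :=
  if b then (s i)⁻¹ else s i

/-- commutative model of the letter `l` at parameter `t` on side `b` -/
def cvec {k : Type*} [Field k] (s : Fin 3 → k) (b : Bool) (l : Fin 3) (t : k) : Fin 4 → k :=
  vec (sv s b (l + 1) * sv s b (l + 2)) (sv s b (l + 1) + sv s b (l + 2)) t 1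

/-- genericity of the type parameters -/
def SGood {k : Type*} [Field k] (s : Fin 3 → k) : Prop :=
  (∀ i, s i ≠ 0) ∧ (∀ i j, i ≠ j → s i ≠ s j) ∧ (∀ i j, s i * s j ≠ 1)

/-- the four elements of type `i` on the vertices `u, v` -/
def crossSet {V : Type*} [DecidableEq V] (u v : V) (i : Fin 3) : Finset (V × Fin 3) :=
  {(u, i + 1), (u, i + 2), (v, i + 1), (v, i + 2)}

/-- cross set between a left and a right vertex -/
def IsCross {V : Type*} [DecidableEq V] (side : V → Bool) (S : Finset (V × Fin 3)) : Prop :=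
  ∃ u v i, side u = false ∧ side v = true ∧ S = crossSet u v i

/-- good commutative configuration on the finite set `W` of vertices -/
def GoodCfg {k : Type*} [Field k] {V : Type*} [DecidableEq V] (s : Fin 3 → k) (side : V → Bool)
    (q : V → k) (W : Finset V) : Prop :=
  (∀ v ∈ W, q v ≠ 0 ∧ q v ^ 2 ≠ sv s (side v) 0 * sv s (side v) 1 * sv s (side v) 2) ∧
  (∀ v ∈ W, ∀ v' ∈ W, v ≠ v' → ∀ l l' r,
    ¬ (ev (cvec s (side v) l (q v)) r = 0 ∧ ev (cvec s (side v') l' (q v')) r = 0)) ∧
  (∀ S : Finset (V × Fin 3), (∀ x ∈ S, x.1 ∈ W) → S.card ≤ 4 → ¬ IsCross side S →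
    LinearIndependent k (fun x : S => cvec s (side x.1.1) x.1.2 (q x.1.1)))

section action

variable {k : Type*} [Field k] (p m : ℕ) [hp : Fact p.Prime] [CharP k p] (F : Subfield k)
  (hF : ∀ c ∈ F, c ^ (p ^ m) = c)

/-- the Frobenius `x ↦ x ^ (p ^ m)` of `k[T_0, .., T_3]` as an endomorphism linear over the fixed
field `F` -/
noncomputable def Phi : Module.End F (MvPolynomial (Fin 4) k) where
  toFun x := x ^ (p ^ m)
  map_add' x y := by
    exact add_pow_char_pow x y p m
  map_smul' c x := by
    rw [_root_.smul_pow]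
    have h : c ^ (p ^ m) = c := Subtype.ext (hF c c.2)
    rw [h, RingHom.id_apply]

/-- the action of `F[Phi]` on `k[T_0, .., T_3]` -/
noncomputable def act : F[X] →ₐ[F] Module.End F (MvPolynomial (Fin 4) k) :=
  Polynomial.aeval (Phi p m F hF)

/-- right letter: additive polynomial with parameter `w1 / w2` in `F(Phi)` -/
noncomputable def relt (s : Fin 3 → F) (w1 w2 : F[X]) (l : Fin 3) : MvPolynomial (Fin 4) k :=
  ∑ j, act p m F hF (vec (C ((s (l + 1))⁻¹ * (s (l + 2))⁻¹))
    (C ((s (l + 1))⁻¹ + (s (l + 2))⁻¹)) w1 w2 j) (MvPolynomial.X j)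

end action

/-- left letter: linear form with parameter `t` in `k` -/
noncomputable def lelt {k : Type*} [Field k] (s : Fin 3 → k) (t : k) (l : Fin 3) :
    MvPolynomial (Fin 4) k :=
  ∑ j, MvPolynomial.C (cvec s false l t j) * MvPolynomial.X j

/-! ### the elements spanning a type

`e0 = (z² + s)(z² + s⁻¹)`, `e1 = z (z² + s⁻¹)`, `e2 = z (z² + s)`, `e3 = z²`. -/

section elements

variable {k : Type*} [Field k]

noncomputable def e0 (s : k) : MvPolynomial (Fin 4) k :=
  MvPolynomial.X 0 + MvPolynomial.C (s + s⁻¹) * MvPolynomial.X 2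
noncomputable def e1 (s : k) : MvPolynomial (Fin 4) k :=
  MvPolynomial.X 1 + MvPolynomial.C s⁻¹ * MvPolynomial.X 3
noncomputable def e2 (s : k) : MvPolynomial (Fin 4) k :=
  MvPolynomial.X 1 + MvPolynomial.C s * MvPolynomial.X 3
noncomputable def e3 : MvPolynomial (Fin 4) k := MvPolynomial.X 2

noncomputable def X1 (s phi : k) : MvPolynomial (Fin 4) k := e0 s - MvPolynomial.C phi * e1 s
noncomputable def X2 (s phi : k) : MvPolynomial (Fin 4) k := e2 s - MvPolynomial.C phi * e3

variable (p m : ℕ) [hp : Fact p.Prime] [CharP k p] (F : Subfield k)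
  (hF : ∀ c ∈ F, c ^ (p ^ m) = c)

noncomputable def Y1 (s : k) (d v : F[X]) : MvPolynomial (Fin 4) k :=
  act p m F hF d (e0 s) - act p m F hF v (e2 s)
noncomputable def Y2 (s : k) (d v : F[X]) : MvPolynomial (Fin 4) k :=
  act p m F hF d (e1 s) - act p m F hF v e3

end elements

/-! ### the letters of a right vertex -/

section rightletters

/-- fixed field of the `p ^ m`-Frobenius -/
def fixF {k : Type*} [Field k] (p m : ℕ) [Fact p.Prime] [CharP k p] : Subfield k where
  carrier := {x | x ^ (p ^ m) = x}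
  mul_mem' {a b} ha hb := by
    simp only [Set.mem_ofPred_eq] at *
    rw [mul_pow, ha, hb]
  one_mem' := by simp
  add_mem' {a b} ha hb := by
    simp only [Set.mem_ofPred_eq] at *
    rw [add_pow_char_pow, ha, hb]
  zero_mem' := by
    simp only [Set.mem_ofPred_eq]
    exact zero_pow (pow_ne_zero _ (Fact.out : p.Prime).ne_zero)
  neg_mem' {a} ha := by
    simp only [Set.mem_ofPred_eq] at *
    have h := add_pow_char_pow a (-a) p m
    rw [add_neg_cancel, ha, zero_pow (pow_ne_zero _ (Fact.out : p.Prime).ne_zero)] at h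
    exact (neg_eq_of_add_eq_zero_right h.symm).symm
  inv_mem' a ha := by
    simp only [Set.mem_ofPred_eq] at *
    rw [inv_pow, ha]

variable {k : Type*} [Field k] (p m : ℕ) [hp : Fact p.Prime] [CharP k p]

/-- numerator of the parameter -/
noncomputable def rw1 (β : k) (hβ : β ^ (p ^ m) = β) (special : Bool) :
    (fixF (k := k) p m)[X] :=
  if special then C ⟨β, hβ⟩ * (1 + X) else C ⟨β, hβ⟩ + X

/-- denominator of the parameter -/
noncomputable def rw2 (special : Bool) : (fixF (k := k) p m)[X] :=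
  if special then 1 - X else 1

/-- letters of a right vertex -/
noncomputable def rElt (s : Fin 3 → k) (hs : ∀ i, s i ^ (p ^ m) = s i) (β : k)
    (hβ : β ^ (p ^ m) = β) (special : Bool) (l : Fin 3) : MvPolynomial (Fin 4) k :=
  relt p m (fixF p m) (fun _ hc => hc) (fun i => ⟨s i, hs i⟩) (rw1 p m β hβ special)
    (rw2 p m special) l

end rightletters

end Prism
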