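import Pool.Agent.Lib.MP_343ccd_co.XYDep

/-!
# MP_343ccd_co, module EltA: the letters of a right vertex, linear parts and dependent sets

`rElt p m s hs β hβ special l`: the letter `l` of a right vertex with the parameter `w1 / w2` where
ordinary: `w1 = β + Φ, w2 = 1`;  special: `w1 = β (1 + Φ), w2 = 1 - Φ`  (`Φ` = the `p ^ m`-Frobenius,
all coefficients in the fixed field `fixF p m` of `Φ` in `k`).

PROOFS.  `rElt_zero`, `rElt_lin`: `relt_coeff_zero`, `relt_coeff_single` with `w1.coeff 0 = β`,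
`w2.coeff 0 = 1`, which gives `cvec s true l β` (`sv s true i = (s i)⁻¹`).
`rElt_dep`: `phi = t + s_i / t` is fixed by `x ↦ x ^ (p ^ m)`, hence by all iterates; `cross_dep`.
`rElt_dep_a` (type `a`): `t ^ (p ^ m) = s_a / t` so `phi_a ^ (p ^ m) = s_a / t + t = phi_a`
and again all iterates; `cross_dep` (it holds for ordinary vertices too).
`rElt_dep_b` (special, type `b`, `β² = (s b)⁻¹`): `w1 w2 = β (1 - X²)` and
`w1² + (s b)⁻¹ w2² = (s b)⁻¹ ((1 + X)² + (1 - X)²) = 2 (s b)⁻¹ (1 + X²)` have only even exponents,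
and `t ^ ((p ^ m) ^ 2) = (s_a / t) ^ (p ^ m) = s_a / (s_a / t) = t` so `phi_b` is fixed by the even
iterates; `cross_dep`.
-/

namespace Prism

open Polynomial

variable {k : Type*} [Field k] [IsAlgClosed k] (p m : ℕ) [hp : Fact p.Prime] [CharP k p]

theorem rElt_zero (s : Fin 3 → k) (hs : ∀ i, s i ^ (p ^ m) = s i) (β : k)
    (hβ : β ^ (p ^ m) = β) (special : Bool) (l : Fin 3) :
    MvPolynomial.coeff 0 (rElt p m s hs β hβ special l) = 0 := by
  unfold rElt
  exact relt_coeff_zero p m _ _ _ _ _ l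

omit [IsAlgClosed k] in
private theorem ea_w1 (β : k) (hβ : β ^ (p ^ m) = β) (special : Bool) :
    ((rw1 p m β hβ special).coeff 0 : fixF (k := k) p m) = ⟨β, hβ⟩ := by
  unfold rw1
  cases special
  · simp
  · simp

omit [IsAlgClosed k] in
private theorem ea_w2 (special : Bool) :
    ((rw2 (k := k) p m special).coeff 0 : fixF (k := k) p m) = 1 := by
  unfold rw2
  cases special
  · simp
  · simp

theorem rElt_lin (hm : 1 ≤ m) (s : Fin 3 → k) (hs : ∀ i, s i ^ (p ^ m) = s i) (β : k)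
    (hβ : β ^ (p ^ m) = β) (special : Bool) (l : Fin 3) (j : Fin 4) :
    MvPolynomial.coeff (Finsupp.single j 1) (rElt p m s hs β hβ special l) =
      cvec s true l β j := by
  unfold rElt
  rw [relt_coeff_single p m _ _ hm, ea_w1, ea_w2]
  unfold cvec vec
  fin_cases j <;> simp [sv]

omit [IsAlgClosed k] in
private theorem ea_iter {x : k} {q : ℕ} (h : x ^ q = x) (n : ℕ) : x ^ (q ^ n) = x := by
  induction n with
  | zero => rw [pow_zero, pow_one]
  | succ n ih => rw [pow_succ, pow_mul, ih, h]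

theorem rElt_dep (s : Fin 3 → k) (hs : ∀ i, s i ^ (p ^ m) = s i) (hg : SGood s) (β : k)
    (hβ : β ^ (p ^ m) = β) (special : Bool) (t : k) (ht : t ≠ 0) (h : t ^ (p ^ m) = t)
    (i : Fin 3) :
    ¬ AlgebraicIndependent k ![lelt s t (i + 1), lelt s t (i + 2),
      rElt p m s hs β hβ special (i + 1), rElt p m s hs β hβ special (i + 2)] := by
  refine cross_dep p m (fixF p m) (fun _ hc => hc) (fun i => ⟨s i, hs i⟩)
    (fun i h0 => hg.1 i (congrArg Subtype.val h0)) t ht _ _ i fun n _ => ?_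
  refine ea_iter ?_ n
  show (t + s i / t) ^ (p ^ m) = t + s i / t
  rw [add_pow_char_pow, div_pow, hs, h]

theorem rElt_dep_a (s : Fin 3 → k) (hs : ∀ i, s i ^ (p ^ m) = s i) (hg : SGood s) (β : k)
    (hβ : β ^ (p ^ m) = β) (special : Bool) (t : k) (ht : t ≠ 0) (a : Fin 3)
    (h : t ^ (p ^ m + 1) = s a) :
    ¬ AlgebraicIndependent k ![lelt s t (a + 1), lelt s t (a + 2),
      rElt p m s hs β hβ special (a + 1), rElt p m s hs β hβ special (a + 2)] := by
  refine cross_dep p m (fixF p m) (fun _ hc => hc) (fun i => ⟨s i, hs i⟩)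
    (fun i h0 => hg.1 i (congrArg Subtype.val h0)) t ht _ _ a fun n _ => ?_
  refine ea_iter ?_ n
  show (t + s a / t) ^ (p ^ m) = t + s a / t
  have h1 : t ^ (p ^ m) = s a / t := by
    rw [eq_div_iff ht, ← pow_succ, h]
  rw [add_pow_char_pow, div_pow, hs, h1, div_div_cancel₀ (hg.1 a), add_comm]

theorem rElt_dep_b (s : Fin 3 → k) (hs : ∀ i, s i ^ (p ^ m) = s i) (hg : SGood s) (β : k)
    (hβ : β ^ (p ^ m) = β) (t : k) (ht : t ≠ 0) (a b : Fin 3)
    (h : t ^ (p ^ m + 1) = s a) (hb : β ^ 2 = (s b)⁻¹) :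
    ¬ AlgebraicIndependent k ![lelt s t (b + 1), lelt s t (b + 2),
      rElt p m s hs β hβ true (b + 1), rElt p m s hs β hβ true (b + 2)] := by
  have h1 : t ^ (p ^ m) = s a / t := by
    rw [eq_div_iff ht, ← pow_succ, h]
  have h2 : t ^ ((p ^ m) ^ 2) = t := by
    rw [pow_two, pow_mul, h1, div_pow, hs, h1, div_div_cancel₀ (hg.1 a)]
  have hadd : ∀ x y : k, (x + y) ^ ((p ^ m) ^ 2) = x ^ ((p ^ m) ^ 2) + y ^ ((p ^ m) ^ 2) := by
    intro x y
    rw [← pow_mul, add_pow_char_pow]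
  refine cross_dep p m (fixF p m) (fun _ hc => hc) (fun i => ⟨s i, hs i⟩)
    (fun i h0 => hg.1 i (congrArg Subtype.val h0)) t ht _ _ b fun n hn => ?_
  show (t + s b / t) ^ ((p ^ m) ^ n) = t + s b / t
  have hβ2 : (⟨β, hβ⟩ : fixF (k := k) p m) ^ 2 = (⟨s b, hs b⟩ : fixF (k := k) p m)⁻¹ :=
    Subtype.ext hb
  have hw1 : (rw1 p m β hβ true : (fixF (k := k) p m)[X]) = C ⟨β, hβ⟩ * (1 + X) := by
    simp [rw1]
  have hw2 : (rw2 p m true : (fixF (k := k) p m)[X]) = 1 - X := by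
    simp [rw2]
  have e1 : (rw1 p m β hβ true : (fixF (k := k) p m)[X]) * rw2 p m true =
      C ⟨β, hβ⟩ * (1 - X ^ 2) := by
    rw [hw1, hw2]; ring
  have e2 : (rw1 p m β hβ true : (fixF (k := k) p m)[X]) ^ 2 +
      C (⟨s b, hs b⟩ : fixF (k := k) p m)⁻¹ * rw2 p m true ^ 2 =
      C (⟨s b, hs b⟩ : fixF (k := k) p m)⁻¹ * (2 + 2 * X ^ 2) := by
    rw [hw1, hw2, mul_pow, ← C_pow, hβ2]; ring
  have hn2 : n = 0 ∨ n = 2 := by
    by_contra hcon
    push Not at hcon
    obtain ⟨hn0, hn2⟩ := hcon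
    rw [e1, e2] at hn
    rcases hn with hn | hn
    · apply hn
      rw [coeff_C_mul, coeff_sub, coeff_one, coeff_X_pow, if_neg hn0, if_neg hn2]
      simp
    · apply hn
      have e3 : (2 + 2 * X ^ 2 : (fixF (k := k) p m)[X]) = C (1 + 1) + C (1 + 1) * X ^ 2 := by
        rw [C_add, map_one C]
        ring
      rw [coeff_C_mul, e3, coeff_add, coeff_C, coeff_C_mul, coeff_X_pow, if_neg hn0, if_neg hn2]
      simp
  rcases hn2 with rfl | rfl
  · rw [pow_zero, pow_one]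
  · rw [hadd, div_pow, h2, ea_iter (hs b) 2]

end Prism
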