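import Pool.Agent.Lib.MP_343ccd_co.CrossInd

/-!
# MP_343ccd_co, module EltB: the letters of a right vertex, independent cross sets

PROOFS.
`rElt_ind_ord`: `cross_indep` with `n0 = 1`: `w1 w2 = β + X`, `w1² + (s i)⁻¹ w2² =
(β² + (s i)⁻¹) + 2 β X + X²`: `1 * (β² + (s i)⁻¹) ≠ 2 β * β` iff `β² ≠ (s i)⁻¹`; `hw2`: the
coefficients of `X²` are `s0 s1 s2 ≠ 0` and `0`.
`rElt_ind_spec1`: `n0 = 1`: `w1 w2 = β - β X²`, `w1² + (s i)⁻¹ w2² = (β² + (s i)⁻¹)(1 + X²) +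
2 (β² - (s i)⁻¹) X`: `hdet`: `0 ≠ 2 (β² - (s i)⁻¹) β`, `p ≠ 2`, `β ≠ 0`.
`hw2` for special: if `P β² (1 + X)² = (1 - X)²` (`P = s0 s1 s2`) then (coefficients of `1` and `X`)
`P β² = 1` and `2 P β² = -2`, so `4 = 0`, impossible for `p ≠ 2`.
`rElt_ind_spec2` (`β² = (s i)⁻¹`, so `β ≠ 0`): `n0 = 2`: coefficients of `X`: `0` and
`2 (β² - (s i)⁻¹) = 0`; `hdet`: `(-β) (2 β²) ≠ (2 β²) β` iff `4 β³ ≠ 0`.
-/

namespace Prism

open Polynomial

variable {k : Type*} [Field k] [IsAlgClosed k] (p m : ℕ) [hp : Fact p.Prime] [CharP k p]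

private theorem co0 {F : Type*} [Field F] (a b c : F) :
    (C a + C b * X + C c * X ^ 2 : F[X]).coeff 0 = a := by
  simp [coeff_X_pow]

private theorem co1 {F : Type*} [Field F] (a b c : F) :
    (C a + C b * X + C c * X ^ 2 : F[X]).coeff 1 = b := by
  simp [coeff_X_pow, coeff_C]

private theorem co2 {F : Type*} [Field F] (a b c : F) :
    (C a + C b * X + C c * X ^ 2 : F[X]).coeff 2 = c := by
  simp [coeff_X_pow]

omit [IsAlgClosed k] in
private theorem eb_good (s : Fin 3 → k) (hs : ∀ i, s i ^ (p ^ m) = s i) (hg : SGood s) :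
    SGood (fun i => (⟨s i, hs i⟩ : fixF (k := k) p m)) := by
  refine ⟨fun i h => hg.1 i (congrArg Subtype.val h), fun i j hij h =>
    hg.2.1 i j hij (congrArg Subtype.val h), fun i j h => hg.2.2 i j (congrArg Subtype.val h)⟩

omit [IsAlgClosed k] in
private theorem eb_two (hp2 : p ≠ 2) : (2 : fixF (k := k) p m) ≠ 0 := by
  intro h
  have h1 : ((2 : ℕ) : k) = 0 := by
    have h2 := congrArg (algebraMap (fixF (k := k) p m) k) h
    rw [map_ofNat, map_zero] at h2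
    exact_mod_cast h2
  rw [CharP.cast_eq_zero_iff k p 2] at h1
  exact hp2 ((Nat.prime_dvd_prime_iff_eq hp.out Nat.prime_two).1 h1)

theorem rElt_ind_ord (hm : 1 ≤ m) (s : Fin 3 → k) (hs : ∀ i, s i ^ (p ^ m) = s i)
    (hg : SGood s) (β : k) (hβ : β ^ (p ^ m) = β) (t : k) (ht : t ≠ 0)
    (ht2 : t ^ 2 ≠ s 0 * s 1 * s 2) (i : Fin 3) (hβi : β ^ 2 ≠ (s i)⁻¹)
    (hphi : (t + s i / t) ^ (p ^ m) ≠ t + s i / t) :
    AlgebraicIndependent k ![lelt s t (i + 1), lelt s t (i + 2),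
      rElt p m s hs β hβ false (i + 1), rElt p m s hs β hβ false (i + 2)] := by
  set b : fixF (k := k) p m := ⟨β, hβ⟩ with hb
  set σ : Fin 3 → fixF (k := k) p m := fun i => ⟨s i, hs i⟩ with hσ
  have hgood : SGood σ := eb_good p m s hs hg
  have hw1 : (rw1 p m β hβ false : (fixF (k := k) p m)[X]) = C b + X := by
    simp [rw1, hb]
  have hw2 : (rw2 p m false : (fixF (k := k) p m)[X]) = 1 := by
    simp [rw2]
  have e1 : (rw1 p m β hβ false : (fixF (k := k) p m)[X]) * rw2 p m false =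
      C b + C 1 * X + C 0 * X ^ 2 := by
    rw [hw1, hw2, map_one, map_zero]
    ring
  have e2 : (rw1 p m β hβ false : (fixF (k := k) p m)[X]) ^ 2 + C (σ i)⁻¹ * rw2 p m false ^ 2 =
      C (b ^ 2 + (σ i)⁻¹) + C (2 * b) * X + C 1 * X ^ 2 := by
    rw [hw1, hw2, map_add, map_mul, map_pow, map_one, map_ofNat]
    ring
  have hbi : b ^ 2 ≠ (σ i)⁻¹ := fun h => hβi (congrArg Subtype.val h)
  refine cross_indep p m (fixF p m) (fun _ hc => hc) hm σ hgood t ht ht2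
    (rw1 p m β hβ false) (rw2 p m false) ?_ ?_ i 1 le_rfl ?_ ?_ ?_
  · intro h0
    have h1 := congrArg (fun q => coeff q 1) h0
    simp only [e1, co1, coeff_zero] at h1
    exact one_ne_zero h1
  · intro h0
    have e3 : C (σ 0 * σ 1 * σ 2) * (rw1 p m β hβ false : (fixF (k := k) p m)[X]) ^ 2 =
        C (σ 0 * σ 1 * σ 2 * b ^ 2) + C (σ 0 * σ 1 * σ 2 * (2 * b)) * X +
          C (σ 0 * σ 1 * σ 2) * X ^ 2 := by
      rw [hw1]
      simp only [map_mul, map_pow, map_ofNat]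
      ring
    have e4 : (rw2 p m false : (fixF (k := k) p m)[X]) ^ 2 = C 1 + C 0 * X + C 0 * X ^ 2 := by
      rw [hw2, map_one, map_zero]
      ring
    rw [e3, e4] at h0
    have h1 := congrArg (fun q => coeff q 2) h0
    simp only [co2] at h1
    exact mul_ne_zero (mul_ne_zero (hgood.1 0) (hgood.1 1)) (hgood.1 2) h1
  · rw [pow_one]
    exact hphi
  · intro n h1 h2
    omega
  · rw [e1, e2, co1, co0, co1, co0]
    intro h
    apply hbi
    linear_combination -h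

omit [IsAlgClosed k] in
private theorem spec_w (s : Fin 3 → k) (hs : ∀ i, s i ^ (p ^ m) = s i) (β : k)
    (hβ : β ^ (p ^ m) = β) (i : Fin 3) :
    ((rw1 p m β hβ true : (fixF (k := k) p m)[X]) * rw2 p m true =
      C ⟨β, hβ⟩ + C 0 * X + C (-⟨β, hβ⟩) * X ^ 2) ∧
    ((rw1 p m β hβ true : (fixF (k := k) p m)[X]) ^ 2 +
        C (⟨s i, hs i⟩ : fixF (k := k) p m)⁻¹ * rw2 p m true ^ 2 =
      C ((⟨β, hβ⟩ : fixF (k := k) p m) ^ 2 + (⟨s i, hs i⟩ : fixF (k := k) p m)⁻¹) +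
        C (2 * ((⟨β, hβ⟩ : fixF (k := k) p m) ^ 2 - (⟨s i, hs i⟩ : fixF (k := k) p m)⁻¹)) * X +
        C ((⟨β, hβ⟩ : fixF (k := k) p m) ^ 2 + (⟨s i, hs i⟩ : fixF (k := k) p m)⁻¹) * X ^ 2) := by
  have hw1 : (rw1 p m β hβ true : (fixF (k := k) p m)[X]) = C ⟨β, hβ⟩ * (1 + X) := by
    simp [rw1]
  have hw2 : (rw2 p m true : (fixF (k := k) p m)[X]) = 1 - X := by
    simp [rw2]
  constructor
  · rw [hw1, hw2, map_zero, map_neg]
    ring
  · rw [hw1, hw2]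
    simp only [map_add, map_mul, map_sub, map_pow, map_ofNat]
    ring

omit [IsAlgClosed k] in
private theorem spec_hw2 (hp2 : p ≠ 2) (P : fixF (k := k) p m) (β : k) (hβ : β ^ (p ^ m) = β) :
    C P * (rw1 p m β hβ true : (fixF (k := k) p m)[X]) ^ 2 ≠ rw2 p m true ^ 2 := by
  intro h0
  have hw1 : (rw1 p m β hβ true : (fixF (k := k) p m)[X]) = C ⟨β, hβ⟩ * (1 + X) := by
    simp [rw1]
  have hw2 : (rw2 p m true : (fixF (k := k) p m)[X]) = 1 - X := by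
    simp [rw2]
  have e3 : C P * (rw1 p m β hβ true : (fixF (k := k) p m)[X]) ^ 2 =
      C (P * (⟨β, hβ⟩ : fixF (k := k) p m) ^ 2) + C (2 * (P * (⟨β, hβ⟩ : fixF (k := k) p m) ^ 2)) * X
        + C (P * (⟨β, hβ⟩ : fixF (k := k) p m) ^ 2) * X ^ 2 := by
    rw [hw1]
    simp only [map_mul, map_pow, map_ofNat]
    ring
  have e4 : (rw2 p m true : (fixF (k := k) p m)[X]) ^ 2 = C 1 + C (-2) * X + C 1 * X ^ 2 := by
    rw [hw2, map_one, map_neg, map_ofNat]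
    ring
  rw [e3, e4] at h0
  have h1 := congrArg (fun q => coeff q 1) h0
  have h2 := congrArg (fun q => coeff q 0) h0
  simp only [co1, co0] at h1 h2
  rw [h2] at h1
  have h3 : (2 : fixF (k := k) p m) * 2 = 0 := by linear_combination h1
  exact mul_ne_zero (eb_two p m hp2) (eb_two p m hp2) h3

theorem rElt_ind_spec1 (hp2 : p ≠ 2) (hm : 1 ≤ m) (s : Fin 3 → k)
    (hs : ∀ i, s i ^ (p ^ m) = s i) (hg : SGood s) (β : k) (hβ : β ^ (p ^ m) = β)
    (hβ0 : β ≠ 0) (t : k) (ht : t ≠ 0)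
    (ht2 : t ^ 2 ≠ s 0 * s 1 * s 2) (i : Fin 3) (hβi : β ^ 2 ≠ (s i)⁻¹)
    (hphi : (t + s i / t) ^ (p ^ m) ≠ t + s i / t) :
    AlgebraicIndependent k ![lelt s t (i + 1), lelt s t (i + 2),
      rElt p m s hs β hβ true (i + 1), rElt p m s hs β hβ true (i + 2)] := by
  obtain ⟨e1, e2⟩ := spec_w p m s hs β hβ i
  have hgood := eb_good p m s hs hg
  have hb0 : (⟨β, hβ⟩ : fixF (k := k) p m) ≠ 0 := fun h => hβ0 (congrArg Subtype.val h)
  have hbi : (⟨β, hβ⟩ : fixF (k := k) p m) ^ 2 ≠ (⟨s i, hs i⟩ : fixF (k := k) p m)⁻¹ :=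
    fun h => hβi (congrArg Subtype.val h)
  refine cross_indep p m (fixF p m) (fun _ hc => hc) hm (fun i => ⟨s i, hs i⟩) hgood t ht ht2
    (rw1 p m β hβ true) (rw2 p m true) ?_ (spec_hw2 p m hp2 _ β hβ) i 1 le_rfl ?_ ?_ ?_
  · intro h0
    have h1 := congrArg (fun q => coeff q 0) h0
    simp only [e1, co0, coeff_zero] at h1
    exact hb0 h1
  · rw [pow_one]
    exact hphi
  · intro n h1 h2
    omega
  · rw [e1, e2, co1, co0, co1, co0, zero_mul]
    exact (mul_ne_zero (mul_ne_zero (eb_two p m hp2) (sub_ne_zero.2 hbi)) hb0).symm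

theorem rElt_ind_spec2 (hp2 : p ≠ 2) (hm : 1 ≤ m) (s : Fin 3 → k)
    (hs : ∀ i, s i ^ (p ^ m) = s i) (hg : SGood s) (β : k) (hβ : β ^ (p ^ m) = β)
    (t : k) (ht : t ≠ 0)
    (ht2 : t ^ 2 ≠ s 0 * s 1 * s 2) (i : Fin 3) (hβi : β ^ 2 = (s i)⁻¹)
    (hphi : (t + s i / t) ^ ((p ^ m) ^ 2) ≠ t + s i / t) :
    AlgebraicIndependent k ![lelt s t (i + 1), lelt s t (i + 2),
      rElt p m s hs β hβ true (i + 1), rElt p m s hs β hβ true (i + 2)] := by
  obtain ⟨e1, e2⟩ := spec_w p m s hs β hβ i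
  have hgood := eb_good p m s hs hg
  have hbi : (⟨β, hβ⟩ : fixF (k := k) p m) ^ 2 = (⟨s i, hs i⟩ : fixF (k := k) p m)⁻¹ :=
    Subtype.ext hβi
  have hb0 : (⟨β, hβ⟩ : fixF (k := k) p m) ≠ 0 := by
    intro h
    rw [h, zero_pow two_ne_zero] at hbi
    exact inv_ne_zero (hgood.1 i) hbi.symm
  refine cross_indep p m (fixF p m) (fun _ hc => hc) hm (fun i => ⟨s i, hs i⟩) hgood t ht ht2
    (rw1 p m β hβ true) (rw2 p m true) ?_ (spec_hw2 p m hp2 _ β hβ) i 2 (by norm_num) hphi ?_ ?_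
  · intro h0
    have h1 := congrArg (fun q => coeff q 0) h0
    simp only [e1, co0, coeff_zero] at h1
    exact hb0 h1
  · intro n h1 h2
    have hn : n = 1 := by omega
    subst hn
    rw [e1, e2, co1, co1]
    refine ⟨rfl, ?_⟩
    rw [hbi, sub_self, mul_zero]
  · rw [e1, e2, co2, co0, co2, co0, ← hbi]
    intro h
    have h3 : (2 * 2 : fixF (k := k) p m) * (⟨β, hβ⟩ : fixF (k := k) p m) ^ 3 = 0 := by
      linear_combination -h
    exact mul_ne_zero (mul_ne_zero (eb_two p m hp2) (eb_two p m hp2)) (pow_ne_zero 3 hb0) h3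

end Prism
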