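import Pool.Agent.Lib.MP_343ccd_co.Comm

/-!
# MP_343ccd_co, module EvLin: evaluation as a linear map, the polynomial of an element of `W`
-/

namespace Prism

open Polynomial

variable {k : Type*} [Field k]

/-- evaluation at `r` as a linear map on `Fin 4 → k` -/
noncomputable def evL (r : k) : (Fin 4 → k) →ₗ[k] k where
  toFun f := ev f r
  map_add' f g := by
    simp only [ev, Pi.add_apply]
    ring
  map_smul' c f := by
    simp only [ev, Pi.smul_apply, smul_eq_mul, RingHom.id_apply]
    ring

theorem evL_apply (r : k) (f : Fin 4 → k) : evL r f = ev f r := rfl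

/-- the polynomial of an element of `W` -/
noncomputable def evP (f : Fin 4 → k) : k[X] :=
  C (f 0) * (X ^ 4 + 1) + C (f 1) * X ^ 3 + C (f 2) * X ^ 2 + C (f 3) * X

theorem evP_eval (f : Fin 4 → k) (r : k) : (evP f).eval r = ev f r := by
  simp [evP, ev]

theorem evP_ne (f : Fin 4 → k) (h : f 0 ≠ 0) : evP f ≠ 0 := by
  intro h0
  have h1 := congrArg (fun q => coeff q 4) h0
  simp [evP, coeff_X, coeff_one, coeff_X_pow] at h1
  exact h h1

/-- finitely many zeros -/
theorem exists_finset_ev (f : Fin 4 → k) (h : f 0 ≠ 0) :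
    ∃ B : Finset k, ∀ t, t ∉ B → ev f t ≠ 0 := by
  classical
  refine ⟨(evP f).roots.toFinset, fun t ht h0 => ht ?_⟩
  rw [Multiset.mem_toFinset, mem_roots (evP_ne f h), IsRoot.def, evP_eval]
  exact h0

/-- finitely many solutions of `t ^ 2 = c` -/
theorem exists_finset_sq (c : k) : ∃ B : Finset k, ∀ t, t ∉ B → t ^ 2 ≠ c := by
  classical
  have hne : (X ^ 2 - C c : k[X]) ≠ 0 := by
    intro h0
    have h1 := congrArg (fun q => coeff q 2) h0
    simp [coeff_X_pow, coeff_C] at h1
  refine ⟨(X ^ 2 - C c : k[X]).roots.toFinset, fun t ht h0 => ht ?_⟩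
  rw [Multiset.mem_toFinset, mem_roots hne, IsRoot.def]
  simp [h0]

end Prism
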