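import Pool.Agent.Lib.MP_343ccd_co.Comm

/-!
# MP_343ccd_co, module Ext1: adding one letter of a new vertex to an independent family

PROOF.  `card ι ≤ 3 < 4`: there is a nonzero linear functional `lam : Fin 4 → k` with
`∑ j, lam j * e x j = 0` for all `x` (the span is a proper subspace).  The polynomial in `t`
`∑ j, lam j * cvec s b l t j` has (`a, c` the two types, `pi = a c`, `S = a + c`) the coefficients
`t⁴: lam 2`, `t³: -(pi + 1) lam 1 - S lam 3`, `t²: pi lam 0 + S (pi + 1) lam 2`,
`t¹: -pi S lam 1 - pi (pi + 1) lam 3`, `t⁰: pi² lam 2`; if all vanish then `lam 2 = lam 0 = 0` and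
`(pi + 1)² - S² = (1 - a²)(1 - c²) ≠ 0` gives `lam 1 = lam 3 = 0`.  So it is a nonzero polynomial;
`Bad` = its roots.  For `t ∉ Bad` the letter is not in the span of `e`, which gives the linear
independence of `Sum.elim e _` (`LinearIndependent.sumElim`-type lemma or by hand with
`Fintype.linearIndependent_iff`, `Fintype.sum_sum_type`).
-/

namespace Prism

variable {k : Type*} [Field k] [IsAlgClosed k]

open Polynomial in
omit [IsAlgClosed k] in
private theorem bad_functional (s : Fin 3 → k) (hs : SGood s) (b : Bool) (l : Fin 3)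
    (f : (Fin 4 → k) →ₗ[k] k) (hf : f ≠ 0) :
    ∃ B : Finset k, ∀ t, t ∉ B → f (cvec s b l t) ≠ 0 := by
  classical
  set a := sv s b (l + 1) with ha
  set c := sv s b (l + 2) with hc
  set lam : Fin 4 → k := fun j => f (Pi.single j 1) with hlam
  have hfv : ∀ v : Fin 4 → k, f v = v 0 * lam 0 + v 1 * lam 1 + v 2 * lam 2 + v 3 * lam 3 := by
    intro v
    have h1 : v = ∑ j, v j • (Pi.single j (1 : k) : Fin 4 → k) := by
      funext i
      simp [Finset.sum_apply, Pi.single_apply]
    conv_lhs => rw [h1]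
    rw [map_sum]
    simp only [map_smul, smul_eq_mul, Fin.sum_univ_four, hlam]
  set Q : k[X] := C (lam 2) * X ^ 4 + C (-((a * c + 1) * lam 1) - (a + c) * lam 3) * X ^ 3
    + C (a * c * lam 0 + (a + c) * (a * c + 1) * lam 2) * X ^ 2
    + C (-(a * c * (a + c) * lam 1) - a * c * (a * c + 1) * lam 3) * X
    + C ((a * c) ^ 2 * lam 2) with hQ
  have hQe : ∀ t, Q.eval t = f (cvec s b l t) := by
    intro t
    rw [hfv, hQ]
    simp only [eval_add, eval_mul, eval_C, eval_pow, eval_X, cvec, vec, Matrix.cons_val]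
    rw [← ha, ← hc]
    ring
  have ha0 : a ≠ 0 := sv_ne_zero s hs b _
  have hc0 : c ≠ 0 := sv_ne_zero s hs b _
  have haa : a * a ≠ 1 := sv_mul_ne_one s hs b _ _
  have hcc : c * c ≠ 1 := sv_mul_ne_one s hs b _ _
  have hQ0 : Q ≠ 0 := by
    intro h0
    apply hf
    have c4 := congrArg (fun q => coeff q 4) h0
    have c3 := congrArg (fun q => coeff q 3) h0
    have c2 := congrArg (fun q => coeff q 2) h0
    have c1 := congrArg (fun q => coeff q 1) h0
    simp only [hQ, coeff_add, coeff_C_mul, coeff_X_pow, coeff_X, coeff_C, coeff_zero] at c4 c3 c2 c1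
    norm_num at c4 c3 c2 c1
    have l0 : lam 0 = 0 := by
      rw [c4] at c2
      simpa [ha0, hc0] using c2
    have e1 : (a + c) * lam 1 + (a * c + 1) * lam 3 = 0 := by
      have h1 : (a * c) * ((a + c) * lam 1 + (a * c + 1) * lam 3) = 0 := by
        linear_combination -c1
      rcases mul_eq_zero.1 h1 with h2 | h2
      · exact absurd h2 (mul_ne_zero ha0 hc0)
      · exact h2
    have hdet : (1 - a * a) * (1 - c * c) ≠ 0 :=
      mul_ne_zero (sub_ne_zero.2 haa.symm) (sub_ne_zero.2 hcc.symm)
    have l1 : lam 1 = 0 := by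
      have h1 : (1 - a * a) * (1 - c * c) * lam 1 = 0 := by
        linear_combination -(a * c + 1) * c3 - (a + c) * e1
      rcases mul_eq_zero.1 h1 with h2 | h2
      · exact absurd h2 hdet
      · exact h2
    have l3 : lam 3 = 0 := by
      have h1 : (1 - a * a) * (1 - c * c) * lam 3 = 0 := by
        linear_combination (a + c) * c3 + (a * c + 1) * e1
      rcases mul_eq_zero.1 h1 with h2 | h2
      · exact absurd h2 hdet
      · exact h2
    refine LinearMap.ext fun v => ?_
    rw [hfv v, l0, l1, c4, l3]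
    simp
  refine ⟨Q.roots.toFinset, fun t ht h0 => ht ?_⟩
  rw [Multiset.mem_toFinset, mem_roots hQ0, IsRoot.def, hQe]
  exact h0

omit [IsAlgClosed k] in
theorem ext1 (s : Fin 3 → k) (hs : SGood s) (b : Bool) (l : Fin 3) {ι : Type*} [Fintype ι]
    (hι : Fintype.card ι ≤ 3) (e : ι → Fin 4 → k) (he : LinearIndependent k e) :
    ∃ Bad : Finset k, ∀ t, t ∉ Bad →
      LinearIndependent k (Sum.elim e (fun _ : Fin 1 => cvec s b l t)) := by
  have hlt : Submodule.span k (Set.range e) < ⊤ := by
    rw [lt_top_iff_ne_top]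
    intro h
    have h1 : Module.finrank k (Submodule.span k (Set.range e)) ≤ Fintype.card ι :=
      finrank_range_le_card e
    rw [h, finrank_top, Module.finrank_fin_fun] at h1
    omega
  obtain ⟨f, hf, hker⟩ := Submodule.exists_le_ker_of_lt_top _ hlt
  obtain ⟨B, hB⟩ := bad_functional s hs b l f hf
  refine ⟨B, fun t ht => ?_⟩
  have hfe : ∀ x, f (e x) = 0 := fun x => hker (Submodule.subset_span ⟨x, rfl⟩)
  rw [Fintype.linearIndependent_iff] at he ⊢
  intro g hg
  rw [Fintype.sum_sum_type] at hg
  simp only [Sum.elim_inl, Sum.elim_inr, Finset.univ_unique, Fin.default_eq_zero,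
    Finset.sum_singleton] at hg
  have h2 := congrArg f hg
  rw [map_add, map_sum, map_zero, map_smul] at h2
  simp only [map_smul, hfe, smul_eq_mul, mul_zero, Finset.sum_const_zero, zero_add] at h2
  have h3 : g (Sum.inr 0) = 0 := by
    rcases mul_eq_zero.1 h2 with h4 | h4
    · exact h4
    · exact absurd h4 (hB t ht)
  rw [h3, zero_smul, add_zero] at hg
  have h5 := he (fun x => g (Sum.inl x)) hg
  rintro (x | j)
  · exact h5 x
  · rw [Subsingleton.elim j 0]
    exact h3

end Prism
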