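import Pool.Agent.Lib.MP_343ccd_co.EvLin

/-!
# MP_343ccd_co, module Ext2: adding two letters of a new vertex to an independent family

PROOF.  `c = sv s b i`; both letters vanish at `r = t` and at `r = c / t` (`ev_cvec`, `t ≠ 0`:
the letter `i+1` has the types `i+2, i+3 = i`, the letter `i+2` the types `i+3 = i, i+4 = i+1`) and
they are linearly independent for `t ≠ 0`, `t² ≠ a_0 a_1 a_2` (`letters_indep`; `a_j = sv s b j`).
Let `Bad` contain `0`, the roots of `t² = a_0 a_1 a_2`, for every `x` the roots of `ev (e x) t`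
(nonzero polynomial, leading coefficient `e x 0`) and for every pair `x ≠ y` the roots of the
polynomial `t⁴ (ev (e x) t * ev (e y) (c / t) - ev (e y) t * ev (e x) (c / t))` (it is a polynomial
in `t`: `t⁴ ev f (c / t) = f 0 (c⁴ + t⁴) + f 1 c³ t + f 2 c² t² + f 3 c t³`), nonzero by `hD`.
If `∑ g_x e_x + α c_1 + β c_2 = 0` then `f = ∑ g_x e_x` satisfies `ev f t = 0 = ev f (c / t)`
(`ev` is linear in `f`); for `card ι = 1` this gives `g = 0`, for `card ι = 2` the `2 x 2`
determinant is `≠ 0`, so `g = 0`; then `α = β = 0`.  `card ι = 0` is trivial.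
-/

namespace Prism

variable {k : Type*} [Field k] [IsAlgClosed k]

open Polynomial in
private noncomputable def starP (f : Fin 4 → k) (c : k) : k[X] :=
  C (f 0) * (C (c ^ 4) + X ^ 4) + C (f 1) * (C (c ^ 3) * X) + C (f 2) * (C (c ^ 2) * X ^ 2)
    + C (f 3) * (C c * X ^ 3)

omit [IsAlgClosed k] in
private theorem starP_eval (f : Fin 4 → k) (c t : k) (ht : t ≠ 0) :
    (starP f c).eval t = t ^ 4 * ev f (c / t) := by
  unfold starP ev
  simp only [Polynomial.eval_add, Polynomial.eval_mul, Polynomial.eval_C, Polynomial.eval_pow,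
    Polynomial.eval_X]
  field_simp

omit [IsAlgClosed k] in
private theorem bad_pair (e e' : Fin 4 → k) (c : k)
    (hD : ¬ ∀ t, t ≠ 0 → ev e t * ev e' (c / t) = ev e' t * ev e (c / t)) :
    ∃ B : Finset k, ∀ t, t ∉ B → t ≠ 0 → ev e t * ev e' (c / t) ≠ ev e' t * ev e (c / t) := by
  classical
  have hne : evP e * starP e' c - evP e' * starP e c ≠ 0 := by
    intro h0
    apply hD
    intro t ht
    have h1 := congrArg (fun q => Polynomial.eval t q) h0
    simp only [Polynomial.eval_sub, Polynomial.eval_mul, Polynomial.eval_zero, evP_eval,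
      starP_eval _ c t ht] at h1
    have ht4 : t ^ 4 ≠ 0 := pow_ne_zero 4 ht
    apply mul_left_cancel₀ ht4
    linear_combination h1
  refine ⟨(evP e * starP e' c - evP e' * starP e c).roots.toFinset, fun t ht ht0 h0 => ht ?_⟩
  rw [Multiset.mem_toFinset, Polynomial.mem_roots hne, Polynomial.IsRoot.def]
  simp only [Polynomial.eval_sub, Polynomial.eval_mul, evP_eval, starP_eval _ c t ht0]
  linear_combination t ^ 4 * h0

omit [IsAlgClosed k] in
theorem ext2 (s : Fin 3 → k) (hs : SGood s) (b : Bool) (i : Fin 3) {ι : Type*} [Fintype ι]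
    (hι : Fintype.card ι ≤ 2) (e : ι → Fin 4 → k) (he0 : ∀ x, e x 0 ≠ 0)
    (_he : LinearIndependent k e)
    (hD : ∀ x y, x ≠ y → ¬ ∀ t, t ≠ 0 →
      ev (e x) t * ev (e y) (sv s b i / t) = ev (e y) t * ev (e x) (sv s b i / t)) :
    ∃ Bad : Finset k, ∀ t, t ∉ Bad →
      LinearIndependent k (Sum.elim e ![cvec s b (i + 1) t, cvec s b (i + 2) t]) := by
  classical
  have hev : ∀ x, ∃ B : Finset k, ∀ t, t ∉ B → ev (e x) t ≠ 0 := fun x =>
    exists_finset_ev (e x) (he0 x)
  choose B hB using hev
  have hpair : ∀ x y, ∃ B : Finset k, ∀ t, t ∉ B → t ≠ 0 → x ≠ y →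
      ev (e x) t * ev (e y) (sv s b i / t) ≠ ev (e y) t * ev (e x) (sv s b i / t) := by
    intro x y
    by_cases hxy : x = y
    · exact ⟨∅, fun t _ _ h => absurd hxy h⟩
    · obtain ⟨B, hB⟩ := bad_pair (e x) (e y) (sv s b i) (hD x y hxy)
      exact ⟨B, fun t ht ht0 _ => hB t ht ht0⟩
  choose B3 hB3 using hpair
  obtain ⟨B2, hB2⟩ := exists_finset_sq (sv s b 0 * sv s b 1 * sv s b 2)
  refine ⟨{0} ∪ B2 ∪ (Finset.univ.biUnion B) ∪
    (Finset.univ.biUnion fun x => Finset.univ.biUnion fun y => B3 x y), fun t ht => ?_⟩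
  simp only [Finset.mem_union, Finset.mem_singleton, Finset.mem_biUnion, Finset.mem_univ, true_and,
    not_or, not_exists] at ht
  obtain ⟨⟨⟨ht0, ht2⟩, htB⟩, ht3⟩ := ht
  have hlet := letters_indep s hs b t ht0 (hB2 t ht2)
  set r := sv s b i / t with hr
  have hrt : r * t = sv s b i := by rw [hr]; field_simp
  have hne12 : i + 1 ≠ i + 2 := by
    intro h1
    have : (1 : Fin 3) = 2 := add_left_cancel h1
    exact absurd this (by decide)
  have i12 : i + 1 + 2 = i := by
    fin_cases i <;> rfl
  have i21 : i + 2 + 1 = i := by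
    fin_cases i <;> rfl
  have z1 : ev (cvec s b (i + 1) t) t = 0 := by rw [ev_cvec]; simp
  have z2 : ev (cvec s b (i + 2) t) t = 0 := by rw [ev_cvec]; simp
  have z3 : ev (cvec s b (i + 1) t) r = 0 := by rw [ev_cvec, hrt, i12]; simp
  have z4 : ev (cvec s b (i + 2) t) r = 0 := by rw [ev_cvec, hrt, i21]; simp
  rw [Fintype.linearIndependent_iff]
  intro g hg
  rw [Fintype.sum_sum_type] at hg
  simp only [Sum.elim_inl, Sum.elim_inr, Fin.sum_univ_two, Matrix.cons_val_zero,
    Matrix.cons_val_one] at hg
  have q1 : ∑ x, g (Sum.inl x) * ev (e x) t = 0 := by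
    have h2 := congrArg (evL t) hg
    rw [map_add, map_sum, map_add, map_zero, map_smul, map_smul, evL_apply, evL_apply, z1, z2]
      at h2
    simpa only [map_smul, evL_apply, smul_eq_mul, mul_zero, add_zero] using h2
  have q2 : ∑ x, g (Sum.inl x) * ev (e x) r = 0 := by
    have h2 := congrArg (evL r) hg
    rw [map_add, map_sum, map_add, map_zero, map_smul, map_smul, evL_apply, evL_apply, z3, z4]
      at h2
    simpa only [map_smul, evL_apply, smul_eq_mul, mul_zero, add_zero] using h2
  have h1 : ∀ x, g (Sum.inl x) = 0 := by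
    intro x
    by_cases hy : ∃ y, x ≠ y
    · obtain ⟨y, hxy⟩ := hy
      have hthree : ∀ z, z ≠ x ∧ z ≠ y → False := by
        intro z hz
        have h3 : 2 < Fintype.card ι := Fintype.two_lt_card_iff.2 ⟨x, y, z, hxy, hz.1.symm, hz.2.symm⟩
        omega
      have s1 : g (Sum.inl x) * ev (e x) t + g (Sum.inl y) * ev (e y) t = 0 := by
        rw [← q1]
        symm
        refine Finset.sum_eq_add x y hxy ?_ ?_ ?_
        · intro z _ hz
          exact (hthree z hz).elim
        · intro h
          exact absurd (Finset.mem_univ x) h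
        · intro h
          exact absurd (Finset.mem_univ y) h
      have s2 : g (Sum.inl x) * ev (e x) r + g (Sum.inl y) * ev (e y) r = 0 := by
        rw [← q2]
        symm
        refine Finset.sum_eq_add x y hxy ?_ ?_ ?_
        · intro z _ hz
          exact (hthree z hz).elim
        · intro h
          exact absurd (Finset.mem_univ x) h
        · intro h
          exact absurd (Finset.mem_univ y) h
      have hne := hB3 x y t (ht3 x y) ht0 hxy
      have h4 : g (Sum.inl x) * (ev (e x) t * ev (e y) r - ev (e y) t * ev (e x) r) = 0 := by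
        linear_combination ev (e y) r * s1 - ev (e y) t * s2
      rcases mul_eq_zero.1 h4 with h5 | h5
      · exact h5
      · exact absurd (sub_eq_zero.1 h5) hne
    · have hall : ∀ y, y = x := by
        intro y
        by_contra h
        exact hy ⟨y, fun h' => h h'.symm⟩
      rw [Finset.sum_eq_single x (fun y _ h => absurd (hall y) h)
        (fun h => absurd (Finset.mem_univ x) h)] at q1
      rcases mul_eq_zero.1 q1 with h5 | h5
      · exact h5
      · exact absurd h5 (hB x t (htB x))
  have h7 : ∑ x : ι, g (Sum.inl x) • e x = 0 :=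
    Finset.sum_eq_zero fun x _ => by rw [h1 x, zero_smul]
  rw [h7, zero_add] at hg
  have hinj : Function.Injective ![i + 1, i + 2] := by
    intro a a' h
    fin_cases a <;> fin_cases a'
    · rfl
    · exact absurd h hne12
    · exact absurd h hne12.symm
    · rfl
  have hpi := hlet.comp ![i + 1, i + 2] hinj
  rw [Fintype.linearIndependent_iff] at hpi
  have h8 := hpi ![g (Sum.inr 0), g (Sum.inr 1)] (by
    simp only [Function.comp_apply, Fin.sum_univ_two, Matrix.cons_val_zero, Matrix.cons_val_one]
    exact hg)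
  rintro (x | l)
  · exact h1 x
  · fin_cases l
    · exact h8 0
    · exact h8 1

end Prism
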