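import Pool.Agent.Lib.MP_343ccd_co.Defs

/-!
# MP_343ccd_co, module LemD: lines meeting all the chords of a type

PROOF.  Multiply the hypothesis by `t ^ 4`: with `e*(t) = t⁴ ev e (c / t) =
e_0 c⁴ + e_1 c³ t + e_2 c² t² + e_3 c t³ + e_0 t⁴` the polynomial
`D(t) = e(t) e'*(t) - e'(t) e*(t)` (degree `≤ 8`) vanishes at all `t ≠ 0`, hence identically
(`k` is infinite; write it as a `Polynomial k` and use `Polynomial.funext`-type lemmas,
`Polynomial.eq_zero_of_infinite_isRoot`, then compare coefficients).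
Coefficient of `t⁷`: `c (e_0 e'_3 - e_3 e'_0) - (e_0 e'_1 - e_1 e'_0) = 0`: this is `lemD1`.
`lemD2`: divide `e` by `e_0` and `e'` by `e'_0` (this changes neither the hypothesis nor the roots
nor the independence): `e = (1, a1, a2, a3)`, `e' = (1, b1, b2, b3)`, `d_j = b_j - a_j`, `c' = c⁻¹`.
`t⁷`: `d3 = c' d1`.  `t⁶`: `(c - c') d2 + d1 (c' a1 - a3) = 0`.
`t⁵`: `(c² - c'²) d1 - (c - c') a2 d1 + (c a1 - a3) d2 = 0`.   (`c ≠ c'` since `c² ≠ 1`.)
If `d1 = 0` then `d3 = d2 = 0`, `e = e'`, contradiction.  So `d1 ≠ 0`; put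
`psi = (c' a1 - a3) / (c - c')`, `n = (c a1 - a3) / (c - c')`.  Then `d2 = - psi d1`,
`n - psi = a1`, `n c' - c psi = a3` and `a2 = c + c' - n psi`: that is
`e = (z² + n z + c)(z² - psi z + c')` and `e' - e = d1 z (z² - psi z + c')`.
A root `r` of `z² - psi z + c'` (exists, `k` algebraically closed) is a common root.
-/

namespace Prism

variable {k : Type*} [Field k] [IsAlgClosed k]

open Polynomial in
private theorem coeffs_zero (d : Fin 9 → k)
    (h : ∀ t : k, t ≠ 0 → ∑ n : Fin 9, d n * t ^ (n : ℕ) = 0) : ∀ n, d n = 0 := by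
  classical
  have hinf : Infinite k := IsAlgClosed.instInfinite
  set P : k[X] := ∑ n : Fin 9, C (d n) * X ^ (n : ℕ) with hP
  have hP0 : P = 0 := by
    refine Polynomial.eq_zero_of_infinite_isRoot P ?_
    have hsub : {t : k | t ≠ 0} ⊆ {x | P.IsRoot x} := by
      intro t ht
      have h1 := h t ht
      simp only [Set.mem_ofPred_eq, IsRoot.def, hP, eval_finsetSum, eval_mul, eval_C, eval_pow,
        eval_X]
      exact h1
    refine Set.Infinite.mono hsub ?_
    have : {t : k | t ≠ 0} = ({0} : Set k)ᶜ := by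
      ext t
      simp
    rw [this]
    exact (Set.finite_singleton (0 : k)).infinite_compl
  intro n
  have h2 := congrArg (fun q => coeff q (n : ℕ)) hP0
  simp only [hP, finsetSum_coeff, coeff_C_mul, coeff_X_pow, coeff_zero] at h2
  rw [Finset.sum_eq_single n] at h2
  · simpa using h2
  · intro m _ hm
    rw [if_neg, mul_zero]
    intro h3
    exact hm (Fin.ext h3.symm)
  · intro h3
    exact absurd (Finset.mem_univ n) h3

omit [IsAlgClosed k] in
private theorem star (f : Fin 4 → k) (c t : k) (ht : t ≠ 0) :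
    t ^ 4 * ev f (c / t) = f 0 * (c ^ 4 + t ^ 4) + f 1 * (c ^ 3 * t) + f 2 * (c ^ 2 * t ^ 2)
      + f 3 * (c * t ^ 3) := by
  unfold ev
  field_simp

private theorem coefs (e e' : Fin 4 → k) (c : k)
    (h : ∀ t, t ≠ 0 → ev e t * ev e' (c / t) = ev e' t * ev e (c / t)) :
    (c * (e 0 * e' 3 - e 3 * e' 0) + (e 1 * e' 0 - e 0 * e' 1) = 0) ∧
    ((c ^ 2 - 1) * (e 0 * e' 2 - e 2 * e' 0) + c * (e 1 * e' 3 - e 3 * e' 1) = 0) ∧
    (c ^ 3 * (e 0 * e' 1 - e 1 * e' 0) + c ^ 2 * (e 1 * e' 2 - e 2 * e' 1)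
      + c * (e 2 * e' 3 - e 3 * e' 2) + (e 3 * e' 0 - e 0 * e' 3) = 0) := by
  have hz := coeffs_zero (k := k) ![0,
    (e 0 * (e' 1 * c ^ 3) + e 3 * (e' 0 * c ^ 4)) - (e' 0 * (e 1 * c ^ 3) + e' 3 * (e 0 * c ^ 4)),
    (e 0 * (e' 2 * c ^ 2) + e 3 * (e' 1 * c ^ 3) + e 2 * (e' 0 * c ^ 4))
      - (e' 0 * (e 2 * c ^ 2) + e' 3 * (e 1 * c ^ 3) + e' 2 * (e 0 * c ^ 4)),
    (e 0 * (e' 3 * c) + e 3 * (e' 2 * c ^ 2) + e 2 * (e' 1 * c ^ 3) + e 1 * (e' 0 * c ^ 4))
      - (e' 0 * (e 3 * c) + e' 3 * (e 2 * c ^ 2) + e' 2 * (e 1 * c ^ 3) + e' 1 * (e 0 * c ^ 4)),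
    (e 3 * (e' 3 * c) + e 2 * (e' 2 * c ^ 2) + e 1 * (e' 1 * c ^ 3))
      - (e' 3 * (e 3 * c) + e' 2 * (e 2 * c ^ 2) + e' 1 * (e 1 * c ^ 3)),
    (e 0 * (e' 1 * c ^ 3) + e 1 * (e' 2 * c ^ 2) + e 2 * (e' 3 * c) + e 3 * e' 0)
      - (e' 0 * (e 1 * c ^ 3) + e' 1 * (e 2 * c ^ 2) + e' 2 * (e 3 * c) + e' 3 * e 0),
    (e 0 * (e' 2 * c ^ 2) + e 1 * (e' 3 * c) + e 2 * e' 0)
      - (e' 0 * (e 2 * c ^ 2) + e' 1 * (e 3 * c) + e' 2 * e 0),
    (e 0 * (e' 3 * c) + e 1 * e' 0) - (e' 0 * (e 3 * c) + e' 1 * e 0),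
    0] (by
      intro t ht
      have h1 := h t ht
      have h2 : ev e t * (t ^ 4 * ev e' (c / t)) = ev e' t * (t ^ 4 * ev e (c / t)) := by
        linear_combination t ^ 4 * h1
      rw [star e' c t ht, star e c t ht] at h2
      simp only [Fin.sum_univ_succ, Matrix.cons_val_zero,
        Matrix.cons_val_succ, Fin.val_zero, Fin.val_succ, Finset.univ_unique, Fin.default_eq_zero,
        Finset.sum_singleton]
      unfold ev at h2
      linear_combination h2)
  have h7 := hz 7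
  have h6 := hz 6
  have h5 := hz 5
  simp only [Matrix.cons_val] at h5 h6 h7
  refine ⟨?_, ?_, ?_⟩
  · linear_combination h7
  · linear_combination h6
  · linear_combination h5

theorem lemD1 (e e' : Fin 4 → k) (c : k) (hc : c ≠ 0)
    (h : ∀ t, t ≠ 0 → ev e t * ev e' (c / t) = ev e' t * ev e (c / t)) :
    e 0 * e' 3 - e 3 * e' 0 = c⁻¹ * (e 0 * e' 1 - e 1 * e' 0) := by
  have h1 := (coefs e e' c h).1
  field_simp
  linear_combination h1

theorem lemD2 (e e' : Fin 4 → k) (c : k) (hc : c ≠ 0) (hc2 : c * c ≠ 1)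
    (he : e 0 ≠ 0) (he' : e' 0 ≠ 0) (hi : LinearIndependent k ![e, e'])
    (h : ∀ t, t ≠ 0 → ev e t * ev e' (c / t) = ev e' t * ev e (c / t)) :
    ∃ r, ev e r = 0 ∧ ev e' r = 0 := by
  obtain ⟨h7, h6, h5⟩ := coefs e e' c h
  set a1 := e 1 / e 0 with ha1
  set a2 := e 2 / e 0 with ha2
  set a3 := e 3 / e 0 with ha3
  set b1 := e' 1 / e' 0 with hb1
  set b2 := e' 2 / e' 0 with hb2
  set b3 := e' 3 / e' 0 with hb3
  have E1 : e 1 = e 0 * a1 := by rw [ha1]; field_simp
  have E2 : e 2 = e 0 * a2 := by rw [ha2]; field_simp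
  have E3 : e 3 = e 0 * a3 := by rw [ha3]; field_simp
  have F1 : e' 1 = e' 0 * b1 := by rw [hb1]; field_simp
  have F2 : e' 2 = e' 0 * b2 := by rw [hb2]; field_simp
  have F3 : e' 3 = e' 0 * b3 := by rw [hb3]; field_simp
  clear_value a1 a2 a3 b1 b2 b3
  rw [E1, E3, F1, F3] at h7
  rw [E1, E2, E3, F1, F2, F3] at h6 h5
  have hE : e 0 * e' 0 ≠ 0 := mul_ne_zero he he'
  have g7 : c * (b3 - a3) = b1 - a1 := by
    have : e 0 * e' 0 * (c * (b3 - a3) - (b1 - a1)) = 0 := by linear_combination h7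
    rcases mul_eq_zero.1 this with h8 | h8
    · exact absurd h8 hE
    · linear_combination h8
  have g6 : (c ^ 2 - 1) * (b2 - a2) + c * (a1 * b3 - a3 * b1) = 0 := by
    have : e 0 * e' 0 * ((c ^ 2 - 1) * (b2 - a2) + c * (a1 * b3 - a3 * b1)) = 0 := by
      linear_combination h6
    rcases mul_eq_zero.1 this with h8 | h8
    · exact absurd h8 hE
    · exact h8
  have g5 : c ^ 3 * (b1 - a1) + c ^ 2 * (a1 * b2 - a2 * b1) + c * (a2 * b3 - a3 * b2)
      + (a3 - b3) = 0 := by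
    have : e 0 * e' 0 * (c ^ 3 * (b1 - a1) + c ^ 2 * (a1 * b2 - a2 * b1)
        + c * (a2 * b3 - a3 * b2) + (a3 - b3)) = 0 := by
      linear_combination h5
    rcases mul_eq_zero.1 this with h8 | h8
    · exact absurd h8 hE
    · exact h8
  have hcc : c ^ 2 - 1 ≠ 0 := by
    intro h8
    apply hc2
    linear_combination h8
  have hd1 : b1 - a1 ≠ 0 := by
    intro hd
    have hd3 : b3 - a3 = 0 := by
      rw [hd] at g7
      rcases mul_eq_zero.1 g7 with h8 | h8
      · exact absurd h8 hc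
      · exact h8
    have hd2 : b2 - a2 = 0 := by
      have : (c ^ 2 - 1) * (b2 - a2) = 0 := by
        linear_combination g6 - c * a1 * hd3 + c * a3 * hd
      rcases mul_eq_zero.1 this with h8 | h8
      · exact absurd h8 hcc
      · exact h8
    have hpair := (LinearIndependent.pair_iff.1 hi) (e' 0) (-(e 0)) (by
      funext j
      simp only [Pi.add_apply, Pi.smul_apply, smul_eq_mul, Pi.zero_apply]
      fin_cases j
      · change e' 0 * e 0 + -(e 0) * e' 0 = 0
        ring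
      · change e' 0 * e 1 + -(e 0) * e' 1 = 0
        rw [E1, F1]
        linear_combination -(e 0 * e' 0) * hd
      · change e' 0 * e 2 + -(e 0) * e' 2 = 0
        rw [E2, F2]
        linear_combination -(e 0 * e' 0) * hd2
      · change e' 0 * e 3 + -(e 0) * e' 3 = 0
        rw [E3, F3]
        linear_combination -(e 0 * e' 0) * hd3)
    exact he' hpair.1
  set psi := (a1 - c * a3) / (c ^ 2 - 1) with hpsi
  set n := (c ^ 2 * a1 - c * a3) / (c ^ 2 - 1) with hn
  have P : (c ^ 2 - 1) * psi = a1 - c * a3 := by rw [hpsi]; field_simp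
  have N : (c ^ 2 - 1) * n = c ^ 2 * a1 - c * a3 := by rw [hn]; field_simp
  clear_value psi n
  have K1 : n - psi = a1 := by
    apply mul_left_cancel₀ hcc
    linear_combination N - P
  have K3 : n - c ^ 2 * psi = c * a3 := by
    apply mul_left_cancel₀ hcc
    linear_combination N - c ^ 2 * P
  have D2 : b2 - a2 = -(psi * (b1 - a1)) := by
    apply mul_left_cancel₀ hcc
    linear_combination g6 - a1 * g7 + (b1 - a1) * P
  have K2 : c * a2 = c ^ 2 + 1 - c * n * psi := by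
    have hmul : (b1 - a1) * (c ^ 2 - 1) ≠ 0 := mul_ne_zero hd1 hcc
    apply mul_left_cancel₀ hmul
    linear_combination (-c) * g5 + (c * a2 - 1) * g7 + (c ^ 3 * a1 - c ^ 2 * a3) * D2
      + (c * psi * (b1 - a1)) * N
  obtain ⟨r, hr⟩ : ∃ r : k, r ^ 2 - psi * r + c⁻¹ = 0 := by
    obtain ⟨r, hr⟩ := IsAlgClosed.exists_root
      (Polynomial.X ^ 2 - Polynomial.C psi * Polynomial.X + Polynomial.C c⁻¹ : Polynomial k) (by
        have : (Polynomial.X ^ 2 - Polynomial.C psi * Polynomial.X + Polynomial.C c⁻¹ :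
            Polynomial k).degree = 2 := by compute_degree!
        rw [this]
        exact two_ne_zero)
    refine ⟨r, ?_⟩
    rw [Polynomial.IsRoot.def] at hr
    simpa using hr
  have hr' : c * (r ^ 2 - psi * r) + 1 = 0 := by
    have := congrArg (fun x => c * x) hr
    simp only [mul_zero] at this
    rw [← this]
    field_simp
  refine ⟨r, ?_, ?_⟩
  · have : c * ev e r = 0 := by
      unfold ev
      rw [E1, E2, E3]
      linear_combination e 0 * (r ^ 2 + n * r + c) * hr' - c * e 0 * r ^ 3 * K1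
        + e 0 * r ^ 2 * K2 - e 0 * r * K3
    rcases mul_eq_zero.1 this with h8 | h8
    · exact absurd h8 hc
    · exact h8
  · have : c * ev e' r = 0 := by
      unfold ev
      rw [F1, F2, F3]
      linear_combination e' 0 * (r ^ 2 + n * r + c) * hr' - c * e' 0 * r ^ 3 * K1
        + e' 0 * r ^ 2 * K2 - e' 0 * r * K3 + e' 0 * (b1 - a1) * r * hr'
        + e' 0 * c * r ^ 2 * D2 + e' 0 * r * g7
    rcases mul_eq_zero.1 this with h8 | h8
    · exact absurd h8 hc
    · exact h8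

end Prism
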