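import Pool.Agent.Lib.MP_343ccd_co.Comm
import Pool.Agent.Lib.MP_343ccd_co.LemD

/-!
# MP_343ccd_co, module Ext2D: the non-degeneracy needed in `ext2`

PROOF.  Let `x ≠ y` be elements of the configuration, `c = sv s b i` and suppose that
`ev e_x t * ev e_y (c / t) = ev e_y t * ev e_x (c / t)` for all `t ≠ 0`.
(1) Different vertices `x.1 ≠ y.1`: both have nonzero component `0` (`cvec_zero_ne`), they are
linearly independent (third condition of `GoodCfg` for `S = {x, y}`, which has two elements and is
not a cross set, since cross sets have four elements), `c² ≠ 1` (`sv_mul_ne_one`), so `lemD2` gives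
a common root, against the second condition of `GoodCfg`.
(2) Same vertex `v'`, letters `l ≠ l'`: let `j` be the third letter, so `{l, l'} = {j+1, j+2}`.
`lemD1` gives `p_{03} = c⁻¹ p_{01}` and `minor_eq` gives `p_{03} = sv s (side v') j * p_{01}`, with
`p_{01} ≠ 0` (`minor_ne`; swap the two letters if necessary, both sides change sign), so
`sv s (side v') j = c⁻¹ = (sv s b i)⁻¹`.  If `side v' = b` this contradicts `sv_mul_ne_one`.
If `side v' ≠ b` then `(sv s b i)⁻¹ = sv s (side v') i`, so `j = i` by `sv_ne`, which is excluded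
by the hypothesis `hxy`.
-/

namespace Prism

variable {k : Type*} [Field k] [IsAlgClosed k] {V : Type*} [DecidableEq V]

theorem crossSet_card (u v : V) (huv : u ≠ v) (i : Fin 3) : (crossSet u v i).card = 4 := by
  have hne12 : i + 1 ≠ i + 2 := by
    intro h1
    have : (1 : Fin 3) = 2 := add_left_cancel h1
    exact absurd this (by decide)
  unfold crossSet
  rw [Finset.card_insert_of_notMem, Finset.card_insert_of_notMem, Finset.card_insert_of_notMem,
    Finset.card_singleton]
  · simp [hne12]
  · simp [huv]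
  · simp [huv, hne12]

theorem not_cross_of_card_lt (side : V → Bool) (S : Finset (V × Fin 3)) (h : S.card < 4) :
    ¬ IsCross side S := by
  rintro ⟨u, v, i, hu, hv, rfl⟩
  have huv : u ≠ v := by
    rintro rfl
    rw [hu] at hv
    exact absurd hv (by decide)
  rw [crossSet_card u v huv i] at h
  exact absurd h (by decide)

omit [IsAlgClosed k] [DecidableEq V] in
private theorem fin3_pair : ∀ l l' : Fin 3, l ≠ l' →
    ∃ j : Fin 3, (l = j + 1 ∧ l' = j + 2) ∨ (l = j + 2 ∧ l' = j + 1) := by decide

private theorem fin3_ne (i : Fin 3) : i + 1 ≠ i ∧ i + 2 ≠ i := by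
  revert i
  decide

private theorem sv_mul_of_ne {k : Type*} [Field k] (s : Fin 3 → k) (hs : SGood s) (b b' : Bool)
    (hb : b' ≠ b) (i : Fin 3) : sv s b' i * sv s b i = 1 := by
  have h := hs.1 i
  cases b <;> cases b' <;> simp_all [sv]

theorem nondeg (s : Fin 3 → k) (hs : SGood s) (side : V → Bool) (q : V → k) (W : Finset V)
    (hW : GoodCfg s side q W) (b : Bool) (i : Fin 3) (x y : V × Fin 3) (hx : x.1 ∈ W)
    (hy : y.1 ∈ W) (hne : x ≠ y)
    (hxy : ¬ (x.1 = y.1 ∧ side x.1 ≠ b ∧ x.2 ≠ i ∧ y.2 ≠ i)) :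
    ¬ ∀ t, t ≠ 0 →
      ev (cvec s (side x.1) x.2 (q x.1)) t * ev (cvec s (side y.1) y.2 (q y.1)) (sv s b i / t) =
      ev (cvec s (side y.1) y.2 (q y.1)) t * ev (cvec s (side x.1) x.2 (q x.1)) (sv s b i / t) := by
  intro h
  obtain ⟨h1, h2, h3⟩ := hW
  have hc := sv_ne_zero s hs b i
  by_cases hv : x.1 = y.1
  · obtain ⟨u, l⟩ := x
    obtain ⟨u', l'⟩ := y
    simp only at hv hx hy h hxy
    subst hv
    have hll : l ≠ l' := by
      intro hl
      exact hne (by rw [hl])
    obtain ⟨j, hj⟩ := fin3_pair l l' hll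
    have hD := lemD1 _ _ _ hc h
    have hmn := minor_ne s hs (side u) (q u) (h1 u hx).1 (h1 u hx).2 j
    have hme := minor_eq s (side u) (q u) j
    have hkey : sv s (side u) j * sv s b i = 1 := by
      have hcc : sv s b i * (sv s b i)⁻¹ = 1 := mul_inv_cancel₀ hc
      rcases hj with ⟨rfl, rfl⟩ | ⟨rfl, rfl⟩
      · apply mul_right_cancel₀ hmn
        linear_combination sv s b i * hD - sv s b i * hme + (cvec s (side u) (j + 1) (q u) 0 *
          cvec s (side u) (j + 2) (q u) 1 - cvec s (side u) (j + 1) (q u) 1 *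
          cvec s (side u) (j + 2) (q u) 0) * hcc
      · apply mul_right_cancel₀ hmn
        linear_combination -(sv s b i) * hD - sv s b i * hme + (cvec s (side u) (j + 1) (q u) 0 *
          cvec s (side u) (j + 2) (q u) 1 - cvec s (side u) (j + 1) (q u) 1 *
          cvec s (side u) (j + 2) (q u) 0) * hcc
    by_cases hb : side u = b
    · rw [hb] at hkey
      exact sv_mul_ne_one s hs b j i hkey
    · have h5 := sv_mul_of_ne s hs b (side u) hb i
      have h6 : sv s (side u) j = sv s (side u) i := by
        apply mul_right_cancel₀ hc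
        rw [hkey, h5]
      have h7 : j = i := by
        by_contra h8
        exact sv_ne s hs (side u) j i h8 h6
      subst h7
      apply hxy
      refine ⟨rfl, hb, ?_, ?_⟩
      · rcases hj with ⟨rfl, rfl⟩ | ⟨rfl, rfl⟩
        · exact (fin3_ne j).1
        · exact (fin3_ne j).2
      · rcases hj with ⟨rfl, rfl⟩ | ⟨rfl, rfl⟩
        · exact (fin3_ne j).2
        · exact (fin3_ne j).1
  · have hcard : ({x, y} : Finset (V × Fin 3)).card = 2 := Finset.card_pair hne
    have hS := h3 {x, y} (by
      intro z hz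
      rw [Finset.mem_insert, Finset.mem_singleton] at hz
      rcases hz with rfl | rfl
      · exact hx
      · exact hy) (by rw [hcard]; decide) (not_cross_of_card_lt side _ (by rw [hcard]; decide))
    have hinj : Function.Injective (![⟨x, by simp⟩, ⟨y, by simp⟩] :
        Fin 2 → ({x, y} : Finset (V × Fin 3))) := by
      intro a a' haa
      fin_cases a <;> fin_cases a'
      · rfl
      · exact absurd (congrArg Subtype.val haa) hne
      · exact absurd (congrArg Subtype.val haa) hne.symm
      · rfl
    have hi := hS.comp _ hinj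
    have hi2 : LinearIndependent k ![cvec s (side x.1) x.2 (q x.1),
        cvec s (side y.1) y.2 (q y.1)] := by
      have hfun : (fun z : ({x, y} : Finset (V × Fin 3)) =>
          cvec s (side z.1.1) z.1.2 (q z.1.1)) ∘ ![⟨x, by simp⟩, ⟨y, by simp⟩] =
          ![cvec s (side x.1) x.2 (q x.1), cvec s (side y.1) y.2 (q y.1)] := by
        funext a
        fin_cases a <;> rfl
      rw [← hfun]
      exact hi
    obtain ⟨r, hr1, hr2⟩ := lemD2 _ _ _ hc (sv_mul_ne_one s hs b i i)
      (cvec_zero_ne s hs (side x.1) x.2 (q x.1) (h1 x.1 hx).1)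
      (cvec_zero_ne s hs (side y.1) y.2 (q y.1) (h1 y.1 hy).1) hi2 h
    exact h2 x.1 hx y.1 hy hv x.2 y.2 r ⟨hr1, hr2⟩

end Prism
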