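import Pool.Agent.Lib.MP_343ccd_co.EvLin

/-!
# MP_343ccd_co, module Ext3: adding all three letters of a new vertex to a family of <= 1 element

PROOF.  `Bad` contains `0`, the roots of `t² = sv s b 0 * sv s b 1 * sv s b 2` and the roots of the
polynomials `ev (e x) t` (nonzero, leading coefficient `e x 0`).  The three letters are linearly
independent (`letters_indep`) and vanish at `r = t` (`ev_cvec`), `ev` is linear in the first
argument: a relation `∑ g_x e_x + ∑ h_l c_l = 0` gives `g_x * ev (e x) t = 0`, so `g = 0`, `h = 0`.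
-/

namespace Prism

variable {k : Type*} [Field k] [IsAlgClosed k]

omit [IsAlgClosed k] in
theorem ext3 (s : Fin 3 → k) (hs : SGood s) (b : Bool) {ι : Type*} [Fintype ι]
    (hι : Fintype.card ι ≤ 1) (e : ι → Fin 4 → k) (he0 : ∀ x, e x 0 ≠ 0) :
    ∃ Bad : Finset k, ∀ t, t ∉ Bad →
      LinearIndependent k (Sum.elim e (fun l : Fin 3 => cvec s b l t)) := by
  classical
  have hev : ∀ x, ∃ B : Finset k, ∀ t, t ∉ B → ev (e x) t ≠ 0 := fun x =>
    exists_finset_ev (e x) (he0 x)
  choose B hB using hev
  obtain ⟨B2, hB2⟩ := exists_finset_sq (sv s b 0 * sv s b 1 * sv s b 2)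
  refine ⟨{0} ∪ B2 ∪ Finset.univ.biUnion B, fun t ht => ?_⟩
  simp only [Finset.mem_union, Finset.mem_singleton, Finset.mem_biUnion, Finset.mem_univ, true_and,
    not_or, not_exists] at ht
  obtain ⟨⟨ht0, ht2⟩, htB⟩ := ht
  have hlet := letters_indep s hs b t ht0 (hB2 t ht2)
  have hsub : Subsingleton ι := Fintype.card_le_one_iff_subsingleton.1 hι
  rw [Fintype.linearIndependent_iff] at hlet ⊢
  intro g hg
  rw [Fintype.sum_sum_type] at hg
  simp only [Sum.elim_inl, Sum.elim_inr] at hg
  have h1 : ∀ x, g (Sum.inl x) = 0 := by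
    intro x
    have h2 := congrArg (evL t) hg
    rw [map_add, map_sum, map_sum, map_zero] at h2
    have h3 : ∑ l : Fin 3, evL t (g (Sum.inr l) • cvec s b l t) = 0 := by
      refine Finset.sum_eq_zero fun l _ => ?_
      rw [map_smul, evL_apply, ev_cvec]
      simp
    have h4 : ∑ y : ι, evL t (g (Sum.inl y) • e y) = g (Sum.inl x) * ev (e x) t := by
      rw [Finset.sum_eq_single x]
      · rw [map_smul, evL_apply, smul_eq_mul]
      · intro y _ hy
        exact absurd (Subsingleton.elim y x) hy
      · intro h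
        exact absurd (Finset.mem_univ x) h
    rw [h3, h4, add_zero] at h2
    rcases mul_eq_zero.1 h2 with h5 | h5
    · exact h5
    · exact absurd h5 (hB x t (htB x))
  have h6 : ∑ l : Fin 3, g (Sum.inr l) • cvec s b l t = 0 := by
    have h7 : ∑ x : ι, g (Sum.inl x) • e x = 0 :=
      Finset.sum_eq_zero fun x _ => by rw [h1 x, zero_smul]
    rwa [h7, zero_add] at hg
  have h8 := hlet (fun l => g (Sum.inr l)) h6
  rintro (x | l)
  · exact h1 x
  · exact h8 l

end Prism
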