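import Pool.Agent.Lib.MP_343ccd_co.Ext1
import Pool.Agent.Lib.MP_343ccd_co.Ext2
import Pool.Agent.Lib.MP_343ccd_co.Ext3
import Pool.Agent.Lib.MP_343ccd_co.Ext2D

/-!
# MP_343ccd_co, module ExtM: extension of a good configuration by one vertex

PROOF of `cfg_single`.  Second condition vacuous; third: the family over `S ⊆ {v} × Fin 3` is a
subfamily of `letters_indep` (composition with the injective map `x ↦ x.2`).
PROOF of `ext_bad`.  `Bad` = union of
(a) `0` and the solutions of `t² = sv 0 * sv 1 * sv 2` (side `v`);
(b) for every old element `e` (vertex in `W`, letter) and every root `r` of `ev e` the `t` with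
`t = r`, `r t = sv j` or `sv j sv j' r = t` (`ev_cvec`): finitely many (`ev e` is a nonzero
polynomial, `r ≠ 0` because `ev e 0 = e 0 ≠ 0`; alternatively: the `t` with `ev e t = 0`,
`ev e (sv j / t) = 0`, `ev e (t / (sv j sv j')) = 0`);
(c) for every subset `T ⊆ W × Fin 3` with at most three elements and every letter `l` the bad set of
`ext1`;
(d) for every `T` with at most two elements and every type `i` such that `hD` holds (`nondeg`) the
bad set of `ext2`;
(e) for every `T` with at most one element the bad set of `ext3`.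
Let `t ∉ Bad`.  For vertices in `W` the updated function agrees with `q`.  Third condition for
`S ⊆ insert v W`, not a cross set: `T = S.filter (·.1 ≠ v)`, `L = {l | (v, l) ∈ S}`.
`L = ∅`: old.  `L = {l}`: `T` is not a cross set (three elements at most), so its family is
independent, `ext1`.  `L = {i+1, i+2}`: `T` has at most two elements, it is independent; if
`T = {x, y}`, `x ≠ y`, with `x.1 = y.1`, `side x.1 ≠ side v`, `x.2 ≠ i`, `y.2 ≠ i` then
`S = crossSet` of `v` and `x.1` (in the right order), excluded; so `nondeg` gives `hD`; `ext2`.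
`L = univ`: `T` has at most one element, `ext3`.  In each case transport along the bijection
`S ≃ T ⊕ L` (`LinearIndependent` of `Sum.elim` composed with an equivalence).
-/

namespace Prism

variable {k : Type*} [Field k] [IsAlgClosed k] {V : Type*} [DecidableEq V]

private theorem transport {k : Type*} [Field k] {α : Type*} {M : Type*} [AddCommGroup M]
    [Module k M] {ι : Type*} (F : α → M) (S T : Finset α) (g : ι → α)
    (hS : ∀ x ∈ S, x ∈ T ∨ ∃ j, g j = x)
    (hli : LinearIndependent k (Sum.elim (fun x : T => F x) (fun j => F (g j)))) :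
    LinearIndependent k (fun x : S => F x) := by
  have h1 : ∀ x : S, ∃ z : T ⊕ ι, Sum.elim (fun x : T => (x : α)) g z = x := by
    intro x
    rcases hS x.1 x.2 with h | ⟨j, hj⟩
    · exact ⟨Sum.inl ⟨x.1, h⟩, rfl⟩
    · exact ⟨Sum.inr j, hj⟩
  choose φ hφ using h1
  have hinj : Function.Injective φ := by
    intro a b hab
    have h2 := hφ a
    rw [hab, hφ b] at h2
    exact Subtype.ext h2.symm
  have h3 := hli.comp φ hinj
  have h4 : (Sum.elim (fun x : T => F x) (fun j => F (g j))) ∘ φ = fun x : S => F x := by
    funext x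
    have h5 := hφ x
    simp only [Function.comp_apply]
    rcases hz : φ x with z | z
    · rw [hz] at h5
      simp only [Sum.elim_inl] at h5 ⊢
      rw [h5]
    · rw [hz] at h5
      simp only [Sum.elim_inr] at h5 ⊢
      rw [h5]
  rw [h4] at h3
  exact h3

omit [IsAlgClosed k] in
theorem cfg_single (s : Fin 3 → k) (hs : SGood s) (side : V → Bool) (q : V → k) (v : V)
    (h0 : q v ≠ 0) (h1 : q v ^ 2 ≠ sv s (side v) 0 * sv s (side v) 1 * sv s (side v) 2) :
    GoodCfg s side q {v} := by
  refine ⟨?_, ?_, ?_⟩
  · intro w hw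
    rw [Finset.mem_singleton] at hw
    subst hw
    exact ⟨h0, h1⟩
  · intro w hw w' hw' hne
    rw [Finset.mem_singleton] at hw hw'
    exact absurd (hw.trans hw'.symm) hne
  · intro S hS _ _
    have hS' : ∀ x ∈ S, x.1 = v := fun x hx => Finset.mem_singleton.1 (hS x hx)
    have hinj : Function.Injective (fun x : S => x.1.2) := by
      intro a b hab
      refine Subtype.ext (Prod.ext ?_ hab)
      rw [hS' a.1 a.2, hS' b.1 b.2]
    have h := (letters_indep s hs (side v) (q v) h0 h1).comp _ hinj
    have h2 : (fun l : Fin 3 => cvec s (side v) l (q v)) ∘ (fun x : S => x.1.2) =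
        fun x : S => cvec s (side x.1.1) x.1.2 (q x.1.1) := by
      funext x
      simp only [Function.comp_apply]
      rw [hS' x.1 x.2]
    rw [h2] at h
    exact h

omit [IsAlgClosed k] in
private theorem bad_root (s : Fin 3 → k) (b : Bool) (l : Fin 3) (e : Fin 4 → k)
    (he : e 0 ≠ 0) :
    ∃ B : Finset k, ∀ t, t ∉ B → ∀ r, ¬ (ev (cvec s b l t) r = 0 ∧ ev e r = 0) := by
  classical
  refine ⟨(evP e).roots.toFinset.biUnion fun r => {r, sv s b (l + 1) / r, sv s b (l + 2) / r,
    sv s b (l + 1) * sv s b (l + 2) * r}, fun t ht r hr => ht ?_⟩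
  have hr0 : r ≠ 0 := by
    rintro rfl
    apply he
    have := hr.2
    simpa [ev] using this
  rw [Finset.mem_biUnion]
  refine ⟨r, ?_, ?_⟩
  · rw [Multiset.mem_toFinset, Polynomial.mem_roots (evP_ne e he), Polynomial.IsRoot.def, evP_eval]
    exact hr.2
  · have h1 := hr.1
    rw [ev_cvec] at h1
    simp only [Finset.mem_insert, Finset.mem_singleton]
    rcases mul_eq_zero.1 h1 with h2 | h2
    · rcases mul_eq_zero.1 h2 with h3 | h3
      · rcases mul_eq_zero.1 h3 with h4 | h4
        · left
          exact (sub_eq_zero.1 h4).symm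
        · right; left
          rw [eq_div_iff hr0, mul_comm]
          exact sub_eq_zero.1 h4
      · right; right; left
        rw [eq_div_iff hr0, mul_comm]
        exact sub_eq_zero.1 h3
    · right; right; right
      exact (sub_eq_zero.1 h2).symm

private theorem fin3_cases : ∀ L : Finset (Fin 3), L = ∅ ∨ (∃ l, L = {l}) ∨
    (∃ i : Fin 3, L = {i + 1, i + 2}) ∨ L = Finset.univ := by decide

private theorem fin3_12 (i : Fin 3) : i + 1 ≠ i + 2 ∧ i + 1 ≠ i ∧ i + 2 ≠ i := by
  revert i
  decide

private theorem fin3_pair2 : ∀ l l' i : Fin 3, l ≠ l' → l ≠ i → l' ≠ i →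
    (l = i + 1 ∧ l' = i + 2) ∨ (l = i + 2 ∧ l' = i + 1) := by decide

theorem ext_bad (s : Fin 3 → k) (hs : SGood s) (side : V → Bool) (q : V → k) (W : Finset V)
    (hW : GoodCfg s side q W) (v : V) (hv : v ∉ W) :
    ∃ Bad : Finset k, ∀ t, t ∉ Bad → GoodCfg s side (Function.update q v t) (insert v W) := by
  classical
  obtain ⟨h1, h2, h3⟩ := id hW
  -- old family
  set fam : (T : Finset (V × Fin 3)) → T → Fin 4 → k :=
    fun T x => cvec s (side x.1.1) x.1.2 (q x.1.1) with hfam
  have he0 : ∀ x : V × Fin 3, x.1 ∈ W → cvec s (side x.1) x.2 (q x.1) 0 ≠ 0 := fun x hx =>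
    cvec_zero_ne s hs _ _ _ (h1 x.1 hx).1
  obtain ⟨Ba, hBa⟩ := exists_finset_sq (sv s (side v) 0 * sv s (side v) 1 * sv s (side v) 2)
  have hb : ∀ (w : V) (l l' : Fin 3), ∃ B : Finset k, w ∈ W → ∀ t, t ∉ B → ∀ r,
      ¬ (ev (cvec s (side v) l t) r = 0 ∧ ev (cvec s (side w) l' (q w)) r = 0) := by
    intro w l l'
    by_cases hw : w ∈ W
    · obtain ⟨B, hB⟩ := bad_root s (side v) l (cvec s (side w) l' (q w)) (he0 (w, l') hw)
      exact ⟨B, fun _ => hB⟩
    · exact ⟨∅, fun h => absurd h hw⟩
  choose Bb hBb using hb
  have hold : ∀ T : Finset (V × Fin 3), (∀ x ∈ T, x.1 ∈ W) → T.card ≤ 3 →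
      LinearIndependent k (fam T) := fun T hT hc =>
    h3 T hT (by omega) (not_cross_of_card_lt side T (by omega))
  have hc : ∀ (T : Finset (V × Fin 3)) (l : Fin 3), ∃ B : Finset k, (∀ x ∈ T, x.1 ∈ W) →
      T.card ≤ 3 → ∀ t, t ∉ B →
      LinearIndependent k (Sum.elim (fam T) (fun _ : Fin 1 => cvec s (side v) l t)) := by
    intro T l
    by_cases hT : (∀ x ∈ T, x.1 ∈ W) ∧ T.card ≤ 3
    · obtain ⟨B, hB⟩ := ext1 s hs (side v) l (ι := T) (by rw [Fintype.card_coe]; exact hT.2)
        (fam T) (hold T hT.1 hT.2)
      exact ⟨B, fun _ _ => hB⟩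
    · exact ⟨∅, fun h h' => absurd ⟨h, h'⟩ hT⟩
  choose Bc hBc using hc
  have hd : ∀ (T : Finset (V × Fin 3)) (i : Fin 3), ∃ B : Finset k, (∀ x ∈ T, x.1 ∈ W) →
      T.card ≤ 2 →
      (∀ x ∈ T, ∀ y ∈ T, x ≠ y → ¬ (x.1 = y.1 ∧ side x.1 ≠ side v ∧ x.2 ≠ i ∧ y.2 ≠ i)) →
      ∀ t, t ∉ B →
      LinearIndependent k (Sum.elim (fam T)
        ![cvec s (side v) (i + 1) t, cvec s (side v) (i + 2) t]) := by
    intro T i
    by_cases hT : (∀ x ∈ T, x.1 ∈ W) ∧ T.card ≤ 2 ∧
      (∀ x ∈ T, ∀ y ∈ T, x ≠ y → ¬ (x.1 = y.1 ∧ side x.1 ≠ side v ∧ x.2 ≠ i ∧ y.2 ≠ i))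
    · obtain ⟨hT1, hT2, hT3⟩ := hT
      obtain ⟨B, hB⟩ := ext2 s hs (side v) i (ι := T) (by rw [Fintype.card_coe]; exact hT2)
        (fam T) (fun x => he0 x.1 (hT1 x.1 x.2)) (hold T hT1 (by omega))
        (fun x y hxy => nondeg s hs side q W hW (side v) i x.1 y.1 (hT1 x.1 x.2) (hT1 y.1 y.2)
          (fun h => hxy (Subtype.ext h)) (hT3 x.1 x.2 y.1 y.2 (fun h => hxy (Subtype.ext h))))
      exact ⟨B, fun _ _ _ => hB⟩
    · exact ⟨∅, fun h h' h'' => absurd ⟨h, h', h''⟩ hT⟩
  choose Bd hBd using hd
  have hee : ∀ (T : Finset (V × Fin 3)), ∃ B : Finset k, (∀ x ∈ T, x.1 ∈ W) →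
      T.card ≤ 1 → ∀ t, t ∉ B →
      LinearIndependent k (Sum.elim (fam T) (fun l : Fin 3 => cvec s (side v) l t)) := by
    intro T
    by_cases hT : (∀ x ∈ T, x.1 ∈ W) ∧ T.card ≤ 1
    · obtain ⟨B, hB⟩ := ext3 s hs (side v) (ι := T) (by rw [Fintype.card_coe]; exact hT.2)
        (fam T) (fun x => he0 x.1 (hT.1 x.1 x.2))
      exact ⟨B, fun _ _ => hB⟩
    · exact ⟨∅, fun h h' => absurd ⟨h, h'⟩ hT⟩
  choose Be hBe using hee
  set PW := (W ×ˢ (Finset.univ : Finset (Fin 3))).powerset with hPW
  refine ⟨({0} ∪ Ba) ∪ (W.biUnion fun w => Finset.univ.biUnion fun l => Finset.univ.biUnion fun l' =>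
      Bb w l l') ∪ (PW.biUnion fun T => Finset.univ.biUnion fun l => Bc T l) ∪
      (PW.biUnion fun T => Finset.univ.biUnion fun i => Bd T i) ∪ (PW.biUnion fun T => Be T),
    fun t ht => ?_⟩
  simp only [Finset.mem_union, Finset.mem_singleton, Finset.mem_biUnion, Finset.mem_univ, true_and,
    not_or, not_exists, not_and] at ht
  obtain ⟨⟨⟨⟨⟨ht0, hta⟩, htb⟩, htc⟩, htd⟩, hte⟩ := ht
  have hupd : ∀ w ∈ W, Function.update q v t w = q w := by
    intro w hw
    have hne : w ≠ v := by
      intro h
      rw [h] at hw
      exact hv hw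
    exact Function.update_of_ne hne _ _
  have hself : Function.update q v t v = t := Function.update_self _ _ _
  have hroot : ∀ w ∈ W, ∀ l l' r, ¬ (ev (cvec s (side v) l t) r = 0 ∧
      ev (cvec s (side w) l' (q w)) r = 0) := fun w hw l l' r =>
    hBb w l l' hw t (htb w hw l l') r
  refine ⟨?_, ?_, ?_⟩
  · intro w hw
    rcases Finset.mem_insert.1 hw with rfl | hw
    · rw [hself]
      exact ⟨ht0, hBa t hta⟩
    · rw [hupd w hw]
      exact h1 w hw
  · intro w hw w' hw' hne l l' r
    rcases Finset.mem_insert.1 hw with hwv | hw1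
    · rcases Finset.mem_insert.1 hw' with hwv' | hw1'
      · exact absurd (hwv.trans hwv'.symm) hne
      · rw [hwv, hself, hupd w' hw1']
        exact hroot w' hw1' l l' r
    · rcases Finset.mem_insert.1 hw' with hwv' | hw1'
      · rw [hwv', hself, hupd w hw1]
        exact fun h => hroot w hw1 l' l r ⟨h.2, h.1⟩
      · rw [hupd w hw1, hupd w' hw1']
        exact h2 w hw1 w' hw1' hne l l' r
  · intro S hS hScard hScross
    set F : V × Fin 3 → Fin 4 → k := fun x => cvec s (side x.1) x.2 (Function.update q v t x.1)
      with hF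
    change LinearIndependent k (fun x : S => F x)
    set T := S.filter (fun x => x.1 ≠ v) with hT
    set L := (Finset.univ : Finset (Fin 3)).filter (fun l => (v, l) ∈ S) with hL
    have hTW : ∀ x ∈ T, x.1 ∈ W := by
      intro x hx
      rw [hT, Finset.mem_filter] at hx
      rcases Finset.mem_insert.1 (hS x hx.1) with h | h
      · exact absurd h hx.2
      · exact h
    have hcardTL : T.card + L.card ≤ 4 := by
      have e1 : L.card ≤ (S.filter (fun x => ¬ x.1 ≠ v)).card := by
        refine Finset.card_le_card_of_injOn (fun l => (v, l)) ?_ ?_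
        · intro l hl
          have hl' : (v, l) ∈ S := (Finset.mem_filter.1 hl).2
          exact Finset.mem_filter.2 ⟨hl', by simp⟩
        · intro a _ b _ hab
          exact (Prod.mk.inj hab).2
      have e2 := Finset.card_filter_add_card_filter_not (s := S) (fun x : V × Fin 3 => x.1 ≠ v)
      rw [← hT] at e2
      omega
    have hTP : T ∈ PW := by
      rw [hPW, Finset.mem_powerset]
      intro x hx
      exact Finset.mem_product.2 ⟨hTW x hx, Finset.mem_univ _⟩
    have hST : ∀ x ∈ S, x ∈ T ∨ (x.1 = v ∧ x.2 ∈ L) := by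
      intro x hx
      by_cases hxv : x.1 = v
      · right
        refine ⟨hxv, ?_⟩
        rw [hL, Finset.mem_filter]
        refine ⟨Finset.mem_univ _, ?_⟩
        rw [← hxv]
        exact hx
      · left
        exact Finset.mem_filter.2 ⟨hx, hxv⟩
    have hFT : (fun x : T => F x) = fam T := by
      funext x
      simp only [hF, hfam]
      rw [hupd _ (hTW x.1 x.2)]
    have hFv : ∀ l, F (v, l) = cvec s (side v) l t := by
      intro l
      simp only [hF]
      rw [hself]
    rcases fin3_cases L with hL0 | ⟨l, hL1⟩ | ⟨i, hL2⟩ | hL3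
    · have hSW : ∀ x ∈ S, x.1 ∈ W := by
        intro x hx
        rcases hST x hx with h | h
        · exact hTW x h
        · rw [hL0] at h
          exact absurd h.2 (Finset.notMem_empty _)
      have h5 := h3 S hSW hScard hScross
      have h6 : (fun x : S => F x) = fun x : S => cvec s (side x.1.1) x.1.2 (q x.1.1) := by
        funext x
        simp only [hF]
        rw [hupd _ (hSW x.1 x.2)]
      rw [h6]
      exact h5
    · have hTc : T.card ≤ 3 := by
        rw [hL1, Finset.card_singleton] at hcardTL
        omega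
      refine transport F S T (fun _ : Fin 1 => (v, l)) ?_ ?_
      · intro x hx
        rcases hST x hx with h | h
        · exact Or.inl h
        · right
          refine ⟨0, ?_⟩
          rw [hL1, Finset.mem_singleton] at h
          exact (Prod.ext h.1 h.2).symm
      · rw [hFT, hFv]
        exact hBc T l hTW hTc t (htc T hTP l)
    · have hcard2 : ({i + 1, i + 2} : Finset (Fin 3)).card = 2 := Finset.card_pair (fin3_12 i).1
      have hTc : T.card ≤ 2 := by
        rw [hL2, hcard2] at hcardTL
        omega
      have hcond : ∀ x ∈ T, ∀ y ∈ T, x ≠ y →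
          ¬ (x.1 = y.1 ∧ side x.1 ≠ side v ∧ x.2 ≠ i ∧ y.2 ≠ i) := by
        intro x hx y hy hxy hbad
        obtain ⟨hb1, hb2, hb3, hb4⟩ := hbad
        apply hScross
        have hTxy : T = {x, y} := by
          symm
          apply Finset.eq_of_subset_of_card_le
          · intro z hz
            rw [Finset.mem_insert, Finset.mem_singleton] at hz
            rcases hz with rfl | rfl
            · exact hx
            · exact hy
          · rw [Finset.card_pair hxy]
            exact hTc
        obtain ⟨u, l1⟩ := x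
        obtain ⟨u', l2⟩ := y
        simp only at hb1 hb2 hb3 hb4
        subst hb1
        have hll : l1 ≠ l2 := by
          intro h
          exact hxy (by rw [h])
        have hTu : T = {(u, i + 1), (u, i + 2)} := by
          rcases fin3_pair2 l1 l2 i hll hb3 hb4 with ⟨rfl, rfl⟩ | ⟨rfl, rfl⟩
          · exact hTxy
          · rw [hTxy, Finset.pair_comm]
        have hSeq : ∀ x, x ∈ S ↔ (x = (u, i + 1) ∨ x = (u, i + 2) ∨ x = (v, i + 1) ∨
            x = (v, i + 2)) := by
          intro x
          constructor
          · intro hx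
            rcases hST x hx with h | h
            · rw [hTu, Finset.mem_insert, Finset.mem_singleton] at h
              rcases h with h | h
              · exact Or.inl h
              · exact Or.inr (Or.inl h)
            · rw [hL2, Finset.mem_insert, Finset.mem_singleton] at h
              rcases h.2 with h' | h'
              · exact Or.inr (Or.inr (Or.inl (Prod.ext h.1 h')))
              · exact Or.inr (Or.inr (Or.inr (Prod.ext h.1 h')))
          · have hT1 : (u, i + 1) ∈ T := by rw [hTu]; simp
            have hT2 : (u, i + 2) ∈ T := by rw [hTu]; simp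
            have hL1' : i + 1 ∈ L := by rw [hL2]; simp
            have hL2' : i + 2 ∈ L := by rw [hL2]; simp
            rintro (rfl | rfl | rfl | rfl)
            · exact (Finset.mem_filter.1 hT1).1
            · exact (Finset.mem_filter.1 hT2).1
            · exact (Finset.mem_filter.1 hL1').2
            · exact (Finset.mem_filter.1 hL2').2
        rcases hu : side u with _ | _
        · have hsv : side v = true := by
            rcases hsv : side v with _ | _
            · rw [hu, hsv] at hb2
              exact absurd rfl hb2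
            · rfl
          refine ⟨u, v, i, hu, hsv, ?_⟩
          ext x
          rw [hSeq x]
          simp only [crossSet, Finset.mem_insert, Finset.mem_singleton]
        · have hsv : side v = false := by
            rcases hsv : side v with _ | _
            · rfl
            · rw [hu, hsv] at hb2
              exact absurd rfl hb2
          refine ⟨v, u, i, hsv, hu, ?_⟩
          ext x
          rw [hSeq x]
          simp only [crossSet, Finset.mem_insert, Finset.mem_singleton]
          tauto
      refine transport F S T (![(v, i + 1), (v, i + 2)]) ?_ ?_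
      · intro x hx
        rcases hST x hx with h | h
        · exact Or.inl h
        · right
          rw [hL2, Finset.mem_insert, Finset.mem_singleton] at h
          rcases h.2 with h' | h'
          · exact ⟨0, (Prod.ext h.1 h').symm⟩
          · exact ⟨1, (Prod.ext h.1 h').symm⟩
      · have hfun : (fun j => F (![(v, i + 1), (v, i + 2)] j)) =
            ![cvec s (side v) (i + 1) t, cvec s (side v) (i + 2) t] := by
          funext j
          fin_cases j
          · exact hFv (i + 1)
          · exact hFv (i + 2)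
        rw [hFT, hfun]
        exact hBd T i hTW hTc hcond t (htd T hTP i)
    · have hTc : T.card ≤ 1 := by
        rw [hL3, Finset.card_univ, Fintype.card_fin] at hcardTL
        omega
      refine transport F S T (fun l : Fin 3 => (v, l)) ?_ ?_
      · intro x hx
        rcases hST x hx with h | h
        · exact Or.inl h
        · right
          exact ⟨x.2, Prod.ext h.1.symm rfl⟩
      · have hfun : (fun j : Fin 3 => F (v, j)) = fun l => cvec s (side v) l t := by
          funext j
          exact hFv j
        rw [hFT, hfun]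
        exact hBe T hTW hTc t (hte T hTP)

end Prism
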