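import Pool.Agent.Lib.MP_343ccd_co.Defs

/-!
# MP_343ccd_co, module LemJ: algebraic independence from the linear parts

PROOF.  Reindex so that `ι = Fin 4` is not needed: work with `P : MvPolynomial ι k`, `P ≠ 0`,
`aeval f P = 0`.  Let `r` be the least degree of a monomial of `P`. The ring homomorphism
`θ : k[T] → k[T][z]`, `T j ↦ z T j` satisfies `θ (f i) = z g_i` with `g_i (z = 0) = lin i`;
`0 = θ (aeval f P) = ∑_d z^|d| P_d g^d`, divide by `z^r` and put `z = 0`. So `aeval lin P_r = 0`.
As the `lin i` are linearly independent linear forms, the linear map `e_i ↦ M i` has a left inverse,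
which gives a left inverse of `aeval lin`: `P_r = 0`, contradiction.
-/

namespace Prism

open MvPolynomial

variable {k : Type*} [Field k] {ι : Type*} [Fintype ι]

/-- the linear form with coefficients `v` -/
private noncomputable def ljForm (v : Fin 4 → k) : MvPolynomial (Fin 4) k :=
  ∑ j, C (v j) * X j

/-- linearly independent linear forms are algebraically independent -/
private theorem lj_forms (M : ι → Fin 4 → k) (hl : LinearIndependent k M)
    (Q : MvPolynomial ι k) (hQ : aeval (fun i => ljForm (M i)) Q = 0) : Q = 0 := by
  classical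
  have hinj : LinearMap.ker (Fintype.linearCombination k M) = ⊥ := by
    rw [LinearMap.ker_eq_bot]
    exact linearIndependent_iff_injective_fintypeLinearCombination.1 hl
  obtain ⟨L, hL⟩ := LinearMap.exists_leftInverse_of_injective _ hinj
  have hLM : ∀ i, L (M i) = Pi.single i 1 := by
    intro i
    have h1 := LinearMap.congr_fun hL (Pi.single i 1)
    rw [LinearMap.comp_apply, Fintype.linearCombination_apply_single, one_smul] at h1
    exact h1
  let ψ : MvPolynomial (Fin 4) k →ₐ[k] MvPolynomial ι k :=
    aeval (fun j => ∑ i, C (L (Pi.single j 1) i) * X i)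
  have hψ : ∀ i, ψ (ljForm (M i)) = X i := by
    intro i
    simp only [ψ, ljForm, map_sum, map_mul, aeval_X]
    have h1 : ∀ j, (aeval (fun j => ∑ i, C (L (Pi.single j 1) i) * X i :
        Fin 4 → MvPolynomial ι k)) (C (M i j)) = (C (M i j) : MvPolynomial ι k) := by
      intro j
      exact (aeval_C _ _)
    simp only [h1]
    have h2 : ∀ i', L (M i) i' = ∑ j, M i j * L (Pi.single j 1) i' := by
      intro i'
      have h3 : M i = ∑ j, M i j • (Pi.single j (1 : k) : Fin 4 → k) := by
        ext j
        simp [Finset.sum_apply, Pi.single_apply]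
      conv_lhs => rw [h3]
      rw [map_sum, Finset.sum_apply]
      refine Finset.sum_congr rfl fun j _ => ?_
      rw [map_smul, Pi.smul_apply, smul_eq_mul]
    calc ∑ j, C (M i j) * ∑ i', C (L (Pi.single j 1) i') * (X i' : MvPolynomial ι k)
        = ∑ i', C (∑ j, M i j * L (Pi.single j 1) i') * (X i' : MvPolynomial ι k) := by
          simp only [Finset.mul_sum, map_sum, Finset.sum_mul, C_mul]
          rw [Finset.sum_comm]
          refine Finset.sum_congr rfl fun i' _ => Finset.sum_congr rfl fun j _ => ?_
          ring
      _ = ∑ i', C (L (M i) i') * (X i' : MvPolynomial ι k) := by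
          refine Finset.sum_congr rfl fun i' _ => ?_
          rw [h2]
      _ = X i := by
          rw [hLM]
          rw [Finset.sum_eq_single i]
          · simp
          · intro b _ hb
            simp [hb]
          · intro h
            exact absurd (Finset.mem_univ i) h
  have hcomp : ψ.comp (aeval (fun i => ljForm (M i))) = AlgHom.id k (MvPolynomial ι k) := by
    apply MvPolynomial.algHom_ext
    intro i
    rw [AlgHom.comp_apply, aeval_X, hψ, AlgHom.id_apply]
  have := congrArg ψ hQ
  rw [map_zero, ← AlgHom.comp_apply, hcomp, AlgHom.id_apply] at this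
  exact this

/-- the scaling map `T j ↦ z T j` -/
private noncomputable def ljTheta : MvPolynomial (Fin 4) k →ₐ[k] Polynomial (MvPolynomial (Fin 4) k) :=
  aeval (fun j => Polynomial.X * Polynomial.C (X j))

/-- evaluation of the polynomial variable at zero -/
private noncomputable def ljEv : Polynomial (MvPolynomial (Fin 4) k) →+* MvPolynomial (Fin 4) k :=
  Polynomial.evalRingHom 0

private theorem lj_prod {ι : Type*} [Fintype ι] {R : Type*} [CommRing R] (q : ι → Polynomial R)
    (d : ι →₀ ℕ) : ∏ i, (Polynomial.X * q i) ^ d i =
      Polynomial.X ^ (∑ i, d i) * ∏ i, q i ^ d i := by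
  simp only [mul_pow]
  rw [Finset.prod_mul_distrib, Finset.prod_pow_eq_pow_sum]

private theorem lj_theta (g : MvPolynomial (Fin 4) k) (h : coeff 0 g = 0) :
    ∃ q : Polynomial (MvPolynomial (Fin 4) k), ljTheta g = Polynomial.X * q ∧
      ljEv q = ljForm (fun j => coeff (Finsupp.single j 1) g) := by
  classical
  have h1 : ljTheta g = ∑ d ∈ g.support, Polynomial.X ^ (∑ i, d i) *
      Polynomial.C (monomial d (coeff d g)) := by
    unfold ljTheta
    rw [aeval_def, eval₂_eq']
    refine Finset.sum_congr rfl fun d _ => ?_
    rw [lj_prod, mul_left_comm]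
    congr 1
    rw [monomial_eq, Finsupp.prod_fintype _ _ (fun i => pow_zero _)]
    simp only [map_mul, map_prod, map_pow]
    rfl
  have hd : ∀ d ∈ g.support, 1 ≤ ∑ i, d i := by
    intro d hd
    by_contra hcon
    have h2 : ∑ i, d i = 0 := by omega
    have h3 : d = 0 := by
      ext i
      rw [Finset.sum_eq_zero_iff] at h2
      exact h2 i (Finset.mem_univ i)
    rw [h3] at hd
    exact (mem_support_iff.1 hd) h
  refine ⟨∑ d ∈ g.support, Polynomial.X ^ (∑ i, d i - 1) *
      Polynomial.C (monomial d (coeff d g)), ?_, ?_⟩
  · rw [h1, Finset.mul_sum]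
    refine Finset.sum_congr rfl fun d hd' => ?_
    rw [← mul_assoc, ← pow_succ']
    congr 2
    have := hd d hd'
    omega
  · have h2 : ljEv (∑ d ∈ g.support, Polynomial.X ^ (∑ i, d i - 1) *
        Polynomial.C (monomial d (coeff d g))) =
        ∑ d ∈ g.support, if ∑ i, d i = 1 then monomial d (coeff d g) else 0 := by
      rw [map_sum]
      refine Finset.sum_congr rfl fun d hd' => ?_
      have h3 := hd d hd'
      unfold ljEv
      rw [Polynomial.coe_evalRingHom, Polynomial.eval_mul, Polynomial.eval_C, Polynomial.eval_pow,
        Polynomial.eval_X]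
      split_ifs with h4
      · rw [h4]
        simp
      · rw [zero_pow (by omega), zero_mul]
    rw [h2]
    apply MvPolynomial.ext
    intro e
    unfold ljForm
    rw [coeff_sum, coeff_sum]
    have h3 : ∀ j : Fin 4, coeff e (C (coeff (Finsupp.single j 1) g) * X j) =
        if Finsupp.single j 1 = e then coeff e g else 0 := by
      intro j
      rw [coeff_C_mul, coeff_X]
      split_ifs with h4
      · rw [← h4, mul_one]
      · rw [mul_zero]
    simp only [h3]
    have h4 : ∑ d ∈ g.support, coeff e (if ∑ i, d i = 1 then monomial d (coeff d g) else 0) =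
        if ∑ i, e i = 1 then coeff e g else 0 := by
      by_cases he : e ∈ g.support
      · rw [Finset.sum_eq_single e]
        · split_ifs with h5
          · rw [coeff_monomial, if_pos rfl]
          · rw [coeff_zero]
        · intro d _ hde
          split_ifs with h5
          · rw [coeff_monomial, if_neg hde]
          · rw [coeff_zero]
        · intro h5
          exact absurd he h5
      · rw [Finset.sum_eq_zero]
        · rw [notMem_support_iff.1 he]
          simp
        · intro d hd'
          split_ifs with h5
          · rw [coeff_monomial, if_neg]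
            intro h6
            exact he (h6 ▸ hd')
          · rw [coeff_zero]
    rw [h4]
    split_ifs with h5
    · -- `e` is a single
      obtain ⟨j, hj⟩ : ∃ j, e j ≠ 0 := by
        by_contra hcon
        push Not at hcon
        rw [Finset.sum_eq_zero (fun i _ => hcon i)] at h5
        omega
      have h6 : e = Finsupp.single j 1 := by
        ext i
        by_cases hij : i = j
        · subst hij
          rw [Finsupp.single_eq_same]
          have : e i ≤ ∑ i, e i := Finset.single_le_sum (f := fun i => e i)
            (fun _ _ => Nat.zero_le _) (Finset.mem_univ i)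
          omega
        · rw [Finsupp.single_apply, if_neg (Ne.symm hij)]
          by_contra h7
          have h8 : ∑ i ∈ ({i, j} : Finset (Fin 4)), e i ≤ ∑ i, e i :=
            Finset.sum_le_sum_of_subset (Finset.subset_univ _)
          rw [Finset.sum_pair hij] at h8
          omega
      rw [Finset.sum_eq_single j]
      · rw [if_pos h6.symm]
      · intro j' _ hj'
        rw [if_neg]
        intro h7
        rw [h6] at h7
        exact hj' ((Finsupp.single_left_inj one_ne_zero).1 h7)
      · intro h7
        exact absurd (Finset.mem_univ j) h7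
    · rw [Finset.sum_eq_zero]
      intro j _
      rw [if_neg]
      intro h6
      apply h5
      rw [← h6]
      simp [Finsupp.single_apply]

theorem algebraicIndependent_of_linear {k : Type*} [Field k] {ι : Type*} [Fintype ι]
    (f : ι → MvPolynomial (Fin 4) k) (h0 : ∀ i, MvPolynomial.coeff 0 (f i) = 0)
    (hl : LinearIndependent k
      (fun i => (fun j : Fin 4 => MvPolynomial.coeff (Finsupp.single j 1) (f i)))) :
    AlgebraicIndependent k f := by
  classical
  rw [algebraicIndependent_iff]
  intro P hP
  by_contra hP0
  have hne : P.support.Nonempty := by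
    rw [Finset.nonempty_iff_ne_empty]
    intro h
    exact hP0 (support_eq_empty.1 h)
  obtain ⟨d0, hd0, hmin⟩ := Finset.exists_min_image P.support (fun d => ∑ i, d i) hne
  choose q hq1 hq2 using fun i => lj_theta (f i) (h0 i)
  set r := ∑ i, d0 i with hr
  -- the expansion
  have h1 : ljTheta (aeval f P) = Polynomial.X ^ r * ∑ d ∈ P.support,
      (algebraMap k (Polynomial (MvPolynomial (Fin 4) k)) (coeff d P)) *
        (Polynomial.X ^ (∑ i, d i - r) * ∏ i, q i ^ d i) := by
    have h2 : ljTheta (aeval f P) = aeval (fun i => ljTheta (f i)) P := by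
      rw [← AlgHom.comp_apply, comp_aeval]
    rw [h2, aeval_def, eval₂_eq', Finset.mul_sum]
    refine Finset.sum_congr rfl fun d hd => ?_
    simp only [hq1]
    have h3 := hmin d hd
    have h4 : (Polynomial.X : Polynomial (MvPolynomial (Fin 4) k)) ^ (∑ i, d i) =
        Polynomial.X ^ r * Polynomial.X ^ (∑ i, d i - r) := by
      rw [← pow_add, Nat.add_sub_cancel' h3]
    rw [lj_prod, h4]
    generalize algebraMap k (Polynomial (MvPolynomial (Fin 4) k)) (coeff d P) = u
    generalize ∏ i, q i ^ d i = v
    generalize (Polynomial.X : Polynomial (MvPolynomial (Fin 4) k)) ^ r = w1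
    generalize (Polynomial.X : Polynomial (MvPolynomial (Fin 4) k)) ^ (∑ i, d i - r) = w2
    ring
  rw [hP, map_zero] at h1
  have h2 : (Polynomial.X : Polynomial (MvPolynomial (Fin 4) k)) ^ r ≠ 0 :=
    pow_ne_zero _ Polynomial.X_ne_zero
  have h3 := (mul_eq_zero.1 h1.symm).resolve_left h2
  have h4 := congrArg ljEv h3
  rw [map_zero, map_sum] at h4
  -- the lowest component
  set Q : MvPolynomial ι k := ∑ d ∈ P.support,
    if ∑ i, d i = r then monomial d (coeff d P) else 0 with hQ
  have h5 : aeval (fun i => ljForm (fun j => coeff (Finsupp.single j 1) (f i))) Q = 0 := by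
    rw [hQ, map_sum, ← h4]
    refine Finset.sum_congr rfl fun d hd => ?_
    have h6 : ljEv (algebraMap k (Polynomial (MvPolynomial (Fin 4) k)) (coeff d P)) =
        C (coeff d P) := by
      unfold ljEv
      rw [Polynomial.coe_evalRingHom]
      have : algebraMap k (Polynomial (MvPolynomial (Fin 4) k)) (coeff d P) =
        Polynomial.C (C (coeff d P)) := rfl
      rw [this, Polynomial.eval_C]
    have h7 : ljEv (Polynomial.X : Polynomial (MvPolynomial (Fin 4) k)) = 0 := by
      unfold ljEv
      rw [Polynomial.coe_evalRingHom, Polynomial.eval_X]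
    rw [map_mul, map_mul, map_pow, map_prod, h6, h7]
    simp only [map_pow, hq2]
    split_ifs with h8
    · rw [h8, Nat.sub_self, pow_zero, one_mul, aeval_monomial,
        Finsupp.prod_fintype _ _ (fun i => pow_zero _)]
      rfl
    · rw [map_zero, zero_pow (by have := hmin d hd; omega), zero_mul, mul_zero]
  have h6 := lj_forms _ hl Q h5
  have h7 : coeff d0 Q = coeff d0 P := by
    rw [hQ, coeff_sum, Finset.sum_eq_single d0]
    · rw [if_pos hr.symm, coeff_monomial, if_pos rfl]
    · intro d _ hde
      split_ifs with h5
      · rw [coeff_monomial, if_neg hde]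
      · rw [coeff_zero]
    · intro h8
      exact absurd hd0 h8
  rw [h6, coeff_zero] at h7
  exact (mem_support_iff.1 hd0) h7.symm

end Prism
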