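import Pool.Agent.Lib.MP_343ccd_co.Defs

/-!
# MP_343ccd_co, module Mat: from the representation of the 4-subsets to the matroid

PROOF.  `K = FractionRing (MvPolynomial (Fin 4) k)`, `σ' = algebraMap ∘ σ`; algebraic independence
is preserved and reflected (`AlgebraicIndependent.map'`, injective algebra map).
`σ'` is injective: given `x ≠ y` take two more elements `z, w` such that `S = {x, y, z, w}` is not in
`H` (`hH`, with `T = {x, y}`); the family over `S` is algebraically independent, hence injective.
Let `N = AlgebraicIndependent.matroid k K` and `M` = the matroid on `E` with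
`M.Indep I ↔ AlgebraicIndependent k (fun x : I => σ' x)` (`Matroid.comap N σ'`: independent iff the
image is independent and `σ'` is injective on `I`; ground set `univ`).  Every base of `M` has exactly
four elements: it has at most `4` (`Algebra.trdeg k K = 4`, or: five polynomials in four variables
are never algebraically independent), and an independent set with fewer elements than the
independent `4`-set `S` above can be enlarged (`Matroid.Indep.augment`).  A set of four elements is a
base iff it is independent, i.e. iff it is not in `H`.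
`exists_good4`: as `E = V × Fin 3` has at least six elements and cross type sets
`{(u,l),(v,l),(u,l'),(v,l')}` containing three given elements are unique, every set `T` of at most
three elements is contained in a four element set which is not a `PrismSet`: e.g. for
`|T| = 3` at most one `x` makes `T ∪ {x}` a `PrismSet`.  (First enlarge `T` to three elements.)
-/

namespace Prism

private theorem encard_le_four {k : Type} [Field k] {E : Type*} [Finite E]
    (σ : E → MvPolynomial (Fin 4) k) (I : Set E)
    (h : AlgebraicIndependent k (fun x : I => σ x)) : I.encard ≤ 4 := by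
  have h1 := h.lift_cardinalMk_le_trdeg
  rw [MvPolynomial.trdeg_of_isDomain] at h1
  have hfin : I.Finite := I.toFinite
  have h2 : Cardinal.mk I = (I.ncard : Cardinal) := by
    rw [← Set.cast_ncard hfin]
  rw [h2] at h1
  simp only [Cardinal.lift_natCast, Cardinal.mk_fin, Cardinal.lift_id] at h1
  have h3 : I.ncard ≤ 4 := by exact_mod_cast h1
  rw [← hfin.cast_ncard_eq]
  exact_mod_cast h3

theorem matroid_of_rep {k : Type} [Field k] {E : Type*} [Finite E] (H : Finset E → Prop)
    (hH : ∀ T : Finset E, T.card ≤ 3 → ∃ S : Finset E, T ⊆ S ∧ S.card = 4 ∧ ¬ H S)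
    (σ : E → MvPolynomial (Fin 4) k)
    (hσ : ∀ S : Finset E, S.card = 4 →
      (AlgebraicIndependent k (fun x : S => σ x) ↔ ¬ H S)) :
    ∃ M : Matroid E, IsPaving4 H M ∧ AlgebraicOver M k := by
  classical
  set K := FractionRing (MvPolynomial (Fin 4) k) with hK
  set φ : MvPolynomial (Fin 4) k →ₐ[k] K := IsScalarTower.toAlgHom k (MvPolynomial (Fin 4) k) K
    with hφ
  have hφinj : Function.Injective φ := IsFractionRing.injective (MvPolynomial (Fin 4) k) K
  set σ' : E → K := fun e => φ (σ e) with hσ'
  have hσinj : Function.Injective σ' := by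
    intro x y hxy
    by_contra hne
    obtain ⟨S, hTS, hS4, hSH⟩ := hH {x, y} (by
      rw [Finset.card_pair hne]
      decide)
    have h1 := ((hσ S hS4).2 hSH).injective
    have hx : x ∈ S := hTS (by simp)
    have hy : y ∈ S := hTS (by simp)
    have h2 : (⟨x, hx⟩ : S) = ⟨y, hy⟩ := h1 (hφinj hxy)
    exact hne (congrArg Subtype.val h2)
  have hiff : ∀ I : Set E, AlgebraicIndependent k (fun x : I => σ' x) ↔
      AlgebraicIndependent k (fun x : I => σ x) := fun I =>
    AlgHom.algebraicIndependent_iff φ hφinj
  set N := AlgebraicIndependent.matroid k K with hN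
  set M := N.comap σ' with hM
  have hInd : ∀ I : Set E, M.Indep I ↔ AlgebraicIndependent k (fun x : I => σ' x) := by
    intro I
    rw [hM, Matroid.comap_indep_iff]
    have hinjI : Function.Injective (fun x : I => σ' x) := fun a b hab =>
      Subtype.ext (hσinj hab)
    have hr : Set.range (fun x : I => σ' x) = σ' '' I := (Set.image_eq_range σ' I).symm
    constructor
    · rintro ⟨h1, -⟩
      refine AlgebraicIndependent.of_subtype_range hinjI ?_
      rw [hr]
      exact AlgebraicIndependent.matroid_indep_iff.1 h1
    · intro h1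
      refine ⟨?_, hσinj.injOn⟩
      have h2 := h1.to_subtype_range
      rw [hr] at h2
      exact AlgebraicIndependent.matroid_indep_iff.2 h2
  have hcard : ∀ I : Set E, M.Indep I → I.encard ≤ 4 := fun I hI =>
    encard_le_four σ I ((hiff I).1 ((hInd I).1 hI))
  have hset : ∀ S : Finset E, S.card = 4 → (M.Indep (S : Set E) ↔ ¬ H S) := by
    intro S hS
    rw [hInd, hiff]
    exact hσ S hS
  have hbase_of : ∀ B : Set E, M.Indep B → B.encard = 4 → M.IsBase B := by
    intro B hB hB4
    obtain ⟨B1, hB1, hsub⟩ := hB.exists_isBase_superset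
    have h1 := hcard B1 hB1.indep
    have h2 : B = B1 := by
      refine Set.Finite.eq_of_subset_of_encard_le (Set.toFinite B) hsub ?_
      rw [hB4]
      exact h1
    rw [h2]
    exact hB1
  obtain ⟨S0, -, hS04, hS0H⟩ := hH ∅ (by simp)
  have hS0 : M.IsBase (S0 : Set E) := by
    refine hbase_of _ ((hset S0 hS04).2 hS0H) ?_
    rw [Set.encard_coe_eq_coe_finsetCard, hS04]
    rfl
  refine ⟨M, ⟨?_, ?_⟩, ⟨K, inferInstance, inferInstance, σ', hσinj, fun I _ => hInd I⟩⟩
  · rw [hM, Matroid.comap_ground_eq]
    simp [hN]
  · intro B
    constructor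
    · intro hB
      have h1 : B.encard = 4 := by
        rw [hB.encard_eq_encard_of_isBase hS0, Set.encard_coe_eq_coe_finsetCard, hS04]
        rfl
      have hfin : B.Finite := B.toFinite
      refine ⟨hfin.toFinset, hfin.coe_toFinset.symm, ?_, ?_⟩
      · rw [hfin.encard_eq_coe_toFinset_card] at h1
        exact_mod_cast h1
      · rw [← hset hfin.toFinset (by
          rw [hfin.encard_eq_coe_toFinset_card] at h1
          exact_mod_cast h1), hfin.coe_toFinset]
        exact hB.indep
    · rintro ⟨S, rfl, hS4, hSH⟩
      refine hbase_of _ ((hset S hS4).2 hSH) ?_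
      rw [Set.encard_coe_eq_coe_finsetCard, hS4]
      rfl

private theorem prod_unique {α β : Type*} [DecidableEq α] [DecidableEq β] (A : Finset α)
    (B : Finset β) (hA : A.card = 2) (hB : B.card = 2) (T : Finset (α × β)) (hT : T ⊆ A ×ˢ B)
    (h3 : T.card = 3) : A ×ˢ B = T.image Prod.fst ×ˢ T.image Prod.snd := by
  have h1 : T.image Prod.fst = A := by
    apply Finset.Subset.antisymm
    · intro a ha
      obtain ⟨x, hx, rfl⟩ := Finset.mem_image.1 ha
      exact (Finset.mem_product.1 (hT hx)).1
    · intro a ha
      by_contra hna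
      have hsub : T ⊆ (A.erase a) ×ˢ B := by
        intro x hx
        have h4 := Finset.mem_product.1 (hT hx)
        refine Finset.mem_product.2 ⟨Finset.mem_erase.2 ⟨?_, h4.1⟩, h4.2⟩
        rintro rfl
        exact hna (Finset.mem_image_of_mem Prod.fst hx)
      have h5 := Finset.card_le_card hsub
      rw [Finset.card_product, Finset.card_erase_of_mem ha, hA, hB, h3] at h5
      omega
  have h2 : T.image Prod.snd = B := by
    apply Finset.Subset.antisymm
    · intro b hb
      obtain ⟨x, hx, rfl⟩ := Finset.mem_image.1 hb
      exact (Finset.mem_product.1 (hT hx)).2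
    · intro b hb
      by_contra hnb
      have hsub : T ⊆ A ×ˢ (B.erase b) := by
        intro x hx
        have h4 := Finset.mem_product.1 (hT hx)
        refine Finset.mem_product.2 ⟨h4.1, Finset.mem_erase.2 ⟨?_, h4.2⟩⟩
        rintro rfl
        exact hnb (Finset.mem_image_of_mem Prod.snd hx)
      have h5 := Finset.card_le_card hsub
      rw [Finset.card_product, Finset.card_erase_of_mem hb, hA, hB, h3] at h5
      omega
  rw [h1, h2]

private theorem prism_prod {V : Type*} [DecidableEq V] (G : SimpleGraph V)
    (S : Finset (V × Fin 3)) (hS : PrismSet G S) :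
    ∃ (A : Finset V) (B : Finset (Fin 3)), A.card = 2 ∧ B.card = 2 ∧ S = A ×ˢ B := by
  obtain ⟨u, v, huv, l, l', hll, rfl⟩ := hS
  refine ⟨{u, v}, {l, l'}, Finset.card_pair huv.ne, Finset.card_pair hll, ?_⟩
  ext ⟨a, b⟩
  simp only [Finset.mem_insert, Finset.mem_singleton, Prod.mk.injEq, Finset.mem_product]
  tauto

theorem exists_good4 {V : Type*} [Fintype V] [DecidableEq V] (G : SimpleGraph V)
    (hV : 2 ≤ Fintype.card V) (T : Finset (V × Fin 3)) (hT : T.card ≤ 3) :
    ∃ S : Finset (V × Fin 3), T ⊆ S ∧ S.card = 4 ∧ ¬ PrismSet G S := by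
  have hcard : Fintype.card (V × Fin 3) = Fintype.card V * 3 := by
    rw [Fintype.card_prod, Fintype.card_fin]
  obtain ⟨T', hTT', hT'⟩ := Finset.exists_superset_card_eq hT (by rw [hcard]; omega)
  have hc : 1 < (T'ᶜ).card := by
    rw [Finset.card_compl, hcard, hT']
    omega
  obtain ⟨x, hx, y, hy, hxy⟩ := Finset.one_lt_card.1 hc
  rw [Finset.mem_compl] at hx hy
  by_cases h1 : PrismSet G (insert x T')
  · by_cases h2 : PrismSet G (insert y T')
    · exfalso
      obtain ⟨A, B, hA, hB, hAB⟩ := prism_prod G _ h1
      obtain ⟨A', B', hA', hB', hAB'⟩ := prism_prod G _ h2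
      have e1 := prod_unique A B hA hB T' (by rw [← hAB]; exact Finset.subset_insert _ _) hT'
      have e2 := prod_unique A' B' hA' hB' T' (by rw [← hAB']; exact Finset.subset_insert _ _) hT'
      have e3 : insert x T' = insert y T' := by rw [hAB, hAB', e1, e2]
      have e4 : x ∈ insert y T' := by rw [← e3]; exact Finset.mem_insert_self _ _
      rcases Finset.mem_insert.1 e4 with h | h
      · exact hxy h
      · exact hx h
    · refine ⟨insert y T', hTT'.trans (Finset.subset_insert _ _), ?_, h2⟩
      rw [Finset.card_insert_of_notMem hy, hT']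
  · refine ⟨insert x T', hTT'.trans (Finset.subset_insert _ _), ?_, h1⟩
    rw [Finset.card_insert_of_notMem hx, hT']

end Prism
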