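import Pool.Agent.Lib.MP_343ccd_co.Rep
import Pool.Agent.Lib.MP_343ccd_co.Mat

/-!
# MP_343ccd_co, module Main

PROOF of `main_relaxed`.  Let `c` be the proper `2`-colouring, `side v = true` iff `c v = 1`.
`X = {(u,l),(v,l),(u,l'),(v,l')}` with `G.Adj u v`, `l ≠ l'`; name `u0` the left and `w0` the right
one of `u, v` and `i0` the third letter: `X = crossSet u0 w0 i0`.  `rep` with `Adj = G.Adj`; a
`4`-set `S` is a `PrismSet` iff `S = crossSet u v i` for a left `u`, a right `v` with `G.Adj u v`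
(edges join left to right), and `crossSet u v i` determines `u, v, i`.  `exists_good4`,
`matroid_of_rep` with `H S = PrismSet G S ∧ S ≠ X`.
PROOF of `main_full`.  Apply `rep` to `V' = V ⊕ Bool` with `side (inr b) = b` and
`Adj (inl u) (inl v) = G.Adj u v`, `Adj (inr false) (inr true)`, nothing else,
`u0 = inr false`, `w0 = inr true`, `i0 = 0`, and compose with `inl` (a `4`-subset of `V × Fin 3` is
mapped to a `4`-subset of `V' × Fin 3` which is different from `crossSet u0 w0 i0`).
-/

namespace Prism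

private theorem fin3_third : ∀ l l' : Fin 3, l ≠ l' →
    ∃ i : Fin 3, (l = i + 1 ∧ l' = i + 2) ∨ (l = i + 2 ∧ l' = i + 1) := by decide

private theorem fin3_inj : ∀ i i' : Fin 3, (i + 1 = i' + 1 ∨ i + 1 = i' + 2) →
    (i + 2 = i' + 1 ∨ i + 2 = i' + 2) → i = i' := by decide

private theorem mem_cross {V : Type*} [DecidableEq V] (u v : V) (i : Fin 3) (x : V × Fin 3) :
    x ∈ crossSet u v i ↔ (x = (u, i + 1) ∨ x = (u, i + 2) ∨ x = (v, i + 1) ∨ x = (v, i + 2)) := by
  simp only [crossSet, Finset.mem_insert, Finset.mem_singleton]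

private theorem cross_inj {V : Type*} [DecidableEq V] (side : V → Bool) (u v u' v' : V)
    (i i' : Fin 3) (hu : side u = false) (hv : side v = true) (hu' : side u' = false)
    (hv' : side v' = true) (h : crossSet u v i = crossSet u' v' i') :
    u = u' ∧ v = v' ∧ i = i' := by
  have huv' : u ≠ v' := by
    rintro rfl
    rw [hu] at hv'
    exact absurd hv' (by decide)
  have hvu' : v ≠ u' := by
    rintro rfl
    rw [hv] at hu'
    exact absurd hu' (by decide)
  have a1 : (u, i + 1) ∈ crossSet u' v' i' := by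
    rw [← h, mem_cross]
    exact Or.inl rfl
  have a2 : (u, i + 2) ∈ crossSet u' v' i' := by
    rw [← h, mem_cross]
    exact Or.inr (Or.inl rfl)
  have a3 : (v, i + 1) ∈ crossSet u' v' i' := by
    rw [← h, mem_cross]
    exact Or.inr (Or.inr (Or.inl rfl))
  rw [mem_cross] at a1 a2 a3
  simp only [Prod.mk.injEq] at a1 a2 a3
  have e1 : u = u' := by tauto
  have e2 : v = v' := by tauto
  refine ⟨e1, e2, fin3_inj i i' ?_ ?_⟩
  · tauto
  · tauto

private theorem prism_iff {V : Type*} [DecidableEq V] (G : SimpleGraph V) (side : V → Bool)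
    (hside : ∀ u v, G.Adj u v → side u ≠ side v) (S : Finset (V × Fin 3)) :
    PrismSet G S ↔ ∃ u v i, side u = false ∧ side v = true ∧ G.Adj u v ∧ S = crossSet u v i := by
  constructor
  · rintro ⟨u, v, huv, l, l', hll, rfl⟩
    obtain ⟨i, hi⟩ := fin3_third l l' hll
    have hs := hside u v huv
    rcases hu : side u with _ | _
    · have hv : side v = true := by
        rcases hv : side v with _ | _
        · rw [hu, hv] at hs
          exact absurd rfl hs
        · rfl
      refine ⟨u, v, i, hu, hv, huv, ?_⟩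
      ext x
      rw [mem_cross]
      simp only [Finset.mem_insert, Finset.mem_singleton]
      rcases hi with ⟨rfl, rfl⟩ | ⟨rfl, rfl⟩ <;> tauto
    · have hv : side v = false := by
        rcases hv : side v with _ | _
        · rfl
        · rw [hu, hv] at hs
          exact absurd rfl hs
      refine ⟨v, u, i, hv, hu, huv.symm, ?_⟩
      ext x
      rw [mem_cross]
      simp only [Finset.mem_insert, Finset.mem_singleton]
      rcases hi with ⟨rfl, rfl⟩ | ⟨rfl, rfl⟩ <;> tauto
  · rintro ⟨u, v, i, hu, hv, huv, rfl⟩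
    refine ⟨u, v, huv, i + 1, i + 2, ?_, ?_⟩
    · intro h
      have : (1 : Fin 3) = 2 := add_left_cancel h
      exact absurd this (by decide)
    · ext x
      rw [mem_cross]
      simp only [Finset.mem_insert, Finset.mem_singleton]
      tauto

private theorem exists_side {V : Type*} (G : SimpleGraph V) (hG : G.Colorable 2) :
    ∃ side : V → Bool, ∀ u v, G.Adj u v → side u ≠ side v := by
  obtain ⟨c⟩ := hG
  refine ⟨fun v => decide (c v = 1), fun u v huv h => ?_⟩
  have hne := c.valid huv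
  apply hne
  simp only [decide_eq_decide] at h
  have h0 : ∀ a b : Fin 2, (a = 1 ↔ b = 1) → a = b := by decide
  exact h0 _ _ h

theorem main_relaxed (p : ℕ) [Fact p.Prime] (hp2 : p ≠ 2) {V : Type*} [Fintype V]
    [DecidableEq V] (G : SimpleGraph V) (hG : G.Colorable 2) (X : Finset (V × Fin 3))
    (hX : PrismSet G X) :
    ∃ M : Matroid (V × Fin 3), IsPaving4 (fun S => PrismSet G S ∧ S ≠ X) M ∧
      AlgebraicOver M (AlgebraicClosure (ZMod p)) := by
  obtain ⟨side, hside⟩ := exists_side G hG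
  have hV : 2 ≤ Fintype.card V := by
    obtain ⟨u, v, huv, -⟩ := hX
    exact Fintype.one_lt_card_iff.2 ⟨u, v, huv.ne⟩
  obtain ⟨u0, w0, i0, hu0, hw0, hadj, hXe⟩ := (prism_iff G side hside X).1 hX
  obtain ⟨σ, hσ⟩ := rep p hp2 side G.Adj u0 w0 hu0 hw0 hadj i0
  refine matroid_of_rep (fun S => PrismSet G S ∧ S ≠ X) ?_ σ ?_
  · intro T hT
    obtain ⟨S, h1, h2, h3⟩ := exists_good4 G hV T hT
    exact ⟨S, h1, h2, fun h => h3 h.1⟩
  · intro S hS
    rw [hσ S hS, not_iff_not]
    constructor
    · rintro ⟨u, v, i, hu, hv, huv, hSe, hne⟩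
      refine ⟨(prism_iff G side hside S).2 ⟨u, v, i, hu, hv, huv, hSe⟩, ?_⟩
      intro hSX
      apply hne
      rw [hSe, hXe] at hSX
      exact cross_inj side u v u0 w0 i i0 hu hv hu0 hw0 hSX
    · rintro ⟨h1, h2⟩
      obtain ⟨u, v, i, hu, hv, huv, hSe⟩ := (prism_iff G side hside S).1 h1
      refine ⟨u, v, i, hu, hv, huv, hSe, ?_⟩
      rintro ⟨rfl, rfl, rfl⟩
      exact h2 (hSe.trans hXe.symm)

theorem main_full (p : ℕ) [Fact p.Prime] (hp2 : p ≠ 2) {V : Type*} [Fintype V]
    [DecidableEq V] (hV : 2 ≤ Fintype.card V) (G : SimpleGraph V) (hG : G.Colorable 2) :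
    ∃ M : Matroid (V × Fin 3), IsPaving4 (PrismSet G) M ∧
      AlgebraicOver M (AlgebraicClosure (ZMod p)) := by
  obtain ⟨side, hside⟩ := exists_side G hG
  set side' : V ⊕ Bool → Bool := Sum.elim side id with hside'
  set Adj' : V ⊕ Bool → V ⊕ Bool → Prop := fun x y => (∃ u v, x = Sum.inl u ∧ y = Sum.inl v ∧
    G.Adj u v) ∨ (x = Sum.inr false ∧ y = Sum.inr true) with hAdj'
  obtain ⟨σ, hσ⟩ := rep p hp2 side' Adj' (Sum.inr false) (Sum.inr true) rfl rfl
    (Or.inr ⟨rfl, rfl⟩) 0
  set f : V × Fin 3 ↪ (V ⊕ Bool) × Fin 3 := ⟨fun x => (Sum.inl x.1, x.2), by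
    intro x y hxy
    simp only [Prod.mk.injEq, Sum.inl.injEq] at hxy
    exact Prod.ext hxy.1 hxy.2⟩ with hf
  refine matroid_of_rep (PrismSet G) (exists_good4 G hV) (fun x => σ (f x)) ?_
  intro S hS
  have hequiv : AlgebraicIndependent (AlgebraicClosure (ZMod p)) (fun x : S => σ (f x)) ↔
      AlgebraicIndependent (AlgebraicClosure (ZMod p)) (fun x : (S.map f) => σ x) := by
    have hbij : Function.Bijective
        (fun x : S => (⟨f x, Finset.mem_map_of_mem f x.2⟩ : (S.map f))) := by
      constructor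
      · intro a b hab
        exact Subtype.ext (f.injective (congrArg Subtype.val hab))
      · rintro ⟨y, hy⟩
        obtain ⟨x, hx, hxy⟩ := Finset.mem_map.1 hy
        exact ⟨⟨x, hx⟩, Subtype.ext hxy⟩
    exact algebraicIndependent_equiv' (Equiv.ofBijective _ hbij) rfl
  rw [hequiv, hσ (S.map f) (by rw [Finset.card_map, hS]), not_iff_not, prism_iff G side hside S]
  have hmapcross : ∀ (u v : V) (i : Fin 3),
      (crossSet u v i).map f = crossSet (Sum.inl u) (Sum.inl v) i := by
    intro u v i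
    simp only [crossSet, Finset.map_insert, Finset.map_singleton, hf, Function.Embedding.coeFn_mk]
  constructor
  · rintro ⟨x, y, i, hx, hy, hxy, hSe, -⟩
    rcases hxy with ⟨u, v, rfl, rfl, huv⟩ | ⟨rfl, rfl⟩
    · refine ⟨u, v, i, hx, hy, huv, ?_⟩
      apply Finset.map_injective f
      rw [hSe, hmapcross]
    · exfalso
      have h1 : ((Sum.inr false, i + 1) : (V ⊕ Bool) × Fin 3) ∈ S.map f := by
        rw [hSe, mem_cross]
        exact Or.inl rfl
      obtain ⟨z, -, hz⟩ := Finset.mem_map.1 h1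
      simp [hf] at hz
  · rintro ⟨u, v, i, hu, hv, huv, rfl⟩
    refine ⟨Sum.inl u, Sum.inl v, i, hu, hv, Or.inl ⟨u, v, rfl, rfl, huv⟩, hmapcross u v i, ?_⟩
    rintro ⟨h, -⟩
    exact absurd h (by simp)

end Prism
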