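import Mathlib

/-!
# MP_343ccd_co: the matroids of the problem
-/

namespace Prism

/-- the family `H_G`: for each edge `uv` and each pair of letters `l ≠ l'` the set
`{(u,l), (v,l), (u,l'), (v,l')}` -/
def PrismSet {V : Type*} [DecidableEq V] (G : SimpleGraph V) (S : Finset (V × Fin 3)) : Prop :=
  ∃ u v, G.Adj u v ∧ ∃ l l' : Fin 3, l ≠ l' ∧ S = {(u, l), (v, l), (u, l'), (v, l')}

/-- `M` is the rank `4` paving matroid on all of `E` whose bases are the `4`-subsets of `E` which
do not belong to the family `H` -/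
def IsPaving4 {E : Type*} (H : Finset E → Prop) (M : Matroid E) : Prop :=
  M.E = Set.univ ∧ ∀ B : Set E, M.IsBase B ↔ ∃ S : Finset E, B = ↑S ∧ S.card = 4 ∧ ¬ H S

/-- `M` is algebraic over (some extension field of) the field `k` -/
def AlgebraicOver {E : Type*} (M : Matroid E) (k : Type) [Field k] : Prop :=
  ∃ (K : Type) (_ : Field K) (_ : Algebra k K) (σ : E → K), Function.Injective σ ∧
    ∀ I : Set E, I ⊆ M.E → (M.Indep I ↔ AlgebraicIndependent k (fun x : I => σ x))

end Prism
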