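import Pool.Agent.Lib.MP_343ccd_co.Sixteen
import Pool.Agent.Lib.MP_343ccd_co.CharZero
import Pool.Agent.Lib.MP_343ccd_co.Stmt

/-!
# MP_343ccd_co, characteristic zero: no linear representation along an odd closed walk of triples
-/

namespace Prism

open Module Submodule

section

variable {F W V : Type*} [Field F] [AddCommGroup W] [Module F W] [DecidableEq V]

/-- the line of the letters `l, l'` at the vertex `v` -/
private def Ln (φ : V × Fin 3 → W) (l l' : Fin 3) (v : V) : Submodule F W :=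
  span F {φ (v, l), φ (v, l')}

private theorem range_two {α : Type*} (x y : α) : Set.range ![x, y] = {x, y} := by
  rw [Matrix.range_cons, Matrix.range_cons, Matrix.range_empty, Set.union_empty,
    Set.singleton_union]

omit [DecidableEq V] in
private theorem card_four {u v : V} (huv : u ≠ v) {l l' : Fin 3} (hl : l ≠ l') :
    Function.Injective ![(u, l), (u, l'), (v, l), (v, l')] := by
  intro i j
  fin_cases i <;> fin_cases j <;> simp [huv, hl, huv.symm, hl.symm]

private theorem indep_iff (φ : V × Fin 3 → W) {u v : V} (huv : u ≠ v) {l l' : Fin 3}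
    (hl : l ≠ l') :
    LinearIndepOn F φ (↑({(u, l), (v, l), (u, l'), (v, l')} : Finset (V × Fin 3)) : Set _) ↔
      LinearIndependent F ![φ (u, l), φ (u, l'), φ (v, l), φ (v, l')] := by
  have h1 : (↑({(u, l), (v, l), (u, l'), (v, l')} : Finset (V × Fin 3)) : Set (V × Fin 3)) =
      Set.range ![(u, l), (u, l'), (v, l), (v, l')] := by
    ext x
    simp only [Finset.coe_insert, Finset.coe_singleton, Set.mem_insert_iff,
      Set.mem_singleton_iff, Matrix.range_cons, Matrix.range_empty, Set.union_empty,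
      Set.mem_union]
    tauto
  rw [h1, linearIndepOn_range_iff (card_four huv hl)]
  have h2 : φ ∘ ![(u, l), (u, l'), (v, l), (v, l')] =
      ![φ (u, l), φ (u, l'), φ (v, l), φ (v, l')] := by
    ext i
    fin_cases i <;> rfl
  rw [h2]

private theorem skew_of_indep (φ : V × Fin 3 → W) {u v : V} {l l' : Fin 3}
    (h : LinearIndependent F ![φ (u, l), φ (u, l'), φ (v, l), φ (v, l')]) :
    Ln (F := F) φ l l' u ⊓ Ln φ l l' v = ⊥ ∧ finrank F (Ln (F := F) φ l l' u) = 2 := by
  have key : ∀ a b c d : F, a • φ (u, l) + b • φ (u, l') + (c • φ (v, l) + d • φ (v, l')) = 0 →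
      a = 0 ∧ b = 0 ∧ c = 0 ∧ d = 0 := by
    intro a b c d he
    rw [Fintype.linearIndependent_iff] at h
    have := h ![a, b, c, d] (by
      rw [Fin.sum_univ_four]
      simp only [Matrix.cons_val]
      rw [← he]
      abel)
    exact ⟨this 0, this 1, this 2, this 3⟩
  constructor
  · rw [eq_bot_iff]
    rintro x ⟨hx1, hx2⟩
    rw [SetLike.mem_coe] at hx1 hx2
    obtain ⟨a, b, hab⟩ := mem_span_pair.mp hx1
    obtain ⟨c, d, hcd⟩ := mem_span_pair.mp hx2
    have := key a b (-c) (-d) (by rw [neg_smul, neg_smul, ← neg_add, hab, hcd, add_neg_cancel])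
    rw [Submodule.mem_bot, ← hab, this.1, this.2.1]
    simp
  · have h2 : LinearIndependent F ![φ (u, l), φ (u, l')] := by
      rw [LinearIndependent.pair_iff]
      intro a b hab
      have := key a b 0 0 (by rw [hab]; simp)
      exact ⟨this.1, this.2.1⟩
    have h3 := finrank_span_eq_card h2
    rw [range_two] at h3
    exact h3

private theorem meet_of_dep (φ : V × Fin 3 → W) {u v : V} {l l' : Fin 3}
    (hu : finrank F (Ln (F := F) φ l l' u) = 2) (hv : finrank F (Ln (F := F) φ l l' v) = 2)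
    (h : ¬ LinearIndependent F ![φ (u, l), φ (u, l'), φ (v, l), φ (v, l')]) :
    Ln (F := F) φ l l' u ⊓ Ln φ l l' v ≠ ⊥ := by
  have pair : ∀ w : V, finrank F (Ln (F := F) φ l l' w) = 2 → ∀ a b : F,
      a • φ (w, l) + b • φ (w, l') = 0 → a = 0 ∧ b = 0 := by
    intro w hw
    have h2 : LinearIndependent F ![φ (w, l), φ (w, l')] := by
      rw [linearIndependent_iff_card_eq_finrank_span, Set.finrank, range_two]
      exact hw.symm
    exact LinearIndependent.pair_iff.mp h2
  intro hbot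
  apply h
  rw [Fintype.linearIndependent_iff]
  intro g hg
  rw [Fin.sum_univ_four] at hg
  simp only [Matrix.cons_val] at hg
  have h1 : g 0 • φ (u, l) + g 1 • φ (u, l') ∈ Ln (F := F) φ l l' u ⊓ Ln φ l l' v := by
    refine ⟨mem_span_pair.mpr ⟨g 0, g 1, rfl⟩, mem_span_pair.mpr ⟨-g 2, -g 3, ?_⟩⟩
    rw [neg_smul, neg_smul, ← neg_add, eq_comm, eq_neg_iff_add_eq_zero, ← hg]
    abel
  rw [hbot, Submodule.mem_bot] at h1
  have h2 := pair u hu _ _ h1
  have h3 := pair v hv (g 2) (g 3) (by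
    rw [← hg, h2.1, h2.2]
    simp)
  intro i
  fin_cases i
  · exact h2.1
  · exact h2.2
  · exact h3.1
  · exact h3.2

/-- Sixteen point obstruction: `u i` is adjacent to `w j` for all `(i, j) ≠ (0, 0)`, `G` is
triangle-free, `l, l'` are letters such that the sets of the pairs `(u i, w j)`, `(i, j) ≠ (0, 0)`,
are dependent, the set of `(u 0, w 0)` and the sets of the pairs `(u i, u j)`, `(w i, w j)` are
independent.  Then there is no linear representation. -/
theorem no_rep (G : SimpleGraph V) (X : Finset (V × Fin 3)) (l l' : Fin 3) (hl : l ≠ l')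
    (φ : V × Fin 3 → W)
    (hφ : ∀ S : Finset (V × Fin 3), S.card = 4 →
      (LinearIndepOn F φ (↑S : Set (V × Fin 3)) ↔ ¬ (PrismSet G S ∧ S ≠ X)))
    (u w : Fin 4 → V)
    (hadj : ∀ i j, (i, j) ≠ (0, 0) → G.Adj (u i) (w j))
    (hX : ∀ i j, (i, j) ≠ (0, 0) →
      ({(u i, l), (w j, l), (u i, l'), (w j, l')} : Finset (V × Fin 3)) ≠ X)
    (hu : ∀ i j, i ≠ j → u i ≠ u j ∧
      ¬ PrismSet G ({(u i, l), (u j, l), (u i, l'), (u j, l')} : Finset (V × Fin 3)))
    (hw : ∀ i j, i ≠ j → w i ≠ w j ∧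
      ¬ PrismSet G ({(w i, l), (w j, l), (w i, l'), (w j, l')} : Finset (V × Fin 3)))
    (h0 : u 0 ≠ w 0 ∧
      ¬ (PrismSet G ({(u 0, l), (w 0, l), (u 0, l'), (w 0, l')} : Finset (V × Fin 3)) ∧
        ({(u 0, l), (w 0, l), (u 0, l'), (w 0, l')} : Finset (V × Fin 3)) ≠ X)) : False := by
  have hcard : ∀ a b : V, a ≠ b →
      ({(a, l), (b, l), (a, l'), (b, l')} : Finset (V × Fin 3)).card = 4 := by
    intro a b hab
    rw [Finset.card_insert_of_notMem, Finset.card_insert_of_notMem,
      Finset.card_insert_of_notMem, Finset.card_singleton] <;>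
    simp [hab, hl, hab.symm]
  have hskew : ∀ a b, a ≠ b →
      ¬ (PrismSet G ({(a, l), (b, l), (a, l'), (b, l')} : Finset (V × Fin 3)) ∧
        ({(a, l), (b, l), (a, l'), (b, l')} : Finset (V × Fin 3)) ≠ X) →
      Ln (F := F) φ l l' a ⊓ Ln φ l l' b = ⊥ ∧ finrank F (Ln (F := F) φ l l' a) = 2 := by
    intro a b hab hna
    apply skew_of_indep
    rw [← indep_iff φ hab hl, hφ _ (hcard a b hab)]
    exact hna
  have hru : ∀ i, finrank F (Ln (F := F) φ l l' (u i)) = 2 := by
    intro i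
    obtain ⟨j, hj⟩ : ∃ j : Fin 4, i ≠ j := ⟨i + 1, by fin_cases i <;> decide⟩
    exact (hskew _ _ (hu i j hj).1 (fun h => (hu i j hj).2 h.1)).2
  have hrw : ∀ i, finrank F (Ln (F := F) φ l l' (w i)) = 2 := by
    intro i
    obtain ⟨j, hj⟩ : ∃ j : Fin 4, i ≠ j := ⟨i + 1, by fin_cases i <;> decide⟩
    exact (hskew _ _ (hw i j hj).1 (fun h => (hw i j hj).2 h.1)).2
  have hmeet : ∀ i j, (i, j) ≠ (0, 0) →
      Ln (F := F) φ l l' (u i) ⊓ Ln φ l l' (w j) ≠ ⊥ := by
    intro i j hij
    have ha := hadj i j hij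
    apply meet_of_dep φ (hru i) (hrw j)
    rw [← indep_iff φ ha.ne hl, hφ _ (hcard _ _ ha.ne), not_not]
    exact ⟨⟨_, _, ha, l, l', hl, rfl⟩, hX i j hij⟩
  have hs : ∀ i : Fin 3, i.succ ≠ 0 := fun i => Fin.succ_ne_zero i
  refine sixteen (fun i : Fin 3 => Ln (F := F) φ l l' (w i.succ))
    (fun i : Fin 3 => Ln φ l l' (u i.succ)) (Ln φ l l' (u 0)) (Ln φ l l' (w 0))
    (fun i => hrw _) (fun i => hru _) (hru 0) (hrw 0) (fun i j hij => ?_) (fun i j hij => ?_)
    (fun i j => hmeet _ _ ?_) (fun i => hmeet _ _ ?_) (fun i => ?_)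
    (hskew _ _ h0.1 h0.2).1
  · have := hw i.succ j.succ (fun h => hij (Fin.succ_injective _ h))
    exact (hskew _ _ this.1 (fun h => this.2 h.1)).1
  · have := hu i.succ j.succ (fun h => hij (Fin.succ_injective _ h))
    exact (hskew _ _ this.1 (fun h => this.2 h.1)).1
  · simp
  · simp
  · rw [inf_comm]
    exact hmeet _ _ (by simp)

end

/-- the four element sets of a rank 4 paving matroid -/
theorem IsPaving4.indep_iff' {E : Type*} {H : Finset E → Prop} {M : Matroid E}
    (hM : IsPaving4 H M) {S : Finset E} (hS : S.card = 4) :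
    M.Indep (↑S : Set E) ↔ ¬ H S := by
  constructor
  · intro h
    obtain ⟨B, hB, hSB⟩ := h.exists_isBase_superset
    obtain ⟨T, hT, hT4, hTH⟩ := (hM.2 B).mp hB
    subst hT
    have : S = T := Finset.eq_of_subset_of_card_le (Finset.coe_subset.mp hSB) (by omega)
    rwa [this]
  · intro h
    exact ((hM.2 ↑S).mpr ⟨S, rfl, hS, h⟩).indep

end Prism
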