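import Pool.Agent.Lib.MP_343ccd_co.Sel

/-!
# MP_343ccd_co, module SelM: the configuration

PROOF.  `b = i0 + 1`, `a0 = i0 + 2`.  `sel_right` gives `s, q`.  `exists_common` for the finite set
of all `s i` and all `q v` (`v` right) gives `N`.  `sel_left` gives `q', ell`.  For a right vertex
`v` let `n v = ∏ u ∈ (left u with Adj u v), ell u` times `2` if `v ≠ w0` and `Adj u0 v`;
`n v ≥ 1`; put `m v = N * n v` for right `v` and `m v = N` for left `v`; `p ^ m v = (p ^ N) ^ n v`.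
Elements fixed by `x ↦ x ^ (p ^ N)` are fixed by all `x ↦ x ^ (p ^ m v)`.
Adjacent `(u, v) ≠ (u0, w0)`: if `u ≠ u0` then `ell u ∣ n v` and `t ^ ((p ^ N) ^ ell u) = t` gives
`t ^ ((p ^ N) ^ n v) = t` (iterate); if `u = u0`, `v ≠ w0`: `n v = ell u0 * even`, `even_pow`.
`(u0, w0)`: `n w0 = ell u0 * odd`, `odd_pow`.
Not adjacent: `ell u` does not divide `n v` (distinct primes, `ell u ≠ 2`); `u ≠ u0`: `nonfix1`
(with `n v` and with `2 * n w0` for the last statement, `(p ^ m w0) ^ 2 = (p ^ N) ^ (2 * n w0)`);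
`u = u0`: `v ≠ w0` and `n v` is odd (no factor `2` since `¬ Adj u0 v`): `nonfix2` (`c = s i`).
-/

namespace Prism

private theorem fix_iter {k : Type*} [Field k] (Q : ℕ) (x : k) (a : ℕ) (hx : x ^ (Q ^ a) = x)
    (n : ℕ) (hn : a ∣ n) : x ^ (Q ^ n) = x := by
  obtain ⟨j, rfl⟩ := hn
  induction j with
  | zero => simp
  | succ j ih => rw [mul_add, mul_one, pow_add, pow_mul, ih, hx]

theorem exists_config (p : ℕ) [Fact p.Prime] {V : Type*} [Fintype V] [DecidableEq V]
    (side : V → Bool) (Adj : V → V → Prop) (u0 w0 : V) (hu0 : side u0 = false)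
    (hw0 : side w0 = true) (hadj : Adj u0 w0) (i0 : Fin 3) :
    ∃ (s : Fin 3 → AlgebraicClosure (ZMod p)) (q : V → AlgebraicClosure (ZMod p)) (m : V → ℕ),
      SGood s ∧ GoodCfg s side q Finset.univ ∧
      (∀ v, 1 ≤ m v ∧ ∀ i, s i ^ (p ^ m v) = s i) ∧
      (∀ v, side v = true → q v ^ (p ^ m v) = q v) ∧
      (∀ v, side v = true → v ≠ w0 → ∀ i, q v ^ 2 ≠ (s i)⁻¹) ∧
      q w0 ^ 2 = (s (i0 + 1))⁻¹ ∧
      (∀ u v, side u = false → side v = true → Adj u v → ¬ (u = u0 ∧ v = w0) →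
        q u ^ (p ^ m v) = q u) ∧
      (∀ u v, side u = false → side v = true → ¬ Adj u v → ∀ i,
        (q u + s i / q u) ^ (p ^ m v) ≠ q u + s i / q u) ∧
      (∀ u, side u = false → ¬ Adj u w0 → ∀ i,
        (q u + s i / q u) ^ ((p ^ m w0) ^ 2) ≠ q u + s i / q u) ∧
      q u0 ^ (p ^ m w0 + 1) = s (i0 + 2) ∧ q u0 ^ 2 ≠ s (i0 + 2) := by
  classical
  obtain ⟨s, q, hs, hq, hw0sq, hother⟩ :=
    sel_right (k := AlgebraicClosure (ZMod p)) side w0 hw0 (i0 + 1)
  obtain ⟨N, hN1, hN⟩ := exists_common p (Finset.univ.image s ∪ Finset.univ.image q)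
  have hNs : ∀ i, s i ^ (p ^ N) = s i := fun i => hN _ (Finset.mem_union_left _
    (Finset.mem_image_of_mem s (Finset.mem_univ i)))
  have hNq : ∀ v, q v ^ (p ^ N) = q v := fun v => hN _ (Finset.mem_union_right _
    (Finset.mem_image_of_mem q (Finset.mem_univ v)))
  obtain ⟨q', ell, e1, e2, e3, e4, e5, e6, e7, e8⟩ :=
    sel_left p N hN1 side u0 hu0 (i0 + 2) s hs q hq
  have hp0 : p ^ N ≠ 0 := pow_ne_zero _ (Fact.out : p.Prime).ne_zero
  set P : V → ℕ := fun v => ∏ u ∈ Finset.univ.filter (fun u => side u = false ∧ Adj u v), ell u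
    with hP
  set n : V → ℕ := fun v => P v * (if v ≠ w0 ∧ Adj u0 v then 2 else 1) with hn
  set m : V → ℕ := fun v => if side v = true then N * n v else N with hm
  have hPpos : ∀ v, 1 ≤ P v := fun v => Finset.one_le_prod' fun u hu =>
    (e3 u (Finset.mem_filter.1 hu).2.1).1.one_le
  have hnpos : ∀ v, 1 ≤ n v := by
    intro v
    have h1 : 1 ≤ (if v ≠ w0 ∧ Adj u0 v then 2 else 1) := by split <;> omega
    exact Nat.mul_le_mul (hPpos v) h1
  have hmr : ∀ v, side v = true → p ^ m v = (p ^ N) ^ n v := by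
    intro v hv
    simp only [hm, hv, if_true]
    rw [pow_mul]
  have hmfix : ∀ (x : AlgebraicClosure (ZMod p)) (v : V), x ^ (p ^ N) = x → x ^ (p ^ m v) = x := by
    intro x v hx
    by_cases hv : side v = true
    · rw [hmr v hv]
      exact fix_iter (p ^ N) x 1 (by rw [pow_one]; exact hx) _ (one_dvd _)
    · simp only [hm, hv]
      exact hx
  have hdvdP : ∀ u v, side u = false → Adj u v → ell u ∣ P v := fun u v hu huv =>
    Finset.dvd_prod_of_mem ell (Finset.mem_filter.2 ⟨Finset.mem_univ u, hu, huv⟩)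
  have hndvdP : ∀ u v, side u = false → ¬ Adj u v → ¬ ell u ∣ P v := by
    intro u v hu huv hd
    obtain ⟨u', hu', hd'⟩ := (Prime.dvd_finsetProd_iff (e3 u hu).1.prime ell).1 hd
    rw [Finset.mem_filter] at hu'
    have heq := (Nat.prime_dvd_prime_iff_eq (e3 u hu).1 (e3 u' hu'.2.1).1).1 hd'
    refine e4 u u' hu hu'.2.1 ?_ heq
    rintro rfl
    exact huv hu'.2.2
  have hn2 : ∀ u, side u = false → ¬ ell u ∣ 2 := by
    intro u hu hd
    exact (e3 u hu).2 ((Nat.prime_dvd_prime_iff_eq (e3 u hu).1 Nat.prime_two).1 hd)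
  have hndvd : ∀ u v, side u = false → ¬ Adj u v → ¬ ell u ∣ n v := by
    intro u v hu huv hd
    rcases (Nat.Prime.dvd_mul (e3 u hu).1).1 hd with h | h
    · exact hndvdP u v hu huv h
    · split at h
      · exact hn2 u hu h
      · exact (e3 u hu).1.one_lt.ne' (Nat.dvd_one.1 h)
  have hodd : ∀ S : Finset V, (∀ u ∈ S, side u = false) → ¬ 2 ∣ ∏ u ∈ S, ell u := by
    intro S hS hd
    obtain ⟨u', hu', hd'⟩ := (Prime.dvd_finsetProd_iff Nat.prime_two.prime ell).1 hd
    exact (e3 u' (hS u' hu')).2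
      ((Nat.prime_dvd_prime_iff_eq Nat.prime_two (e3 u' (hS u' hu')).1).1 hd').symm
  refine ⟨s, q', m, hs, e2, ?_, ?_, ?_, ?_, ?_, ?_, ?_, ?_, e8⟩
  · intro v
    refine ⟨?_, fun i => hmfix _ v (hNs i)⟩
    simp only [hm]
    split
    · exact Nat.mul_le_mul hN1 (hnpos v)
    · exact hN1
  · intro v hv
    rw [e1 v hv]
    exact hmfix _ v (hNq v)
  · intro v hv hvw i
    rw [e1 v hv]
    exact hother v hv hvw i
  · rw [e1 w0 hw0]
    exact hw0sq
  · intro u v hu hv huv hne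
    rw [hmr v hv]
    by_cases hu' : u = u0
    · subst hu'
      have hvw : v ≠ w0 := fun h => hne ⟨rfl, h⟩
      obtain ⟨j, hj⟩ := hdvdP u v hu huv
      have hnv : n v = ell u * (j * 2) := by
        simp only [hn]
        rw [if_pos ⟨hvw, huv⟩, hj, mul_assoc]
      rw [hnv]
      exact even_pow p N (ell u) (q' u) (s (i0 + 2)) (hs.1 _) (hNs _) e6 (j * 2)
        (Dvd.intro_left j rfl)
    · refine fix_iter (p ^ N) (q' u) (ell u) (e5 u hu hu').1 _ ?_
      exact Dvd.dvd.mul_right (hdvdP u v hu huv) _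
  · intro u v hu hv huv i
    rw [hmr v hv]
    by_cases hu' : u = u0
    · subst hu'
      have hnv : n v = P v := by
        simp only [hn]
        rw [if_neg (fun h => huv h.2), mul_one]
      have h2 : ¬ 2 ∣ n v := by
        rw [hnv]
        exact hodd _ (fun w hw => (Finset.mem_filter.1 hw).2.1)
      exact nonfix2 p N hN1 (ell u) (e3 u hu).1 (q' u) (s (i0 + 2)) (s i) (hs.1 _) (hNs _) e6 e7
        (hs.1 i) (hNs i) (n v) (hndvd u v hu huv) h2
    · exact nonfix1 p N hN1 (ell u) (e3 u hu).1 (e3 u hu).2 (q' u) (s i) (e5 u hu hu').1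
        (e5 u hu hu').2 (hs.1 i) (hNs i) (n v) (hndvd u v hu huv)
  · intro u hu huw i
    have hu' : u ≠ u0 := by
      rintro rfl
      exact huw hadj
    rw [hmr w0 hw0, ← pow_mul]
    refine nonfix1 p N hN1 (ell u) (e3 u hu).1 (e3 u hu).2 (q' u) (s i) (e5 u hu hu').1
        (e5 u hu hu').2 (hs.1 i) (hNs i) (n w0 * 2) ?_
    intro hd
    rcases (Nat.Prime.dvd_mul (e3 u hu).1).1 hd with h | h
    · exact hndvd u w0 hu huw h
    · exact hn2 u hu h
  · rw [hmr w0 hw0]
    have hmem : u0 ∈ Finset.univ.filter (fun u => side u = false ∧ Adj u w0) :=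
      Finset.mem_filter.2 ⟨Finset.mem_univ u0, hu0, hadj⟩
    have hnw : n w0 = ell u0 * ∏ u ∈ (Finset.univ.filter
        (fun u => side u = false ∧ Adj u w0)).erase u0, ell u := by
      simp only [hn]
      rw [if_neg (fun h => h.1 rfl), mul_one]
      exact (Finset.mul_prod_erase _ _ hmem).symm
    rw [hnw]
    refine odd_pow p N (ell u0) (q' u0) (s (i0 + 2)) (hs.1 _) (hNs _) e6 _ ?_
    exact hodd _ (fun w hw => (Finset.mem_filter.1 (Finset.mem_of_mem_erase hw)).2.1)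

end Prism
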