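import Pool.Agent.Lib.MP_343ccd_co.EltA
import Pool.Agent.Lib.MP_343ccd_co.EltB
import Pool.Agent.Lib.MP_343ccd_co.SelM

/-!
# MP_343ccd_co, module Rep: the representation

`s, q, m` from `exists_config`; `σ (v, l) = lelt s (q v) l` for left `v` and
`σ (v, l) = rElt p (m v) s _ (q v) _ (v = w0) l` for right `v`.
(1) a `4`-set which is not a cross set has linearly independent linear parts;
(2) a cross set is treated with the bijection `Fin 4 ≃ S` and the modules `EltA`, `EltB`.
-/

namespace Prism

private theorem rp_bij {V : Type*} [DecidableEq V] (u v : V) (huv : u ≠ v) (i : Fin 3)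
    {R A : Type*} [CommRing R] [CommRing A] [Algebra R A] (σ : V × Fin 3 → A) :
    AlgebraicIndependent R (fun x : crossSet u v i => σ x) ↔
      AlgebraicIndependent R ![σ (u, i + 1), σ (u, i + 2), σ (v, i + 1), σ (v, i + 2)] := by
  have h12 : (i + 1 : Fin 3) ≠ i + 2 := by fin_cases i <;> decide
  have h21 : (i + 2 : Fin 3) ≠ i + 1 := h12.symm
  have hvu : v ≠ u := huv.symm
  let e : Fin 4 → crossSet u v i := ![⟨(u, i + 1), by simp [crossSet]⟩,
    ⟨(u, i + 2), by simp [crossSet]⟩, ⟨(v, i + 1), by simp [crossSet]⟩,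
    ⟨(v, i + 2), by simp [crossSet]⟩]
  have e0 : (e 0 : V × Fin 3) = (u, i + 1) := rfl
  have e1 : (e 1 : V × Fin 3) = (u, i + 2) := rfl
  have e2 : (e 2 : V × Fin 3) = (v, i + 1) := rfl
  have e3 : (e 3 : V × Fin 3) = (v, i + 2) := rfl
  have hinj : Function.Injective e := by
    intro a b hab
    have hab' : (e a : V × Fin 3) = e b := by rw [hab]
    fin_cases a <;> fin_cases b <;>
      simp_all
  have hsurj : Function.Surjective e := by
    rintro ⟨x, hx⟩
    have hx' := hx
    simp only [crossSet, Finset.mem_insert, Finset.mem_singleton] at hx'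
    rcases hx' with h | h | h | h
    · exact ⟨0, Subtype.ext (e0.trans h.symm)⟩
    · exact ⟨1, Subtype.ext (e1.trans h.symm)⟩
    · exact ⟨2, Subtype.ext (e2.trans h.symm)⟩
    · exact ⟨3, Subtype.ext (e3.trans h.symm)⟩
  have h := algebraicIndependent_equiv (R := R) (Equiv.ofBijective e ⟨hinj, hsurj⟩)
    (f := fun x : crossSet u v i => σ x)
  rw [← h]
  have h2 : ((fun x : crossSet u v i => σ x) ∘ (Equiv.ofBijective e ⟨hinj, hsurj⟩)) =
      ![σ (u, i + 1), σ (u, i + 2), σ (v, i + 1), σ (v, i + 2)] := by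
    funext j
    fin_cases j <;> rfl
  rw [h2]

private theorem rp_f1 : ∀ i i' : Fin 3, (i + 1 = i' + 1 ∨ i + 1 = i' + 2) →
    (i + 2 = i' + 1 ∨ i + 2 = i' + 2) → i = i' := by decide

private theorem rp_f2 : ∀ i0 i : Fin 3, i = i0 ∨ i = i0 + 1 ∨ i = i0 + 2 := by decide

private theorem rp_f3 : ∀ i : Fin 3, i ≠ i + 1 := by decide

private theorem rp_f4 : ∀ i : Fin 3, i + 2 ≠ i := by decide

private theorem rp_det {V : Type*} [DecidableEq V] (side : V → Bool) {u v u' v' : V}
    {i i' : Fin 3} (hu : side u = false) (hv : side v = true) (hu' : side u' = false)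
    (hv' : side v' = true) (h : crossSet u v i = crossSet u' v' i') :
    u = u' ∧ v = v' ∧ i = i' := by
  have huv' : u ≠ v' := fun hc => by rw [hc, hv'] at hu; exact Bool.noConfusion hu
  have hvu' : v ≠ u' := fun hc => by rw [hc, hu'] at hv; exact Bool.noConfusion hv
  have m1 : (u, i + 1) ∈ crossSet u' v' i' := by rw [← h]; simp [crossSet]
  have m2 : (u, i + 2) ∈ crossSet u' v' i' := by rw [← h]; simp [crossSet]
  have m3 : (v, i + 1) ∈ crossSet u' v' i' := by rw [← h]; simp [crossSet]
  simp only [crossSet, Finset.mem_insert, Finset.mem_singleton, Prod.mk.injEq] at m1 m2 m3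
  have hu1 : u = u' := by tauto
  have hv1 : v = v' := by tauto
  have hi1 : i + 1 = i' + 1 ∨ i + 1 = i' + 2 := by tauto
  have hi2 : i + 2 = i' + 1 ∨ i + 2 = i' + 2 := by tauto
  exact ⟨hu1, hv1, rp_f1 i i' hi1 hi2⟩

theorem rep (p : ℕ) [Fact p.Prime] (hp2 : p ≠ 2) {V : Type*} [Fintype V] [DecidableEq V]
    (side : V → Bool) (Adj : V → V → Prop) (u0 w0 : V) (hu0 : side u0 = false)
    (hw0 : side w0 = true) (hadj : Adj u0 w0) (i0 : Fin 3) :
    ∃ σ : V × Fin 3 → MvPolynomial (Fin 4) (AlgebraicClosure (ZMod p)),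
      ∀ S : Finset (V × Fin 3), S.card = 4 →
        (AlgebraicIndependent (AlgebraicClosure (ZMod p)) (fun x : S => σ x) ↔
          ¬ ∃ u v i, side u = false ∧ side v = true ∧ Adj u v ∧ S = crossSet u v i ∧
            ¬ (u = u0 ∧ v = w0 ∧ i = i0)) := by
  classical
  obtain ⟨s, q, m, hsg, hcfg, hmv, hqr, hqi, hqw0, hfix, hnf, hnf2, ht0, ht0'⟩ :=
    exists_config p side Adj u0 w0 hu0 hw0 hadj i0
  obtain ⟨hc1, hc2, hc3⟩ := hcfg
  let σ : V × Fin 3 → MvPolynomial (Fin 4) (AlgebraicClosure (ZMod p)) := fun x =>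
    if h : side x.1 = true then rElt p (m x.1) s (hmv x.1).2 (q x.1) (hqr x.1 h)
      (decide (x.1 = w0)) x.2 else lelt s (q x.1) x.2
  have hσl : ∀ v l, side v = false → σ (v, l) = lelt s (q v) l := by
    intro v l hv
    have h1 : ¬ side (v, l).1 = true := by
      change ¬ side v = true
      rw [hv]
      exact Bool.false_ne_true
    change dite _ _ _ = _
    rw [dif_neg h1]
  have hσr : ∀ v l, ∀ hv : side v = true, σ (v, l) = rElt p (m v) s (hmv v).2 (q v) (hqr v hv)
      (decide (v = w0)) l := by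
    intro v l hv
    change dite _ _ _ = _
    rw [dif_pos (show side (v, l).1 = true from hv)]
  refine ⟨σ, fun S hS => ?_⟩
  by_cases hcross : IsCross side S
  · obtain ⟨u, v, i, hu, hv, rfl⟩ := hcross
    have huv : u ≠ v := fun hc => by rw [hc, hv] at hu; exact Bool.noConfusion hu
    obtain ⟨hqu, hqu2⟩ := hc1 u (Finset.mem_univ u)
    obtain ⟨hqv, hqv2⟩ := hc1 v (Finset.mem_univ v)
    have hqu2' : q u ^ 2 ≠ s 0 * s 1 * s 2 := by
      have := hqu2
      rw [hu] at this
      exact this
    have hrhs : (¬ ∃ u' v' i', side u' = false ∧ side v' = true ∧ Adj u' v' ∧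
        crossSet u v i = crossSet u' v' i' ∧ ¬ (u' = u0 ∧ v' = w0 ∧ i' = i0)) ↔
        ¬ (Adj u v ∧ ¬ (u = u0 ∧ v = w0 ∧ i = i0)) := by
      refine not_congr ⟨?_, ?_⟩
      · rintro ⟨u', v', i', hu', hv', had, he, hne⟩
        obtain ⟨rfl, rfl, rfl⟩ := rp_det side hu hv hu' hv' he
        exact ⟨had, hne⟩
      · rintro ⟨had, hne⟩
        exact ⟨u, v, i, hu, hv, had, rfl, hne⟩
    rw [hrhs, rp_bij u v huv i σ, hσl u (i + 1) hu, hσl u (i + 2) hu, hσr v (i + 1) hv,
      hσr v (i + 2) hv]
    by_cases had : Adj u v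
    · by_cases h0 : u = u0 ∧ v = w0
      · obtain ⟨rfl, rfl⟩ := h0
        have hdec : decide (v = v) = true := by simp
        rw [hdec]
        rcases rp_f2 i0 i with hi | hi | hi
        · subst hi
          have hne1 : (i : Fin 3) ≠ i + 1 := rp_f3 i
          have hne2 : (i + 2 : Fin 3) ≠ i := rp_f4 i
          have hβi : q v ^ 2 ≠ (s i)⁻¹ := by
            rw [hqw0]
            intro hcon
            exact hsg.2.1 _ _ hne1 (inv_injective hcon).symm
          have hphi : (q u + s i / q u) ^ (p ^ m v) ≠ q u + s i / q u := by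
            intro hcon
            have hsa : s (i + 2) ≠ 0 := hsg.1 _
            rw [add_pow_char_pow, div_pow, (hmv v).2 i] at hcon
            have h1 : q u ^ (p ^ m v) = s (i + 2) / q u := by
              rw [eq_div_iff hqu, ← pow_succ]
              exact ht0
            rw [h1] at hcon
            have h2 : (s (i + 2) - s i) * (q u ^ 2 - s (i + 2)) = 0 := by
              field_simp at hcon
              linear_combination (-1) * hcon
            rcases mul_eq_zero.mp h2 with h3 | h3
            · exact hsg.2.1 _ _ hne2 (sub_eq_zero.mp h3)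
            · exact ht0' (sub_eq_zero.mp h3)
          have hI := rElt_ind_spec1 p (m v) hp2 (hmv v).1 s (hmv v).2 hsg (q v) (hqr v hv) hqv
            (q u) hqu hqu2' i hβi hphi
          exact iff_of_true hI (fun hc => hc.2 ⟨rfl, rfl, rfl⟩)
        · have hD := rElt_dep_b p (m v) s (hmv v).2 hsg (q v) (hqr v hv) (q u) hqu (i0 + 2)
            (i0 + 1) ht0 hqw0
          rw [hi]
          exact iff_of_false hD (fun hc => hc ⟨had, fun hc2 => rp_f3 i0 hc2.2.2.symm⟩)
        · have hD := rElt_dep_a p (m v) s (hmv v).2 hsg (q v) (hqr v hv) true (q u) hqu (i0 + 2)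
            ht0
          rw [hi]
          exact iff_of_false hD (fun hc => hc ⟨had, fun hc2 => rp_f4 i0 hc2.2.2⟩)
      · have hD := rElt_dep p (m v) s (hmv v).2 hsg (q v) (hqr v hv) (decide (v = w0)) (q u) hqu
          (hfix u v hu hv had h0) i
        exact iff_of_false hD (fun hc => hc ⟨had, fun hc2 => h0 ⟨hc2.1, hc2.2.1⟩⟩)
    · refine iff_of_true ?_ (fun hc => had hc.1)
      by_cases hvw : v = w0
      · have hdec : decide (v = w0) = true := by simp [hvw]
        rw [hdec]
        by_cases hi : i = i0 + 1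
        · have hβi : q v ^ 2 = (s i)⁻¹ := by rw [hi, hvw, hqw0]
          have hphi := hnf2 u hu (by rw [← hvw]; exact had) i
          rw [← hvw] at hphi
          exact rElt_ind_spec2 p (m v) hp2 (hmv v).1 s (hmv v).2 hsg (q v) (hqr v hv)
            (q u) hqu hqu2' i hβi hphi
        · have hβi : q v ^ 2 ≠ (s i)⁻¹ := by
            rw [hvw, hqw0]
            intro hcon
            exact hsg.2.1 _ _ hi (inv_injective hcon).symm
          exact rElt_ind_spec1 p (m v) hp2 (hmv v).1 s (hmv v).2 hsg (q v) (hqr v hv) hqv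
            (q u) hqu hqu2' i hβi (hnf u v hu hv had i)
      · have hdec : decide (v = w0) = false := by simp [hvw]
        rw [hdec]
        exact rElt_ind_ord p (m v) (hmv v).1 s (hmv v).2 hsg (q v) (hqr v hv) (q u) hqu hqu2' i
          (hqi v hv hvw i) (hnf u v hu hv had i)
  · refine iff_of_true ?_ ?_
    · have hlin := hc3 S (fun x _ => Finset.mem_univ _) hS.le hcross
      refine algebraicIndependent_of_linear _ ?_ ?_
      · rintro ⟨⟨v, l⟩, hx⟩
        change MvPolynomial.coeff 0 (σ (v, l)) = 0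
        cases hv : side v
        · rw [hσl v l hv]
          exact lelt_coeff_zero _ _ _
        · rw [hσr v l hv]
          exact rElt_zero p (m v) s _ _ _ _ _
      · have h1 : (fun (x : S) => (fun j : Fin 4 =>
            MvPolynomial.coeff (Finsupp.single j 1) (σ x))) =
            fun x : S => cvec s (side x.1.1) x.1.2 (q x.1.1) := by
          funext x j
          obtain ⟨⟨v, l⟩, hx⟩ := x
          change MvPolynomial.coeff (Finsupp.single j 1) (σ (v, l)) = cvec s (side v) l (q v) j
          cases hv : side v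
          · rw [hσl v l hv]
            exact lelt_coeff_single _ _ _ _
          · rw [hσr v l hv]
            exact rElt_lin p (m v) (hmv v).1 s _ _ _ _ _ _
        rw [h1]
        exact hlin
    · rintro ⟨u, v, i, hu, hv, _, he, _⟩
      exact hcross ⟨u, v, i, hu, hv, he⟩

end Prism
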