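import Pool.Agent.Lib.MP_343ccd_co.SelA

/-!
# MP_343ccd_co, module SelB: non-fixed elements

Notation `q = p ^ N`.
PROOFS.
`nonfix1`: `phi = t + a / t`; `t ≠ 0`.  `phi ^ (q ^ l) = phi`.  If also `phi ^ (q ^ n) = phi` then
(`gcd (l, n) = 1`, `frob_gcd`) `phi ^ q = phi`, so `t ^ q + a / t ^ q = t + a / t`, i.e.
`(t ^ q - t)(t ^ q t - a) = 0`, so `t ^ q = a / t`, `t ^ (q ^ 2) = a / (a / t) = t`, and with
`t ^ (q ^ l) = t`, `gcd (2, l) = 1`: `t ^ q = t`, contradiction.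
`nonfix2`: `t ^ (q ^ l) = a / t`, hence `t ^ (q ^ (2 l)) = t`, `phi = t + c / t` satisfies
`phi ^ (q ^ (2 l)) = phi`; if `phi ^ (q ^ n) = phi` with `gcd (n, 2 l) = 1` then `phi ^ q = phi`, so
`t ^ q = t` or `t ^ q = c / t`, in both cases `t ^ (q ^ 2) = t`, contradiction.
`odd_pow`, `even_pow`: `t ^ (q ^ l) = a / t` and `t ^ (q ^ (2 l)) = t`; iterate.
-/

namespace Prism

variable {k : Type*} [Field k] [IsAlgClosed k] (p N : ℕ) [hp : Fact p.Prime] [CharP k p]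

omit [IsAlgClosed k] hp [CharP k p] in
private theorem fix_iter (q : ℕ) (x : k) (hx : x ^ q = x) (n : ℕ) : x ^ (q ^ n) = x := by
  induction n with
  | zero => simp
  | succ n ih => rw [pow_succ, pow_mul, ih, hx]

omit [IsAlgClosed k] in
private theorem add_frob (x y : k) (n : ℕ) :
    (x + y) ^ ((p ^ N) ^ n) = x ^ ((p ^ N) ^ n) + y ^ ((p ^ N) ^ n) := by
  rw [← pow_mul]
  exact add_pow_char_pow x y p (N * n)

omit [IsAlgClosed k] in
private theorem phi_cases (t a : k) (ht : t ≠ 0) (haN : a ^ (p ^ N) = a)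
    (h : (t + a / t) ^ (p ^ N) = t + a / t) : t ^ (p ^ N) = t ∨ t ^ (p ^ N) = a / t := by
  have h1 := add_frob (k := k) p N t (a / t) 1
  rw [pow_one] at h1
  rw [h1, div_pow, haN] at h
  have htq : t ^ (p ^ N) ≠ 0 := pow_ne_zero _ ht
  set u := t ^ (p ^ N) with hu
  have h2 : (u - t) * (u * t - a) = 0 := by
    field_simp at h
    linear_combination h
  rcases mul_eq_zero.mp h2 with h3 | h3
  · left; exact sub_eq_zero.mp h3
  · right
    rw [eq_div_iff ht]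
    exact sub_eq_zero.mp h3

private theorem sq_fix (t a : k) (ht : t ≠ 0) (ha : a ≠ 0) (q : ℕ) (haN : a ^ q = a)
    (h : t ^ q = a / t) : t ^ (q ^ 2) = t := by
  rw [pow_two, pow_mul, h, div_pow, haN, h]
  field_simp

theorem nonfix1 (hN : 1 ≤ N) (l : ℕ) (hl : l.Prime) (hl2 : l ≠ 2) (t a : k)
    (h1 : t ^ ((p ^ N) ^ l) = t) (h2 : t ^ (p ^ N) ≠ t) (ha : a ≠ 0) (haN : a ^ (p ^ N) = a)
    (n : ℕ) (hn : ¬ l ∣ n) : (t + a / t) ^ ((p ^ N) ^ n) ≠ t + a / t := by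
  intro h
  have hq0 : p ^ N ≠ 0 := pow_ne_zero _ hp.out.ne_zero
  have ht : t ≠ 0 := by
    rintro rfl
    exact h2 (zero_pow hq0)
  have hl' : (t + a / t) ^ ((p ^ N) ^ l) = t + a / t := by
    rw [add_frob, div_pow, h1, fix_iter _ a haN]
  have hg := frob_gcd (p ^ N) l n _ hl' h
  rw [(Nat.Prime.coprime_iff_not_dvd hl).mpr hn, pow_one] at hg
  rcases phi_cases p N t a ht haN hg with h3 | h3
  · exact h2 h3
  · have h4 := sq_fix t a ht ha _ haN h3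
    have h5 := frob_gcd (p ^ N) l 2 t h1 h4
    have h6 : Nat.gcd l 2 = 1 := (Nat.coprime_primes hl Nat.prime_two).mpr hl2
    rw [h6, pow_one] at h5
    exact h2 h5

theorem nonfix2 (hN : 1 ≤ N) (l : ℕ) (hl : l.Prime) (t a c : k)
    (ha : a ≠ 0) (haN : a ^ (p ^ N) = a) (h1 : t ^ ((p ^ N) ^ l + 1) = a)
    (h2 : t ^ ((p ^ N) ^ 2) ≠ t) (hc : c ≠ 0) (hcN : c ^ (p ^ N) = c)
    (n : ℕ) (hn : ¬ l ∣ n) (hn2 : ¬ 2 ∣ n) : (t + c / t) ^ ((p ^ N) ^ n) ≠ t + c / t := by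
  intro h
  have ht : t ≠ 0 := by
    rintro rfl
    rw [zero_pow (Nat.succ_ne_zero _)] at h1
    exact ha h1.symm
  have h3 : t ^ ((p ^ N) ^ l) = a / t := by
    rw [eq_div_iff ht, ← pow_succ]
    exact h1
  have h4 := sq_fix t a ht ha _ (fix_iter _ a haN l) h3
  have h5 : (t + c / t) ^ ((p ^ N) ^ (l * 2)) = t + c / t := by
    rw [add_frob, div_pow, fix_iter _ c hcN, pow_mul, h4]
  have hg := frob_gcd (p ^ N) (l * 2) n _ h5 h
  have hcop : Nat.gcd (l * 2) n = 1 := by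
    apply Nat.Coprime.mul_left
    · exact (Nat.Prime.coprime_iff_not_dvd hl).mpr hn
    · exact (Nat.Prime.coprime_iff_not_dvd Nat.prime_two).mpr hn2
  rw [hcop, pow_one] at hg
  rcases phi_cases p N t c ht hcN hg with h6 | h6
  · exact h2 (fix_iter _ t h6 2)
  · exact h2 (sq_fix t c ht hc _ hcN h6)

theorem even_pow (l : ℕ) (t a : k) (ha : a ≠ 0) (haN : a ^ (p ^ N) = a)
    (h1 : t ^ ((p ^ N) ^ l + 1) = a) (n : ℕ) (hn : 2 ∣ n) :
    t ^ ((p ^ N) ^ (l * n)) = t := by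
  have ht : t ≠ 0 := by
    rintro rfl
    rw [zero_pow (Nat.succ_ne_zero _)] at h1
    exact ha h1.symm
  have h3 : t ^ ((p ^ N) ^ l) = a / t := by
    rw [eq_div_iff ht, ← pow_succ]
    exact h1
  have h4 := sq_fix t a ht ha _ (fix_iter _ a haN l) h3
  obtain ⟨m, rfl⟩ := hn
  rw [pow_mul, pow_mul ((p ^ N) ^ l)]
  exact fix_iter _ t h4 m

theorem odd_pow (l : ℕ) (t a : k) (ha : a ≠ 0) (haN : a ^ (p ^ N) = a)
    (h1 : t ^ ((p ^ N) ^ l + 1) = a) (n : ℕ) (hn : ¬ 2 ∣ n) :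
    t ^ ((p ^ N) ^ (l * n) + 1) = a := by
  obtain ⟨m, hm⟩ : ∃ m, n = m + 1 := ⟨n - 1, by omega⟩
  have hm2 : 2 ∣ m := by omega
  have h5 := even_pow p N l t a ha haN h1 m hm2
  rw [pow_succ, hm, mul_add, mul_one, pow_add, pow_mul, h5, ← pow_succ]
  exact h1

end Prism
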