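import Pool.Agent.Lib.MP_343ccd_co.ExtM
import Pool.Agent.Lib.MP_343ccd_co.SelB

/-!
# MP_343ccd_co, module Sel: choice of the parameters, vertices

PROOFS.
`exists_s`: `k` is infinite (algebraically closed); choose `s 0`, `s 1`, `s 2` one after the other
outside `0`, the solutions of `x * x = 1` and the earlier `s j`, `(s j)⁻¹`.
`sel_right`: choose `s` (`exists_s`) and `sigma` with `sigma² = (s b)⁻¹` (algebraically closed).
`GoodCfg` on `{w0}` with `q w0 = sigma`: `cfg_single`; `sigma² = (s b)⁻¹ ≠ (s 0)⁻¹ (s 1)⁻¹ (s 2)⁻¹`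
because the product of the two other `s j` is `≠ 1`.  Then add the other right vertices one by one
(`Finset.induction_on` over the right vertices different from `w0`, starting with
`q = fun _ => sigma`): `ext_bad` and also avoid the finitely many `t` with `t² = (s i)⁻¹`;
`Function.update` does not change the earlier values.
`sel_left`: induction over the set `L` of left vertices already treated, the statement being
the conclusion with `Finset.univ` replaced by `R ∪ L`, where `R` = right vertices: for the new
vertex `u ≠ u0` use `exists_left` with `Pr = L.image ell` and the `Bad` of `ext_bad`; for `u = u0`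
use `exists_left_special` with `a = s a0`.
-/

namespace Prism

variable {k : Type*} [Field k] [IsAlgClosed k] {V : Type*} [Fintype V] [DecidableEq V]

private theorem sq_ne_fin (k : Type*) [Field k] (c : k) :
    ∃ B : Finset k, ∀ x, x ∉ B → x ^ 2 ≠ c := by
  classical
  refine ⟨(Polynomial.X ^ 2 - Polynomial.C c : Polynomial k).roots.toFinset, ?_⟩
  intro x hx h
  apply hx
  have hdeg3 : (Polynomial.X ^ 2 - Polynomial.C c : Polynomial k).natDegree = 2 :=
    Polynomial.natDegree_X_pow_sub_C
  have hne3 : (Polynomial.X ^ 2 - Polynomial.C c : Polynomial k) ≠ 0 := by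
    intro h
    rw [h] at hdeg3
    simp at hdeg3
  rw [Multiset.mem_toFinset, Polynomial.mem_roots hne3]
  simp [Polynomial.IsRoot, h]

theorem exists_s (k : Type*) [Field k] [IsAlgClosed k] : ∃ s : Fin 3 → k, SGood s := by
  classical
  have : Infinite k := IsAlgClosed.instInfinite
  obtain ⟨B, hB⟩ := sq_ne_fin k 1
  obtain ⟨a, ha⟩ := Infinite.exists_notMem_finset (B ∪ {0})
  obtain ⟨b, hb⟩ := Infinite.exists_notMem_finset (B ∪ {0, a, a⁻¹})
  obtain ⟨c, hc⟩ := Infinite.exists_notMem_finset (B ∪ {0, a, a⁻¹, b, b⁻¹})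
  simp only [Finset.mem_union, Finset.mem_insert, Finset.mem_singleton, not_or] at ha hb hc
  obtain ⟨ha1, ha0⟩ := ha
  obtain ⟨hb1, hb0, hba, hba'⟩ := hb
  obtain ⟨hc1, hc0, hca, hca', hcb, hcb'⟩ := hc
  have haa := hB a ha1
  have hbb := hB b hb1
  have hcc := hB c hc1
  have key : ∀ x y : k, x ≠ 0 → y ≠ x⁻¹ → x * y ≠ 1 := by
    intro x y hx hy h
    exact hy (eq_inv_of_mul_eq_one_right h)
  refine ⟨![a, b, c], ?_, ?_, ?_⟩
  · intro i
    fin_cases i <;> simp [ha0, hb0, hc0]
  · intro i j hij
    fin_cases i <;> fin_cases j <;> simp at hij ⊢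
    · exact fun h => hba h.symm
    · exact fun h => hca h.symm
    · exact hba
    · exact fun h => hcb h.symm
    · exact hca
    · exact hcb
  · intro i j
    fin_cases i <;> fin_cases j <;> simp
    · rw [← pow_two]; exact haa
    · exact key a b ha0 hba'
    · exact key a c ha0 hca'
    · rw [mul_comm]; exact key a b ha0 hba'
    · rw [← pow_two]; exact hbb
    · exact key b c hb0 hcb'
    · rw [mul_comm]; exact key a c ha0 hca'
    · rw [mul_comm]; exact key b c hb0 hcb'
    · rw [← pow_two]; exact hcc

theorem sel_right (side : V → Bool) (w0 : V) (hw0 : side w0 = true) (b : Fin 3) :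
    ∃ (s : Fin 3 → k) (q : V → k), SGood s ∧
      GoodCfg s side q (Finset.univ.filter (fun v => side v = true)) ∧
      q w0 ^ 2 = (s b)⁻¹ ∧ ∀ v, side v = true → v ≠ w0 → ∀ i, q v ^ 2 ≠ (s i)⁻¹ := by
  classical
  have : Infinite k := IsAlgClosed.instInfinite
  obtain ⟨s, hs⟩ := exists_s k
  obtain ⟨σ, hσ⟩ := IsAlgClosed.exists_pow_nat_eq ((s b)⁻¹) (n := 2) (by norm_num)
  have hσ0 : σ ≠ 0 := by
    rintro rfl
    rw [zero_pow (by norm_num)] at hσ
    exact inv_ne_zero (hs.1 b) hσ.symm
  have hbase : GoodCfg s side (fun _ => σ) {w0} := by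
    apply cfg_single s hs side _ w0 hσ0
    simp only [sv, hw0, if_true]
    rw [hσ]
    intro h
    have h0 := hs.1 0
    have h1 := hs.1 1
    have h2 := hs.1 2
    have e12 := hs.2.2 1 2
    have e02 := hs.2.2 0 2
    have e01 := hs.2.2 0 1
    fin_cases b
    · simp only [Fin.zero_eta] at h
      field_simp at h
      exact e12 h
    · simp only [Fin.mk_one] at h
      field_simp at h
      exact e02 h
    · simp only [Fin.reduceFinMk] at h
      field_simp at h
      exact e01 h
  obtain ⟨B0, hB0⟩ := sq_ne_fin k ((s 0)⁻¹)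
  obtain ⟨B1, hB1⟩ := sq_ne_fin k ((s 1)⁻¹)
  obtain ⟨B2, hB2⟩ := sq_ne_fin k ((s 2)⁻¹)
  have step : ∀ W : Finset V, w0 ∉ W → ∃ q : V → k, GoodCfg s side q (insert w0 W) ∧
      q w0 = σ ∧ ∀ v ∈ W, ∀ i, q v ^ 2 ≠ (s i)⁻¹ := by
    intro W
    induction W using Finset.induction_on with
    | empty =>
      intro _
      exact ⟨fun _ => σ, by simpa using hbase, rfl, by simp⟩
    | insert v W hv ih =>
      intro hw
      rw [Finset.mem_insert, not_or] at hw
      obtain ⟨q, hq1, hq2, hq3⟩ := ih hw.2
      have hv' : v ∉ insert w0 W := by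
        rw [Finset.mem_insert, not_or]
        exact ⟨fun h => hw.1 h.symm, hv⟩
      obtain ⟨Bad, hBad⟩ := ext_bad s hs side q _ hq1 v hv'
      obtain ⟨t, ht⟩ := Infinite.exists_notMem_finset (Bad ∪ (B0 ∪ (B1 ∪ B2)))
      simp only [Finset.mem_union, not_or] at ht
      obtain ⟨ht, ht0, ht1, ht2⟩ := ht
      refine ⟨Function.update q v t, ?_, ?_, ?_⟩
      · rw [Finset.insert_comm]
        exact hBad t ht
      · rw [Function.update_of_ne hw.1]
        exact hq2
      · intro v' hv'' i
        rw [Finset.mem_insert] at hv''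
        by_cases hvv : v' = v
        · subst hvv
          rw [Function.update_self]
          fin_cases i
          · exact hB0 t ht0
          · exact hB1 t ht1
          · exact hB2 t ht2
        · rw [Function.update_of_ne hvv]
          exact hq3 v' (hv''.resolve_left hvv) i
  obtain ⟨q, hq1, hq2, hq3⟩ := step
    ((Finset.univ.filter (fun v => side v = true)).erase w0) (by simp)
  refine ⟨s, q, hs, ?_, ?_, ?_⟩
  · rw [Finset.insert_erase (by simp [hw0])] at hq1
    exact hq1
  · rw [hq2]; exact hσ
  · intro v hv hvw i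
    exact hq3 v (by simp [hv, hvw]) i

theorem sel_left (p N : ℕ) [hp : Fact p.Prime] [CharP k p] (hN : 1 ≤ N) (side : V → Bool)
    (u0 : V) (hu0 : side u0 = false) (a0 : Fin 3) (s : Fin 3 → k) (hs : SGood s) (q : V → k)
    (hq : GoodCfg s side q (Finset.univ.filter (fun v => side v = true))) :
    ∃ (q' : V → k) (ell : V → ℕ), (∀ v, side v = true → q' v = q v) ∧
      GoodCfg s side q' Finset.univ ∧
      (∀ u, side u = false → (ell u).Prime ∧ ell u ≠ 2) ∧
      (∀ u u', side u = false → side u' = false → u ≠ u' → ell u ≠ ell u') ∧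
      (∀ u, side u = false → u ≠ u0 → q' u ^ ((p ^ N) ^ ell u) = q' u ∧ q' u ^ (p ^ N) ≠ q' u) ∧
      q' u0 ^ ((p ^ N) ^ ell u0 + 1) = s a0 ∧ q' u0 ^ ((p ^ N) ^ 2) ≠ q' u0 ∧
      q' u0 ^ 2 ≠ s a0 := by
  classical
  set R := Finset.univ.filter (fun v => side v = true) with hR
  have step : ∀ L : Finset V, (∀ u ∈ L, side u = false) → ∃ (q' : V → k) (ell : V → ℕ),
      (∀ v, side v = true → q' v = q v) ∧
      GoodCfg s side q' (L ∪ R) ∧
      (∀ u ∈ L, (ell u).Prime ∧ ell u ≠ 2) ∧
      (∀ u ∈ L, ∀ u' ∈ L, u ≠ u' → ell u ≠ ell u') ∧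
      (∀ u ∈ L, u ≠ u0 → q' u ^ ((p ^ N) ^ ell u) = q' u ∧ q' u ^ (p ^ N) ≠ q' u) ∧
      (u0 ∈ L → q' u0 ^ ((p ^ N) ^ ell u0 + 1) = s a0 ∧ q' u0 ^ ((p ^ N) ^ 2) ≠ q' u0 ∧
        q' u0 ^ 2 ≠ s a0) := by
    intro L
    induction L using Finset.induction_on with
    | empty =>
      intro _
      refine ⟨q, fun _ => 3, fun _ _ => rfl, ?_, ?_, ?_, ?_, ?_⟩
      · rw [Finset.empty_union]; exact hq
      · intro u hu; simp at hu
      · intro u hu; simp at hu
      · intro u hu; simp at hu
      · intro hu; simp at hu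
    | insert u L hu ih =>
      intro hL
      have hLs : ∀ u ∈ L, side u = false := fun x hx => hL x (Finset.mem_insert_of_mem hx)
      have hus : side u = false := hL u (Finset.mem_insert_self u L)
      obtain ⟨q', ell, h1, h2, h3, h4, h5, h6⟩ := ih hLs
      have huR : u ∉ L ∪ R := by
        rw [Finset.mem_union, not_or]
        refine ⟨hu, ?_⟩
        simp [hR, hus]
      obtain ⟨Bad, hBad⟩ := ext_bad s hs side q' _ h2 u huR
      -- generic step
      have gen : ∀ (l : ℕ) (t : k), l.Prime → l ≠ 2 → l ∉ L.image ell → t ∉ Bad →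
          (u ≠ u0 → t ^ ((p ^ N) ^ l) = t ∧ t ^ (p ^ N) ≠ t) →
          (u = u0 → t ^ ((p ^ N) ^ l + 1) = s a0 ∧ t ^ ((p ^ N) ^ 2) ≠ t ∧ t ^ 2 ≠ s a0) →
          ∃ (q' : V → k) (ell : V → ℕ),
          (∀ v, side v = true → q' v = q v) ∧
          GoodCfg s side q' ((insert u L) ∪ R) ∧
          (∀ u' ∈ insert u L, (ell u').Prime ∧ ell u' ≠ 2) ∧
          (∀ v ∈ insert u L, ∀ u' ∈ insert u L, v ≠ u' → ell v ≠ ell u') ∧
          (∀ v ∈ insert u L, v ≠ u0 → q' v ^ ((p ^ N) ^ ell v) = q' v ∧ q' v ^ (p ^ N) ≠ q' v) ∧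
          (u0 ∈ insert u L → q' u0 ^ ((p ^ N) ^ ell u0 + 1) = s a0 ∧
            q' u0 ^ ((p ^ N) ^ 2) ≠ q' u0 ∧ q' u0 ^ 2 ≠ s a0) := by
        intro l t hl hl2 hlL htB hne heq
        have hLne : ∀ v ∈ L, v ≠ u := by
          rintro v hv rfl
          exact hu hv
        have hlL' : ∀ v ∈ L, ell v ≠ l := by
          intro v hv h
          exact hlL (Finset.mem_image.mpr ⟨v, hv, h⟩)
        refine ⟨Function.update q' u t, Function.update ell u l, ?_, ?_, ?_, ?_, ?_, ?_⟩
        · intro v hv
          rw [Function.update_of_ne, h1 v hv]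
          rintro rfl
          rw [hus] at hv
          exact Bool.false_ne_true hv
        · rw [Finset.insert_union]
          exact hBad t htB
        · intro v hv
          rcases Finset.mem_insert.mp hv with rfl | hv
          · rw [Function.update_self]; exact ⟨hl, hl2⟩
          · rw [Function.update_of_ne (hLne v hv)]; exact h3 v hv
        · intro v hv v' hv' hvv
          rcases Finset.mem_insert.mp hv with rfl | hv2
          · rcases Finset.mem_insert.mp hv' with rfl | hv'
            · exact absurd rfl hvv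
            · rw [Function.update_self, Function.update_of_ne (hLne v' hv')]
              exact (hlL' v' hv').symm
          · rcases Finset.mem_insert.mp hv' with hv'2 | hv'2
            · rw [hv'2, Function.update_self, Function.update_of_ne (hLne v hv2)]
              exact hlL' v hv2
            · rw [Function.update_of_ne (hLne v hv2), Function.update_of_ne (hLne v' hv'2)]
              exact h4 v hv2 v' hv'2 hvv
        · intro v hv hv0
          rcases Finset.mem_insert.mp hv with rfl | hv
          · rw [Function.update_self, Function.update_self]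
            exact hne hv0
          · rw [Function.update_of_ne (hLne v hv), Function.update_of_ne (hLne v hv)]
            exact h5 v hv hv0
        · intro h0
          rcases Finset.mem_insert.mp h0 with h0 | h0
          · subst h0
            rw [Function.update_self, Function.update_self]
            exact heq rfl
          · rw [Function.update_of_ne (hLne u0 h0), Function.update_of_ne (hLne u0 h0)]
            exact h6 h0
      by_cases huu : u = u0
      · obtain ⟨l, t, hl, hl2, hlL, htB, ht1, ht2, ht3⟩ :=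
          exists_left_special (k := k) p N hN (s a0) (hs.1 a0) Bad (L.image ell)
        exact gen l t hl hl2 hlL htB (fun h => absurd huu h) (fun _ => ⟨ht1, ht2, ht3⟩)
      · obtain ⟨l, t, hl, hl2, hlL, htB, ht1, ht2⟩ :=
          exists_left (k := k) p N hN Bad (L.image ell)
        exact gen l t hl hl2 hlL htB (fun _ => ⟨ht1, ht2⟩) (fun h => absurd h huu)
  obtain ⟨q', ell, h1, h2, h3, h4, h5, h6⟩ := step
    (Finset.univ.filter (fun v => side v = false)) (by simp)
  have hun : Finset.univ.filter (fun v => side v = false) ∪ R = Finset.univ := by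
    ext v
    simp only [hR, Finset.mem_union, Finset.mem_filter, Finset.mem_univ, true_and, iff_true]
    cases side v <;> simp
  rw [hun] at h2
  have hmem : ∀ u, side u = false → u ∈ Finset.univ.filter (fun v => side v = false) := by
    intro u hu
    simp [hu]
  exact ⟨q', ell, h1, h2, fun u hu => h3 u (hmem u hu),
    fun u u' hu hu' huu => h4 u (hmem u hu) u' (hmem u' hu') huu,
    fun u hu hu0' => h5 u (hmem u hu) hu0', h6 (hmem u0 hu0)⟩

end Prism
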