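import Pool.Agent.Lib.MP_343ccd_co.Defs

/-!
# MP_343ccd_co, module SelA: elements of the algebraic closure of `F_p` with prescribed degrees

Notation `q = p ^ N`.
PROOFS.
`frob_gcd`: the map `x ↦ x ^ q` iterated `a` times is `x ↦ x ^ (q ^ a)`; `Function.IsPeriodicPt.gcd`.
`exists_common`: every `x` in the algebraic closure of `F_p` generates a finite field, so
`x ^ (p ^ n) = x` for some `n ≥ 1`; take the product (or lcm) over `T`.
`exists_left`: for `n = q ^ l` the polynomial `X ^ n - X` is separable (`n = 0` in `k`) and splits,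
so it has `q ^ l` roots; for a prime `l` large (`> 2`, not in `Pr`, `q ^ l > q + card Bad`) one of
them is neither in `Bad` nor a root of `X ^ q - X`.
`exists_left_special`: `X ^ (q ^ l + 1) - a` is separable (its derivative is `X ^ (q ^ l)` and
`a ≠ 0`) and has `q ^ l + 1` roots; at most `q ^ 2 + card Bad + 2` of them are in `Bad`, roots of
`X ^ (q ^ 2) - X` or of `X ^ 2 - a`.
-/

namespace Prism

theorem frob_gcd {k : Type*} [Field k] (q a b : ℕ) (x : k) (ha : x ^ (q ^ a) = x)
    (hb : x ^ (q ^ b) = x) : x ^ (q ^ (Nat.gcd a b)) = x := by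
  have h : ∀ n, Function.IsPeriodicPt (fun y : k => y ^ q) n x ↔ x ^ (q ^ n) = x := by
    intro n
    unfold Function.IsPeriodicPt Function.IsFixedPt
    rw [pow_iterate]
  rw [← h] at ha hb ⊢
  exact ha.gcd hb

private theorem exists_single (p : ℕ) [hp : Fact p.Prime] (x : AlgebraicClosure (ZMod p)) :
    ∃ n : ℕ, 1 ≤ n ∧ x ^ (p ^ n) = x := by
  have hx : IsIntegral (ZMod p) x := (Algebra.IsAlgebraic.isAlgebraic x).isIntegral
  have : FiniteDimensional (ZMod p) (IntermediateField.adjoin (ZMod p) {x}) :=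
    IntermediateField.adjoin.finiteDimensional hx
  have : Finite (IntermediateField.adjoin (ZMod p) {x}) :=
    Module.finite_of_finite (ZMod p)
  have := Fintype.ofFinite (IntermediateField.adjoin (ZMod p) {x})
  refine ⟨Module.finrank (ZMod p) (IntermediateField.adjoin (ZMod p) {x}),
    Module.finrank_pos, ?_⟩
  have h1 := FiniteField.pow_card (⟨x, IntermediateField.mem_adjoin_simple_self (ZMod p) x⟩ :
    IntermediateField.adjoin (ZMod p) {x})
  have h2 := congrArg Subtype.val h1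
  rw [Module.card_eq_pow_finrank (K := ZMod p), ZMod.card] at h2
  simpa using h2

theorem exists_common (p : ℕ) [Fact p.Prime] (T : Finset (AlgebraicClosure (ZMod p))) :
    ∃ N : ℕ, 1 ≤ N ∧ ∀ x ∈ T, x ^ (p ^ N) = x := by
  choose f hf1 hf2 using exists_single p
  refine ⟨∏ x ∈ T, f x, Finset.one_le_prod' (fun x _ => hf1 x), ?_⟩
  intro x hx
  obtain ⟨m, hm⟩ := Finset.dvd_prod_of_mem f hx
  rw [hm, pow_mul]
  have h := hf2 x
  clear hm
  induction m with
  | zero => simp
  | succ m ih => rw [pow_succ, pow_mul, ih, h]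

variable {k : Type*} [Field k] [IsAlgClosed k] (p N : ℕ) [hp : Fact p.Prime] [CharP k p]

private theorem exists_root (f : Polynomial k) (hf : f.Separable) (S : Finset k)
    (hS : S.card < f.natDegree) : ∃ t, f.eval t = 0 ∧ t ∉ S := by
  classical
  have h1 : f.roots.toFinset.card = f.natDegree := by
    rw [Multiset.toFinset_card_of_nodup (Polynomial.nodup_roots hf)]
    exact (IsAlgClosed.splits f).natDegree_eq_card_roots.symm
  obtain ⟨t, ht1, ht2⟩ := Finset.exists_mem_notMem_of_card_lt_card (h1 ▸ hS)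
  refine ⟨t, ?_, ht2⟩
  rw [Multiset.mem_toFinset] at ht1
  exact (Polynomial.mem_roots'.mp ht1).2

private theorem exists_prime_big (M : ℕ) (Pr : Finset ℕ) :
    ∃ l : ℕ, l.Prime ∧ l ≠ 2 ∧ l ∉ Pr ∧ M < l := by
  obtain ⟨l, hl1, hl2⟩ := Nat.exists_infinite_primes (M + 3 + Pr.sup id)
  refine ⟨l, hl2, by omega, ?_, by omega⟩
  intro h
  have := Finset.le_sup (f := id) h
  simp only [id] at this
  omega

private theorem lt_q_pow (hN : 1 ≤ N) (l : ℕ) : l < (p ^ N) ^ l := by
  apply Nat.lt_pow_self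
  exact Nat.one_lt_pow (by omega) hp.out.one_lt

theorem exists_left (hN : 1 ≤ N) (Bad : Finset k) (Pr : Finset ℕ) :
    ∃ (l : ℕ) (t : k), l.Prime ∧ l ≠ 2 ∧ l ∉ Pr ∧ t ∉ Bad ∧ t ^ ((p ^ N) ^ l) = t ∧
      t ^ (p ^ N) ≠ t := by
  classical
  have hq1 : 1 < p ^ N := Nat.one_lt_pow (by omega) hp.out.one_lt
  obtain ⟨l, hl, hl2, hlP, hlM⟩ := exists_prime_big (p ^ N + Bad.card) Pr
  have hlq := lt_q_pow p N hN l
  have hsep : (Polynomial.X ^ ((p ^ N) ^ l) - Polynomial.X : Polynomial k).Separable := by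
    apply galois_poly_separable p
    rw [← pow_mul]
    exact dvd_pow_self p (Nat.mul_ne_zero (by omega) hl.ne_zero)
  have hdeg : (Polynomial.X ^ ((p ^ N) ^ l) - Polynomial.X : Polynomial k).natDegree
      = (p ^ N) ^ l := FiniteField.X_pow_card_sub_X_natDegree_eq k
        (Nat.one_lt_pow hl.ne_zero hq1)
  have hdeg2 : (Polynomial.X ^ (p ^ N) - Polynomial.X : Polynomial k).natDegree
      = p ^ N := FiniteField.X_pow_card_sub_X_natDegree_eq k hq1
  have hne : (Polynomial.X ^ (p ^ N) - Polynomial.X : Polynomial k) ≠ 0 :=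
    FiniteField.X_pow_card_sub_X_ne_zero k hq1
  have hc : (Bad ∪ (Polynomial.X ^ (p ^ N) - Polynomial.X : Polynomial k).roots.toFinset).card
      < (Polynomial.X ^ ((p ^ N) ^ l) - Polynomial.X : Polynomial k).natDegree := by
    rw [hdeg]
    refine lt_of_le_of_lt (Finset.card_union_le _ _) ?_
    have h1 := Multiset.toFinset_card_le
      (Polynomial.X ^ (p ^ N) - Polynomial.X : Polynomial k).roots
    have h2 := Polynomial.card_roots' (Polynomial.X ^ (p ^ N) - Polynomial.X : Polynomial k)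
    rw [hdeg2] at h2
    omega
  obtain ⟨t, ht1, ht2⟩ := exists_root _ hsep _ hc
  rw [Finset.mem_union, not_or, Multiset.mem_toFinset, Polynomial.mem_roots hne] at ht2
  refine ⟨l, t, hl, hl2, hlP, ht2.1, ?_, ?_⟩
  · simpa [sub_eq_zero] using ht1
  · intro h
    apply ht2.2
    simp [Polynomial.IsRoot, h]

theorem exists_left_special (hN : 1 ≤ N) (a : k) (ha : a ≠ 0) (Bad : Finset k) (Pr : Finset ℕ) :
    ∃ (l : ℕ) (t : k), l.Prime ∧ l ≠ 2 ∧ l ∉ Pr ∧ t ∉ Bad ∧ t ^ ((p ^ N) ^ l + 1) = a ∧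
      t ^ ((p ^ N) ^ 2) ≠ t ∧ t ^ 2 ≠ a := by
  classical
  have hq1 : 1 < p ^ N := Nat.one_lt_pow (by omega) hp.out.one_lt
  have hq2 : 1 < (p ^ N) ^ 2 := Nat.one_lt_pow (by omega) hq1
  obtain ⟨l, hl, hl2, hlP, hlM⟩ := exists_prime_big ((p ^ N) ^ 2 + 2 + Bad.card) Pr
  have hlq := lt_q_pow p N hN l
  have hsep : (Polynomial.X ^ ((p ^ N) ^ l + 1) - Polynomial.C a : Polynomial k).Separable := by
    apply Polynomial.separable_X_pow_sub_C
    · rw [Nat.cast_add, Nat.cast_pow, Nat.cast_pow, CharP.cast_eq_zero, zero_pow (by omega),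
        zero_pow hl.ne_zero]
      simp
    · exact ha
  have hdeg : (Polynomial.X ^ ((p ^ N) ^ l + 1) - Polynomial.C a : Polynomial k).natDegree
      = (p ^ N) ^ l + 1 := Polynomial.natDegree_X_pow_sub_C
  have hdeg2 : (Polynomial.X ^ ((p ^ N) ^ 2) - Polynomial.X : Polynomial k).natDegree
      = (p ^ N) ^ 2 := FiniteField.X_pow_card_sub_X_natDegree_eq k hq2
  have hne : (Polynomial.X ^ ((p ^ N) ^ 2) - Polynomial.X : Polynomial k) ≠ 0 :=
    FiniteField.X_pow_card_sub_X_ne_zero k hq2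
  have hdeg3 : (Polynomial.X ^ 2 - Polynomial.C a : Polynomial k).natDegree = 2 :=
    Polynomial.natDegree_X_pow_sub_C
  have hne3 : (Polynomial.X ^ 2 - Polynomial.C a : Polynomial k) ≠ 0 := by
    intro h
    rw [h] at hdeg3
    simp at hdeg3
  have hc : (Bad ∪ ((Polynomial.X ^ ((p ^ N) ^ 2) - Polynomial.X : Polynomial k).roots.toFinset
      ∪ (Polynomial.X ^ 2 - Polynomial.C a : Polynomial k).roots.toFinset)).card
      < (Polynomial.X ^ ((p ^ N) ^ l + 1) - Polynomial.C a : Polynomial k).natDegree := by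
    rw [hdeg]
    refine lt_of_le_of_lt (Finset.card_union_le _ _) ?_
    have h0 := Finset.card_union_le
      (Polynomial.X ^ ((p ^ N) ^ 2) - Polynomial.X : Polynomial k).roots.toFinset
      (Polynomial.X ^ 2 - Polynomial.C a : Polynomial k).roots.toFinset
    have h1 := Multiset.toFinset_card_le
      (Polynomial.X ^ ((p ^ N) ^ 2) - Polynomial.X : Polynomial k).roots
    have h2 := Polynomial.card_roots' (Polynomial.X ^ ((p ^ N) ^ 2) - Polynomial.X : Polynomial k)
    rw [hdeg2] at h2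
    have h3 := Multiset.toFinset_card_le
      (Polynomial.X ^ 2 - Polynomial.C a : Polynomial k).roots
    have h4 := Polynomial.card_roots' (Polynomial.X ^ 2 - Polynomial.C a : Polynomial k)
    rw [hdeg3] at h4
    omega
  obtain ⟨t, ht1, ht2⟩ := exists_root _ hsep _ hc
  rw [Finset.mem_union, not_or, Finset.mem_union, not_or, Multiset.mem_toFinset,
    Polynomial.mem_roots hne, Multiset.mem_toFinset, Polynomial.mem_roots hne3] at ht2
  refine ⟨l, t, hl, hl2, hlP, ht2.1, ?_, ?_, ?_⟩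
  · simpa [sub_eq_zero] using ht1
  · intro h
    apply ht2.2.1
    simp [Polynomial.IsRoot, h]
  · intro h
    apply ht2.2.2
    simp [Polynomial.IsRoot, h]

end Prism
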