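import Mathlib

/-!
# MP_343ccd_co, characteristic zero: the sixteen point theorem

Lines of projective 3-space are submodules of dimension 2; two lines are skew if their intersection
is `⊥` and they meet otherwise.  Over a commutative field a line meeting the three members of one
ruling of a 3 x 3 grid of lines meets every line meeting the three members of the other ruling.
-/

namespace Prism

open Module Submodule

section Lines

variable {F W : Type*} [Field F] [AddCommGroup W] [Module F W]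

private theorem indep_of_skew {A B : Submodule F W} (h : A ⊓ B = ⊥) {e f : W} (he : e ∈ A)
    (hf : f ∈ B) (he0 : e ≠ 0) (hf0 : f ≠ 0) (a b : F) (hab : a • e + b • f = 0) :
    a = 0 ∧ b = 0 := by
  have h1 : a • e = -(b • f) := eq_neg_of_add_eq_zero_left hab
  have h2 : a • e ∈ A ⊓ B := ⟨A.smul_mem a he, by rw [h1]; exact B.neg_mem (B.smul_mem b hf)⟩
  rw [h, Submodule.mem_bot] at h2
  have ha : a = 0 := (smul_eq_zero.mp h2).resolve_right he0
  have h3 : b • f = 0 := by simpa [ha] using hab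
  exact ⟨ha, (smul_eq_zero.mp h3).resolve_right hf0⟩

private theorem two_span {A : Submodule F W} (hA : finrank F A = 2) {e f : W} (he : e ∈ A)
    (hf : f ∈ A) (h : ∀ a b : F, a • e + b • f = 0 → a = 0 ∧ b = 0) {x : W} (hx : x ∈ A) :
    ∃ a b : F, x = a • e + b • f := by
  haveI : FiniteDimensional F A := FiniteDimensional.of_finrank_pos (by omega)
  have hli : LinearIndependent F ![(⟨e, he⟩ : A), ⟨f, hf⟩] := by
    rw [LinearIndependent.pair_iff]
    intro a b hab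
    apply h
    simpa using congrArg Subtype.val hab
  have hspan : span F (Set.range ![(⟨e, he⟩ : A), ⟨f, hf⟩]) = ⊤ :=
    hli.span_eq_top_of_card_eq_finrank' (by simp [hA])
  have hm : (⟨x, hx⟩ : A) ∈ span F (Set.range ![(⟨e, he⟩ : A), ⟨f, hf⟩]) := by
    rw [hspan]; trivial
  rw [Matrix.range_cons, Matrix.range_cons, Matrix.range_empty, Set.union_empty,
    Set.singleton_union, Submodule.mem_span_pair] at hm
  obtain ⟨a, b, hab⟩ := hm
  exact ⟨a, b, by simpa using (congrArg Subtype.val hab).symm⟩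

private theorem exists_pts {A0 A1 A2 B : Submodule F W} (hB : finrank F B = 2)
    (h01 : A0 ⊓ A1 = ⊥) (h02 : A0 ⊓ A2 = ⊥) (h12 : A1 ⊓ A2 = ⊥)
    (h0 : B ⊓ A0 ≠ ⊥) (h1 : B ⊓ A1 ≠ ⊥) (h2 : B ⊓ A2 ≠ ⊥) :
    ∃ e f : W, e ∈ A0 ∧ f ∈ A1 ∧ e ∈ B ∧ f ∈ B ∧ e ≠ 0 ∧ f ≠ 0 ∧ e + f ∈ A2 := by
  obtain ⟨u, hu, hu0⟩ := Submodule.exists_mem_ne_zero_of_ne_bot h0
  obtain ⟨v, hv, hv0⟩ := Submodule.exists_mem_ne_zero_of_ne_bot h1
  obtain ⟨w, hw, hw0⟩ := Submodule.exists_mem_ne_zero_of_ne_bot h2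
  obtain ⟨a, b, hab⟩ := two_span hB hu.1 hv.1
    (indep_of_skew h01 hu.2 hv.2 hu0 hv0) hw.1
  have ha : a ≠ 0 := by
    rintro rfl
    have : w ∈ A1 ⊓ A2 := ⟨by rw [hab]; simpa using A1.smul_mem b hv.2, hw.2⟩
    rw [h12] at this
    exact hw0 this
  have hb : b ≠ 0 := by
    rintro rfl
    have : w ∈ A0 ⊓ A2 := ⟨by rw [hab]; simpa using A0.smul_mem a hu.2, hw.2⟩
    rw [h02] at this
    exact hw0 this
  exact ⟨a • u, b • v, A0.smul_mem a hu.2, A1.smul_mem b hv.2, B.smul_mem a hu.1,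
    B.smul_mem b hv.1, smul_ne_zero ha hu0, smul_ne_zero hb hv0, by rw [← hab]; exact hw.2⟩

/-- **Sixteen point theorem.** The lines `A i` are pairwise skew, the lines `B i` are pairwise skew
and every `A i` meets every `B j`.  If `C` meets all `A i` and `D` meets all `B j`, then `C` and `D`
meet. -/
theorem sixteen (A B : Fin 3 → Submodule F W) (C D : Submodule F W)
    (hA : ∀ i, finrank F (A i) = 2) (hB : ∀ i, finrank F (B i) = 2)
    (hC : finrank F C = 2) (hD : finrank F D = 2)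
    (hAA : ∀ i j, i ≠ j → A i ⊓ A j = ⊥) (hBB : ∀ i j, i ≠ j → B i ⊓ B j = ⊥)
    (hBA : ∀ i j, B i ⊓ A j ≠ ⊥) (hCA : ∀ i, C ⊓ A i ≠ ⊥) (hDB : ∀ i, D ⊓ B i ≠ ⊥) :
    C ⊓ D ≠ ⊥ := by
  have a01 := hAA 0 1 (by decide)
  have a02 := hAA 0 2 (by decide)
  have a12 := hAA 1 2 (by decide)
  have b01 := hBB 0 1 (by decide)
  have b02 := hBB 0 2 (by decide)
  have b12 := hBB 1 2 (by decide)
  obtain ⟨e1, f1, e1A, f1A, e1B, f1B, e10, f10, g1⟩ :=
    exists_pts (hB 0) a01 a02 a12 (hBA 0 0) (hBA 0 1) (hBA 0 2)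
  obtain ⟨e2, f2, e2A, f2A, e2B, f2B, e20, f20, g2⟩ :=
    exists_pts (hB 1) a01 a02 a12 (hBA 1 0) (hBA 1 1) (hBA 1 2)
  obtain ⟨e3, f3, e3A, f3A, e3B, f3B, e30, f30, g3⟩ :=
    exists_pts (hB 2) a01 a02 a12 (hBA 2 0) (hBA 2 1) (hBA 2 2)
  obtain ⟨e4, f4, e4A, f4A, e4C, f4C, e40, f40, g4⟩ :=
    exists_pts hC a01 a02 a12 (hCA 0) (hCA 1) (hCA 2)
  obtain ⟨d0, d1, d0B, d1B, d0D, d1D, d00, d10, gd⟩ :=
    exists_pts hD b01 b02 b12 (hDB 0) (hDB 1) (hDB 2)
  have hee := indep_of_skew b01 e1B e2B e10 e20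
  have hff := indep_of_skew b01 f1B f2B f10 f20
  -- independence of the four vectors
  have four : ∀ a b c d : F, a • e1 + b • e2 + (c • f1 + d • f2) = 0 →
      a = 0 ∧ b = 0 ∧ c = 0 ∧ d = 0 := by
    intro a b c d h
    have h1 : a • e1 + b • e2 ∈ A 0 ⊓ A 1 := by
      refine ⟨(A 0).add_mem ((A 0).smul_mem _ e1A) ((A 0).smul_mem _ e2A), ?_⟩
      rw [eq_neg_of_add_eq_zero_left h]
      exact (A 1).neg_mem ((A 1).add_mem ((A 1).smul_mem _ f1A) ((A 1).smul_mem _ f2A))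
    rw [a01, Submodule.mem_bot] at h1
    rw [h1, zero_add] at h
    exact ⟨(hee _ _ h1).1, (hee _ _ h1).2, (hff _ _ h).1, (hff _ _ h).2⟩
  have hg := indep_of_skew b01 ((B 0).add_mem e1B f1B) ((B 1).add_mem e2B f2B)
    (fun h => by
      have := indep_of_skew a01 e1A f1A e10 f10 1 1 (by simpa using h)
      exact one_ne_zero this.1)
    (fun h => by
      have := indep_of_skew a01 e2A f2A e20 f20 1 1 (by simpa using h)
      exact one_ne_zero this.1)
  -- a vector e of `A 0` and a vector f of `A 1` with e + f in `A 2` have the same coordinates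
  have coord : ∀ e f : W, e ∈ A 0 → f ∈ A 1 → e + f ∈ A 2 →
      ∃ p q : F, e = p • e1 + q • e2 ∧ f = p • f1 + q • f2 := by
    intro e f he hf hef
    obtain ⟨p, q, hpq⟩ := two_span (hA 0) e1A e2A hee he
    obtain ⟨p', q', hpq'⟩ := two_span (hA 1) f1A f2A hff hf
    obtain ⟨s, t, hst⟩ := two_span (hA 2) g1 g2 hg hef
    have h := four (p - s) (q - t) (p' - s) (q' - t) (by
      have : e + f - (s • (e1 + f1) + t • (e2 + f2)) = 0 := sub_eq_zero.mpr hst
      rw [hpq, hpq'] at this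
      rw [← this]
      module)
    refine ⟨p, q, hpq, ?_⟩
    have h1 : p' = p := by
      rw [sub_eq_zero.mp h.2.2.1, sub_eq_zero.mp h.1]
    have h2 : q' = q := by
      rw [sub_eq_zero.mp h.2.2.2, sub_eq_zero.mp h.2.1]
    rw [hpq', h1, h2]
  obtain ⟨x, y, hx, hx'⟩ := coord e3 f3 e3A f3A g3
  obtain ⟨p, q, hp, hp'⟩ := coord e4 f4 e4A f4A g4
  have hx0 : x ≠ 0 := by
    rintro rfl
    have : e3 ∈ B 1 ⊓ B 2 := ⟨by rw [hx]; simpa using (B 1).smul_mem y e2B, e3B⟩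
    rw [b12] at this
    exact e30 this
  have hy0 : y ≠ 0 := by
    rintro rfl
    have : e3 ∈ B 0 ⊓ B 2 := ⟨by rw [hx]; simpa using (B 0).smul_mem x e1B, e3B⟩
    rw [b02] at this
    exact e30 this
  obtain ⟨r, s, hd0⟩ := two_span (hB 0) e1B f1B (indep_of_skew a01 e1A f1A e10 f10) d0B
  obtain ⟨r', s', hd1⟩ := two_span (hB 1) e2B f2B (indep_of_skew a01 e2A f2A e20 f20) d1B
  obtain ⟨k, l, hkl⟩ := two_span (hB 2) e3B f3B (indep_of_skew a01 e3A f3A e30 f30) gd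
  have h := four (r - k * x) (r' - k * y) (s - l * x) (s' - l * y) (by
    have : d0 + d1 - (k • e3 + l • f3) = 0 := sub_eq_zero.mpr hkl
    rw [hd0, hd1, hx, hx'] at this
    rw [← this]
    module)
  have hr := sub_eq_zero.mp h.1
  have hr' := sub_eq_zero.mp h.2.1
  have hs := sub_eq_zero.mp h.2.2.1
  have hs' := sub_eq_zero.mp h.2.2.2
  -- the common vector
  have hz : (p * y) • d0 + (q * x) • d1 = (x * y) • (k • e4 + l • f4) := by
    rw [hd0, hd1, hp, hp', hr, hr', hs, hs']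
    module
  intro hbot
  have hmem : (x * y) • (k • e4 + l • f4) ∈ C ⊓ D := by
    refine ⟨C.smul_mem _ (C.add_mem (C.smul_mem _ e4C) (C.smul_mem _ f4C)), ?_⟩
    rw [← hz]
    exact D.add_mem (D.smul_mem _ d0D) (D.smul_mem _ d1D)
  rw [hbot, Submodule.mem_bot] at hmem
  have h5 := (smul_eq_zero.mp hmem).resolve_left (mul_ne_zero hx0 hy0)
  have h6 := indep_of_skew a01 e4A f4A e40 f40 k l h5
  apply d00
  rw [hd0, hr, hs, h6.1, h6.2]
  simp

end Lines

end Prism
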