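import Pool.Agent.Lib.MP_343ccd_co.Stmt

/-!
# MP_343ccd_co: existence of the paving matroids `M(G, X)`
-/

namespace Prism

variable {V : Type*} [DecidableEq V]

/-- a set of `H_G` is the product of an edge and a pair of letters -/
private theorem prismSet_prod {G : SimpleGraph V} {S : Finset (V × Fin 3)} (h : PrismSet G S) :
    ∃ (A : Finset V) (B : Finset (Fin 3)), A.card = 2 ∧ B.card = 2 ∧ S = A ×ˢ B := by
  obtain ⟨u, v, huv, l, l', hl, rfl⟩ := h
  refine ⟨{u, v}, {l, l'}, Finset.card_pair huv.ne, Finset.card_pair hl, ?_⟩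
  ext ⟨a, b⟩
  simp only [Finset.mem_insert, Finset.mem_singleton, Prod.mk.injEq, Finset.mem_product]
  tauto

/-- every member of `H_G` has four elements -/
theorem PrismSet.card_eq {G : SimpleGraph V} {S : Finset (V × Fin 3)} (h : PrismSet G S) :
    S.card = 4 := by
  obtain ⟨A, B, hA, hB, rfl⟩ := prismSet_prod h
  rw [Finset.card_product, hA, hB]

/-- two different members of `H_G` share at most two elements -/
private theorem prismSet_inter {G : SimpleGraph V} {S T : Finset (V × Fin 3)} (hS : PrismSet G S)
    (hT : PrismSet G T) (h : 3 ≤ (S ∩ T).card) : S = T := by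
  obtain ⟨A, B, hA, hB, rfl⟩ := prismSet_prod hS
  obtain ⟨A', B', hA', hB', rfl⟩ := prismSet_prod hT
  rw [Finset.product_inter_product, Finset.card_product] at h
  have h1 : (A ∩ A').card ≤ 2 := hA ▸ Finset.card_le_card Finset.inter_subset_left
  have h2 : (B ∩ B').card ≤ 2 := hB ▸ Finset.card_le_card Finset.inter_subset_left
  have h3 : (A ∩ A').card = 2 := by
    interval_cases (A ∩ A').card <;> omega
  have h4 : (B ∩ B').card = 2 := by
    interval_cases (B ∩ B').card <;> omega
  have e1 : A ∩ A' = A := Finset.eq_of_subset_of_card_le Finset.inter_subset_left (by omega)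
  have e2 : A ∩ A' = A' := Finset.eq_of_subset_of_card_le Finset.inter_subset_right (by omega)
  have e3 : B ∩ B' = B := Finset.eq_of_subset_of_card_le Finset.inter_subset_left (by omega)
  have e4 : B ∩ B' = B' := Finset.eq_of_subset_of_card_le Finset.inter_subset_right (by omega)
  rw [← e1, e2, ← e3, e4]

/-- the matroid `M(G, X)` exists -/
theorem exists_paving [Finite V] (G : SimpleGraph V) (X : Finset (V × Fin 3)) {a b : V}
    (hab : a ≠ b) : ∃ M : Matroid (V × Fin 3), IsPaving4 (fun S => PrismSet G S ∧ S ≠ X) M := by
  classical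
  let P : Set (V × Fin 3) → Prop :=
    fun B => ∃ S : Finset (V × Fin 3), B = ↑S ∧ S.card = 4 ∧ ¬ (PrismSet G S ∧ S ≠ X)
  have hex : ∃ B, P B := by
    refine ⟨_, ({(a, 0), (a, 1), (a, 2), (b, 0)} : Finset (V × Fin 3)), rfl, ?_, ?_⟩
    · rw [Finset.card_insert_of_notMem, Finset.card_insert_of_notMem,
        Finset.card_insert_of_notMem, Finset.card_singleton] <;> simp [hab]
    · rintro ⟨h, -⟩
      obtain ⟨A, B, hA, hB, hS⟩ := prismSet_prod h
      have h0 : (a, (0 : Fin 3)) ∈ A ×ˢ B := by rw [← hS]; simp
      have h1 : (a, (1 : Fin 3)) ∈ A ×ˢ B := by rw [← hS]; simp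
      have h2 : (a, (2 : Fin 3)) ∈ A ×ˢ B := by rw [← hS]; simp
      rw [Finset.mem_product] at h0 h1 h2
      have : (Finset.univ : Finset (Fin 3)) ⊆ B := by
        intro i _
        fin_cases i
        · exact h0.2
        · exact h1.2
        · exact h2.2
      have := Finset.card_le_card this
      rw [Finset.card_univ, Fintype.card_fin] at this
      omega
  have hexch : Matroid.ExchangeProperty P := by
    rintro B1 B2 ⟨S, rfl, hS, hSH⟩ ⟨T, rfl, hT, hTH⟩ x ⟨hxS, hxT⟩
    rw [Finset.mem_coe] at hxS hxT
    have hcardeq : (T \ S).card = (S \ T).card := by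
      have e1 := Finset.card_sdiff_add_card_inter S T
      have e2 := Finset.card_sdiff_add_card_inter T S
      rw [Finset.inter_comm] at e2
      omega
    have hpos : 0 < (T \ S).card := by
      rw [hcardeq]
      exact Finset.card_pos.mpr ⟨x, Finset.mem_sdiff.mpr ⟨hxS, hxT⟩⟩
    -- the exchange with `y` gives a set of four elements
    have hc4 : ∀ y ∈ T \ S, (insert y (S.erase x)).card = 4 := by
      intro y hy
      rw [Finset.mem_sdiff] at hy
      rw [Finset.card_insert_of_notMem (fun h => hy.2 (Finset.mem_of_mem_erase h)),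
        Finset.card_erase_of_mem hxS]
      omega
    suffices h : ∃ y ∈ T \ S, ¬ (PrismSet G (insert y (S.erase x)) ∧ insert y (S.erase x) ≠ X) by
      obtain ⟨y, hy, hyH⟩ := h
      refine ⟨y, ?_, insert y (S.erase x), ?_, hc4 y hy, hyH⟩
      · rw [Finset.mem_sdiff] at hy
        exact hy
      · ext z
        simp only [Set.mem_insert_iff, Set.mem_sdiff, Finset.mem_coe, Set.mem_singleton_iff,
          Finset.coe_insert, Finset.coe_erase]
    by_contra hcon
    push Not at hcon
    rcases Nat.lt_or_ge 1 (T \ S).card with h2 | h1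
    · obtain ⟨y, hy, z, hz, hyz⟩ := Finset.one_lt_card.mp h2
      have hY := (hcon y hy).1
      have hZ := (hcon z hz).1
      have hYZ := prismSet_inter hY hZ (by
        have : S.erase x ⊆ insert y (S.erase x) ∩ insert z (S.erase x) :=
          Finset.subset_inter (Finset.subset_insert _ _) (Finset.subset_insert _ _)
        have := Finset.card_le_card this
        rw [Finset.card_erase_of_mem hxS] at this
        omega)
      have hy' : y ∈ insert z (S.erase x) := by rw [← hYZ]; exact Finset.mem_insert_self _ _
      rw [Finset.mem_insert] at hy'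
      rcases hy' with h | h
      · exact hyz h
      · exact (Finset.mem_sdiff.mp hy).2 (Finset.mem_of_mem_erase h)
    · have h1' : (T \ S).card = 1 := by omega
      have h1'' : (S \ T).card = 1 := by omega
      obtain ⟨y, hy⟩ := Finset.card_eq_one.mp h1'
      obtain ⟨x', hx'⟩ := Finset.card_eq_one.mp h1''
      have hxx : x = x' := by
        have : x ∈ S \ T := Finset.mem_sdiff.mpr ⟨hxS, hxT⟩
        rw [hx', Finset.mem_singleton] at this
        exact this
      subst hxx
      have hyT : y ∈ T \ S := by rw [hy]; exact Finset.mem_singleton_self _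
      have hTe : insert y (S.erase x) = T := by
        refine Finset.eq_of_subset_of_card_le ?_ (by rw [hc4 y hyT, hT])
        intro z hz
        rw [Finset.mem_insert] at hz
        rcases hz with h | h
        · subst h; exact (Finset.mem_sdiff.mp hyT).1
        · rw [Finset.mem_erase] at h
          by_contra hzT
          have : z ∈ S \ T := Finset.mem_sdiff.mpr ⟨h.2, hzT⟩
          rw [hx', Finset.mem_singleton] at this
          exact h.1 this
      have := hcon y hyT
      rw [hTe] at this
      exact hTH this
  refine ⟨Matroid.ofIsBaseOfFinite (E := Set.univ) Set.finite_univ P hex hexch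
    (fun _ _ => Set.subset_univ _), rfl, fun B => ?_⟩
  rfl

end Prism
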