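import Pool.Agent.Lib.MP_343ccd_co.Defs

/-!
# MP_343ccd_co, module Tool: exchange for algebraic independence

PROOF.  Use the finitary matroid `N = AlgebraicIndependent.matroid k A` of Mathlib
(`matroid_indep_iff`, `matroid_closure_eq`: the closure of `s` is the algebraic closure of
`Algebra.adjoin k s` in `A`).  The family `f` is injective with independent range, of `4` elements
(`AlgebraicIndependent.injective`, `AlgebraicIndependent.range` or the like), contained in the
closure of `range g`, so `4 = eRk (range f) ≤ eRk (closure (range g)) = eRk (range g) ≤ encard (range g) ≤ 4`.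
Hence `range g` has `4` elements (so `g` is injective) and `eRk = encard` means that it is
independent; conclude with the injectivity of `g` that the family `g` is algebraically independent.
-/

namespace Prism

theorem exchange {k : Type*} [Field k] {A : Type*} [CommRing A] [IsDomain A] [Algebra k A]
    (f g : Fin 4 → A) (hf : AlgebraicIndependent k f)
    (h : ∀ i, IsAlgebraic (Algebra.adjoin k (Set.range g)) (f i)) :
    AlgebraicIndependent k g := by
  classical
  have : FaithfulSMul k A := (faithfulSMul_iff_algebraMap_injective k A).2
    (algebraMap k A).injective
  have hsub : Set.range f ⊆ (AlgebraicIndependent.matroid k A).closure (Set.range g) := by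
    rw [AlgebraicIndependent.matroid_closure_eq]
    rintro _ ⟨i, rfl⟩
    exact h i
  have hfi : (AlgebraicIndependent.matroid k A).Indep (Set.range f) :=
    AlgebraicIndependent.matroid_indep_iff.2 hf.to_subtype_range
  have h1 : (4 : ℕ∞) ≤ (AlgebraicIndependent.matroid k A).eRk (Set.range g) := by
    have h2 := (AlgebraicIndependent.matroid k A).eRk_mono hsub
    rw [Matroid.eRk_closure_eq, hfi.eRk_eq_encard, ← Set.image_univ,
      hf.injective.encard_image, Set.encard_univ] at h2
    simpa using h2
  have h3 : (Set.range g).encard ≤ 4 := by
    rw [← Set.image_univ]
    refine (Set.encard_image_le _ _).trans ?_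
    rw [Set.encard_univ]
    simp
  have h4 := (AlgebraicIndependent.matroid k A).eRk_le_encard (Set.range g)
  have h5 : (Set.range g).encard = 4 := le_antisymm h3 (h1.trans h4)
  have hfin : (Set.range g).Finite := Set.finite_range g
  have hgi : (AlgebraicIndependent.matroid k A).Indep (Set.range g) := by
    rw [Matroid.indep_iff_eRk_eq_encard_of_finite hfin]
    exact le_antisymm h4 (h5 ▸ h1)
  have hinj : Function.Injective g := by
    have h6 : Set.InjOn g Set.univ := by
      refine Set.finite_univ.injOn_of_encard_image_eq ?_
      rw [Set.image_univ, h5, Set.encard_univ]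
      simp
    exact Set.injOn_univ.1 h6
  exact AlgebraicIndependent.of_subtype_range hinj
    (AlgebraicIndependent.matroid_indep_iff.1 hgi)

end Prism
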