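import Pool.Agent.Lib.MP_343ccd_co.Defs

/-!
# MP_343ccd_co, module XY: the spanning elements `X1, X2` (left) and `Y1, Y2` (right) of a type

For the type parameter `s` put
`e0 = T_0 + (s + s⁻¹) T_2` (that is `(z² + s)(z² + s⁻¹)`), `e1 = T_1 + s⁻¹ T_3` (`z (z² + s⁻¹)`),
`e2 = T_1 + s T_3` (`z (z² + s)`), `e3 = T_2` (`z²`).

PROOF of `lelt_eq`: with `i` the type, `l = i + 1` has the types `i + 2` and `i + 3 = i`, `l = i + 2`
has the types `i` and `i + 1`.  Comparing the coefficients of `T_0, .., T_3`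
(`phi = t + s_i / t`, `t ≠ 0`, `s_i ≠ 0`).
PROOF of `relt_eq`: the same identity in the commutative ring `F[X]` applied to `T_j`.
-/

namespace Prism

open Polynomial

variable {k : Type*} [Field k]

private theorem xy_fin (i : Fin 3) : i + 1 + 1 = i + 2 ∧ i + 1 + 2 = i ∧ i + 2 + 1 = i ∧
    i + 2 + 2 = i + 1 := by
  revert i
  decide

private theorem xy_lin (A B ph s : k) : MvPolynomial.C A * X1 s ph - MvPolynomial.C B * X2 s ph =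
    MvPolynomial.C A * MvPolynomial.X 0 + MvPolynomial.C (-(A * ph) - B) * MvPolynomial.X 1 +
      MvPolynomial.C (A * (s + s⁻¹) + B * ph) * MvPolynomial.X 2 +
      MvPolynomial.C (-(A * ph * s⁻¹) - B * s) * MvPolynomial.X 3 := by
  unfold X1 X2 e0 e1 e2 e3
  simp only [map_add, map_sub, map_mul, map_neg]
  ring

private theorem xy_left (a b t : k) (ha : a ≠ 0) (ht : t ≠ 0) :
    ∑ j, MvPolynomial.C (vec (a * b) (a + b) t 1 j) * (MvPolynomial.X j : MvPolynomial (Fin 4) k) =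
      MvPolynomial.C (a * b * t ^ 2) * X1 a (t + a / t)
        - MvPolynomial.C (a * b ^ 2 * t + t ^ 3) * X2 a (t + a / t) := by
  rw [xy_lin, Fin.sum_univ_four]
  have h0 : vec (a * b) (a + b) t 1 0 = a * b * t ^ 2 := by
    simp [vec]
  have h1 : vec (a * b) (a + b) t 1 1 = -(a * b * t ^ 2 * (t + a / t)) - (a * b ^ 2 * t + t ^ 3) := by
    simp only [vec, Matrix.cons_val_one, Matrix.cons_val_zero]
    field_simp
    ring
  have h2 : vec (a * b) (a + b) t 1 2 = a * b * t ^ 2 * (a + a⁻¹) +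
      (a * b ^ 2 * t + t ^ 3) * (t + a / t) := by
    simp only [vec, Matrix.cons_val]
    field_simp
    ring
  have h3 : vec (a * b) (a + b) t 1 3 = -(a * b * t ^ 2 * (t + a / t) * a⁻¹) -
      (a * b ^ 2 * t + t ^ 3) * a := by
    simp only [vec, Matrix.cons_val]
    field_simp
    ring
  rw [h0, h1, h2, h3]

theorem lelt_eq (s : Fin 3 → k) (t : k) (hs : ∀ i, s i ≠ 0) (ht : t ≠ 0) (i : Fin 3) :
    lelt s t (i + 1) = MvPolynomial.C (s i * s (i + 2) * t ^ 2) * X1 (s i) (t + s i / t)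
        - MvPolynomial.C (s i * s (i + 2) ^ 2 * t + t ^ 3) * X2 (s i) (t + s i / t) ∧
      lelt s t (i + 2) = MvPolynomial.C (s i * s (i + 1) * t ^ 2) * X1 (s i) (t + s i / t)
        - MvPolynomial.C (s i * s (i + 1) ^ 2 * t + t ^ 3) * X2 (s i) (t + s i / t) := by
  obtain ⟨h1, h2, h3, h4⟩ := xy_fin i
  constructor
  · rw [← xy_left (s i) (s (i + 2)) t (hs i) ht]
    unfold lelt cvec sv
    simp only [h1, h2, Bool.false_eq_true, if_false]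
    rw [mul_comm (s (i + 2)), add_comm (s (i + 2))]
  · rw [← xy_left (s i) (s (i + 1)) t (hs i) ht]
    unfold lelt cvec sv
    simp only [h3, h4, Bool.false_eq_true, if_false]

variable (p m : ℕ) [hp : Fact p.Prime] [CharP k p] (F : Subfield k)
  (hF : ∀ c ∈ F, c ^ (p ^ m) = c)

private theorem xy_actC (g : F[X]) (c : F) (x : MvPolynomial (Fin 4) k) :
    act p m F hF g (MvPolynomial.C (c : k) * x) = act p m F hF (g * C c) x := by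
  rw [map_mul (act p m F hF), Module.End.mul_apply]
  congr 1
  unfold act
  rw [Polynomial.aeval_C, Module.algebraMap_end_apply, ← MvPolynomial.smul_eq_C_mul]
  rfl

private theorem xy_ring {R : Type*} [CommRing R] (a b c w1 w2 : R) (h : a * c = 1) :
    (-((a * b + 1) * w1 ^ 3 * w2 + a * b * (a + b) * w1 * w2 ^ 3) =
      -(a * b * w1 * w2 * (w1 ^ 2 + a * w2 ^ 2)) - (a * b ^ 2 * w2 ^ 2 + w1 ^ 2) * (w1 * w2)) ∧
    (w1 ^ 4 + (a + b) * (a * b + 1) * w1 ^ 2 * w2 ^ 2 + (a * b) ^ 2 * w2 ^ 4 =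
      a * b * w1 * w2 * (w1 * w2) * (c + a) +
        (a * b ^ 2 * w2 ^ 2 + w1 ^ 2) * (w1 ^ 2 + a * w2 ^ 2)) ∧
    (-((a + b) * w1 ^ 3 * w2 + a * b * (a * b + 1) * w1 * w2 ^ 3) =
      -(a * b * w1 * w2 * (w1 ^ 2 + a * w2 ^ 2) * c) -
        (a * b ^ 2 * w2 ^ 2 + w1 ^ 2) * (w1 * w2) * a) := by
  refine ⟨by ring, ?_, ?_⟩
  · linear_combination (-(b * w1 ^ 2 * w2 ^ 2)) * h
  · linear_combination (b * w1 * w2 * (w1 ^ 2 + a * w2 ^ 2)) * h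

private theorem xy_right (a b : F) (ha : a ≠ 0) (w1 w2 : F[X]) :
    ∑ j, act p m F hF (vec (C (a⁻¹ * b⁻¹)) (C (a⁻¹ + b⁻¹)) w1 w2 j) (MvPolynomial.X j) =
      act p m F hF (C (a⁻¹ * b⁻¹) * w1 * w2)
        (Y1 p m F hF (a : k) (w1 * w2) (w1 ^ 2 + C a⁻¹ * w2 ^ 2))
      - act p m F hF (C (a⁻¹ * b⁻¹ ^ 2) * w2 ^ 2 + w1 ^ 2)
        (Y2 p m F hF (a : k) (w1 * w2) (w1 ^ 2 + C a⁻¹ * w2 ^ 2)) := by
  have hc : (C a⁻¹ : F[X]) * C a = 1 := by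
    rw [← C_mul, inv_mul_cancel₀ ha, C_1]
  obtain ⟨r1, r2, r3⟩ := xy_ring (C a⁻¹ : F[X]) (C b⁻¹) (C a) w1 w2 hc
  have e0' : e0 (a : k) = MvPolynomial.X 0 +
      MvPolynomial.C ((a + a⁻¹ : F) : k) * MvPolynomial.X 2 := by
    unfold e0
    push_cast
    rfl
  have e1' : e1 (a : k) = MvPolynomial.X 1 +
      MvPolynomial.C ((a⁻¹ : F) : k) * MvPolynomial.X 3 := by
    unfold e1
    push_cast
    rfl
  have e2' : e2 (a : k) = MvPolynomial.X 1 +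
      MvPolynomial.C (a : k) * MvPolynomial.X 3 := rfl
  unfold Y1 Y2
  rw [e0', e1', e2']
  unfold e3
  simp only [map_sub, map_add (act p m F hF _), xy_actC]
  simp only [← Module.End.mul_apply, ← map_mul]
  rw [Fin.sum_univ_four]
  have h0 : vec (C (a⁻¹ * b⁻¹) : F[X]) (C (a⁻¹ + b⁻¹)) w1 w2 0 =
      C (a⁻¹ * b⁻¹) * w1 * w2 * (w1 * w2) := by
    simp only [vec, Matrix.cons_val_zero]
    ring
  have h1 : vec (C (a⁻¹ * b⁻¹) : F[X]) (C (a⁻¹ + b⁻¹)) w1 w2 1 =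
      -(C (a⁻¹ * b⁻¹) * w1 * w2 * (w1 ^ 2 + C a⁻¹ * w2 ^ 2)) -
        (C (a⁻¹ * b⁻¹ ^ 2) * w2 ^ 2 + w1 ^ 2) * (w1 * w2) := by
    simp only [vec, Matrix.cons_val_one, Matrix.cons_val_zero, C_mul, C_add, C_pow]
    exact r1
  have h2 : vec (C (a⁻¹ * b⁻¹) : F[X]) (C (a⁻¹ + b⁻¹)) w1 w2 2 =
      C (a⁻¹ * b⁻¹) * w1 * w2 * (w1 * w2 * (C (a + a⁻¹))) +
        (C (a⁻¹ * b⁻¹ ^ 2) * w2 ^ 2 + w1 ^ 2) * (w1 ^ 2 + C a⁻¹ * w2 ^ 2) := by
    simp only [vec, Matrix.cons_val, C_mul, C_add, C_pow]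
    rw [← mul_assoc (C a⁻¹ * C b⁻¹ * w1 * w2)]
    exact r2
  have h3 : vec (C (a⁻¹ * b⁻¹) : F[X]) (C (a⁻¹ + b⁻¹)) w1 w2 3 =
      -(C (a⁻¹ * b⁻¹) * w1 * w2 * ((w1 ^ 2 + C a⁻¹ * w2 ^ 2) * C a)) -
        (C (a⁻¹ * b⁻¹ ^ 2) * w2 ^ 2 + w1 ^ 2) * (w1 * w2 * C a⁻¹) := by
    simp only [vec, Matrix.cons_val, C_mul, C_add, C_pow]
    rw [← mul_assoc (C a⁻¹ * C b⁻¹ * w1 * w2),
      ← mul_assoc (C a⁻¹ * C b⁻¹ ^ 2 * w2 ^ 2 + w1 ^ 2) (w1 * w2)]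
    exact r3
  rw [h0, h1, h2, h3]
  simp only [map_sub (act p m F hF), map_add (act p m F hF), map_neg (act p m F hF),
    LinearMap.sub_apply, LinearMap.add_apply, LinearMap.neg_apply]
  generalize (act p m F hF (C (a⁻¹ * b⁻¹) * w1 * w2 * (w1 * w2))) (MvPolynomial.X 0) = y1
  generalize (act p m F hF (C (a⁻¹ * b⁻¹) * w1 * w2 * (w1 ^ 2 + C a⁻¹ * w2 ^ 2)))
    (MvPolynomial.X 1) = y2
  generalize (act p m F hF ((C (a⁻¹ * b⁻¹ ^ 2) * w2 ^ 2 + w1 ^ 2) * (w1 * w2)))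
    (MvPolynomial.X 1) = y3
  generalize (act p m F hF (C (a⁻¹ * b⁻¹) * w1 * w2 * (w1 * w2 * C (a + a⁻¹))))
    (MvPolynomial.X 2) = y4
  generalize (act p m F hF ((C (a⁻¹ * b⁻¹ ^ 2) * w2 ^ 2 + w1 ^ 2) * (w1 ^ 2 + C a⁻¹ * w2 ^ 2)))
    (MvPolynomial.X 2) = y5
  generalize (act p m F hF (C (a⁻¹ * b⁻¹) * w1 * w2 * ((w1 ^ 2 + C a⁻¹ * w2 ^ 2) * C a)))
    (MvPolynomial.X 3) = y6
  generalize (act p m F hF ((C (a⁻¹ * b⁻¹ ^ 2) * w2 ^ 2 + w1 ^ 2) * (w1 * w2 * C a⁻¹)))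
    (MvPolynomial.X 3) = y7
  ring

theorem relt_eq (s : Fin 3 → F) (hs : ∀ i, s i ≠ 0) (w1 w2 : F[X]) (i : Fin 3) :
    relt p m F hF s w1 w2 (i + 1) =
      act p m F hF (C ((s i)⁻¹ * (s (i + 2))⁻¹) * w1 * w2)
        (Y1 p m F hF (s i : k) (w1 * w2) (w1 ^ 2 + C (s i)⁻¹ * w2 ^ 2))
      - act p m F hF (C ((s i)⁻¹ * (s (i + 2))⁻¹ ^ 2) * w2 ^ 2 + w1 ^ 2)
        (Y2 p m F hF (s i : k) (w1 * w2) (w1 ^ 2 + C (s i)⁻¹ * w2 ^ 2)) ∧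
    relt p m F hF s w1 w2 (i + 2) =
      act p m F hF (C ((s i)⁻¹ * (s (i + 1))⁻¹) * w1 * w2)
        (Y1 p m F hF (s i : k) (w1 * w2) (w1 ^ 2 + C (s i)⁻¹ * w2 ^ 2))
      - act p m F hF (C ((s i)⁻¹ * (s (i + 1))⁻¹ ^ 2) * w2 ^ 2 + w1 ^ 2)
        (Y2 p m F hF (s i : k) (w1 * w2) (w1 ^ 2 + C (s i)⁻¹ * w2 ^ 2)) := by
  obtain ⟨h1, h2, h3, h4⟩ := xy_fin i
  constructor
  · rw [← xy_right p m F hF (s i) (s (i + 2)) (hs i) w1 w2]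
    unfold relt
    simp only [h1, h2]
    rw [mul_comm (s (i + 2))⁻¹, add_comm (s (i + 2))⁻¹]
  · rw [← xy_right p m F hF (s i) (s (i + 1)) (hs i) w1 w2]
    unfold relt
    simp only [h3, h4]

end Prism
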