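import Pool.Agent.Lib.MP_343ccd_co.XY
import Pool.Agent.Lib.MP_343ccd_co.ActB
import Pool.Agent.Lib.MP_343ccd_co.Tool

/-!
# MP_343ccd_co, module XYDep: dependent cross sets

`XY_dep`: if `phi ^ ((p^m)^n) = phi` for all `n` in the supports of `d` and `v`, then
`Y1 = act d X1 - act v X2 + phi Y2`.  `cross_dep`: the four letters are in
`Algebra.adjoin k (range ![X1, X2, Y1, Y2])`; `exchange`.
-/

namespace Prism

open Polynomial

variable {k : Type*} [Field k] (p m : ℕ) [hp : Fact p.Prime] [CharP k p] (F : Subfield k)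
  (hF : ∀ c ∈ F, c ^ (p ^ m) = c)

theorem XY_dep (s phi : k) (d v : F[X])
    (h : ∀ n, (d.coeff n ≠ 0 ∨ v.coeff n ≠ 0) → phi ^ ((p ^ m) ^ n) = phi) :
    ¬ AlgebraicIndependent k ![X1 s phi, X2 s phi, Y1 p m F hF s d v, Y2 p m F hF s d v] := by
  intro hI
  have hrel : Y1 p m F hF s d v = act p m F hF d (X1 s phi) - act p m F hF v (X2 s phi) +
      MvPolynomial.C phi * Y2 p m F hF s d v := by
    unfold Y1 Y2 X1 X2
    rw [map_sub, map_sub, act_C_mul p m F hF d phi (fun n hn => h n (Or.inl hn)),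
      act_C_mul p m F hF v phi (fun n hn => h n (Or.inr hn))]
    ring
  set g : Fin 4 → MvPolynomial (Fin 4) k :=
    ![X1 s phi, X2 s phi, Y2 p m F hF s d v, Y2 p m F hF s d v] with hg
  have key : AlgebraicIndependent k g := by
    refine exchange _ _ hI ?_
    set A := Algebra.adjoin k (Set.range g) with hA
    have m0 : X1 s phi ∈ A := Algebra.subset_adjoin ⟨0, rfl⟩
    have m1 : X2 s phi ∈ A := Algebra.subset_adjoin ⟨1, rfl⟩
    have m3 : Y2 p m F hF s d v ∈ A := Algebra.subset_adjoin ⟨3, rfl⟩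
    have alg : ∀ z ∈ A, IsAlgebraic A z := fun z hz =>
      isAlgebraic_algebraMap (⟨z, hz⟩ : A)
    intro i
    fin_cases i
    · exact alg _ m0
    · exact alg _ m1
    · change IsAlgebraic A (Y1 p m F hF s d v)
      refine alg _ ?_
      rw [hrel]
      exact A.add_mem (A.sub_mem (act_mem_adjoin p m F hF d _ A m0)
        (act_mem_adjoin p m F hF v _ A m1)) (A.mul_mem (A.algebraMap_mem phi) m3)
    · exact alg _ m3
  have h23 : (2 : Fin 4) = 3 := key.injective rfl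
  exact absurd h23 (by decide)

theorem cross_dep (s : Fin 3 → F) (hs : ∀ i, s i ≠ 0) (t : k) (ht : t ≠ 0) (w1 w2 : F[X])
    (i : Fin 3)
    (h : ∀ n, ((w1 * w2).coeff n ≠ 0 ∨ (w1 ^ 2 + C (s i)⁻¹ * w2 ^ 2).coeff n ≠ 0) →
      (t + s i / t) ^ ((p ^ m) ^ n) = t + s i / t) :
    ¬ AlgebraicIndependent k ![lelt (fun j => (s j : k)) t (i + 1),
      lelt (fun j => (s j : k)) t (i + 2), relt p m F hF s w1 w2 (i + 1),
      relt p m F hF s w1 w2 (i + 2)] := by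
  intro hI
  refine XY_dep p m F hF (s i : k) (t + s i / t) (w1 * w2) (w1 ^ 2 + C (s i)⁻¹ * w2 ^ 2) h ?_
  refine exchange _ _ hI ?_
  set A := Algebra.adjoin k (Set.range ![X1 (s i : k) (t + s i / t), X2 (s i : k) (t + s i / t),
    Y1 p m F hF (s i : k) (w1 * w2) (w1 ^ 2 + C (s i)⁻¹ * w2 ^ 2),
    Y2 p m F hF (s i : k) (w1 * w2) (w1 ^ 2 + C (s i)⁻¹ * w2 ^ 2)]) with hA
  have m0 : X1 (s i : k) (t + s i / t) ∈ A := Algebra.subset_adjoin ⟨0, rfl⟩
  have m1 : X2 (s i : k) (t + s i / t) ∈ A := Algebra.subset_adjoin ⟨1, rfl⟩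
  have m2 : Y1 p m F hF (s i : k) (w1 * w2) (w1 ^ 2 + C (s i)⁻¹ * w2 ^ 2) ∈ A :=
    Algebra.subset_adjoin ⟨2, rfl⟩
  have m3 : Y2 p m F hF (s i : k) (w1 * w2) (w1 ^ 2 + C (s i)⁻¹ * w2 ^ 2) ∈ A :=
    Algebra.subset_adjoin ⟨3, rfl⟩
  have alg : ∀ z ∈ A, IsAlgebraic A z := fun z hz =>
    isAlgebraic_algebraMap (⟨z, hz⟩ : A)
  have hs' : ∀ j, ((fun j => (s j : k)) j) ≠ 0 := fun j hj => hs j (Subtype.ext hj)
  obtain ⟨l1, l2⟩ := lelt_eq (fun j => (s j : k)) t hs' ht i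
  obtain ⟨r1, r2⟩ := relt_eq p m F hF s hs w1 w2 i
  intro j
  fin_cases j
  · refine alg _ ?_
    change lelt (fun j => (s j : k)) t (i + 1) ∈ A
    rw [l1]
    exact A.sub_mem (A.mul_mem (A.algebraMap_mem _) m0) (A.mul_mem (A.algebraMap_mem _) m1)
  · refine alg _ ?_
    change lelt (fun j => (s j : k)) t (i + 2) ∈ A
    rw [l2]
    exact A.sub_mem (A.mul_mem (A.algebraMap_mem _) m0) (A.mul_mem (A.algebraMap_mem _) m1)
  · refine alg _ ?_
    change relt p m F hF s w1 w2 (i + 1) ∈ A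
    rw [r1]
    exact A.sub_mem (act_mem_adjoin p m F hF _ _ A m2) (act_mem_adjoin p m F hF _ _ A m3)
  · refine alg _ ?_
    change relt p m F hF s w1 w2 (i + 2) ∈ A
    rw [r2]
    exact A.sub_mem (act_mem_adjoin p m F hF _ _ A m2) (act_mem_adjoin p m F hF _ _ A m3)

end Prism
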