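import Pool.Agent.Lib.MP_343ccd_co.XY
import Pool.Agent.Lib.MP_343ccd_co.ActB
import Pool.Agent.Lib.MP_343ccd_co.Tool
import Pool.Agent.Lib.MP_343ccd_co.LemJ

/-!
# MP_343ccd_co, module XYInd: independence of `X1, X2, Y1, Y2`

`Z1 := Y1 - act d X1 + act v X2`; `Z1 - phi Y2` is a `Q^n0`-th power of an element `V`, and
`X1, X2, V, Y2` have linearly independent linear parts.
-/

namespace Prism

open Polynomial

section coeffs

variable {k : Type*} [Field k]

private theorem xi_coeff_mul (x y : MvPolynomial (Fin 4) k) (j : Fin 4) :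
    MvPolynomial.coeff (Finsupp.single j 1) (x * y) =
      MvPolynomial.coeff 0 x * MvPolynomial.coeff (Finsupp.single j 1) y +
        MvPolynomial.coeff (Finsupp.single j 1) x * MvPolynomial.coeff 0 y := by
  classical
  rw [MvPolynomial.coeff_mul, Finsupp.antidiagonal_single, Finset.sum_map]
  have h : (Finset.HasAntidiagonal.antidiagonal (1 : ℕ)) = {((0 : ℕ), (1 : ℕ)), (1, 0)} := by
    rfl
  rw [h, Finset.sum_pair (by decide)]
  simp

private theorem xi_coeff0_mul (x y : MvPolynomial (Fin 4) k) :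
    MvPolynomial.coeff 0 (x * y) = MvPolynomial.coeff 0 x * MvPolynomial.coeff 0 y := by
  have := map_mul (MvPolynomial.constantCoeff (R := k) (σ := Fin 4)) x y
  simpa only [MvPolynomial.constantCoeff_eq] using this

private theorem xi_coeff0_pow (x : MvPolynomial (Fin 4) k) (hx : MvPolynomial.coeff 0 x = 0)
    {n : ℕ} (hn : 1 ≤ n) : MvPolynomial.coeff 0 (x ^ n) = 0 := by
  obtain ⟨n, rfl⟩ : ∃ n', n = n' + 1 := ⟨n - 1, by omega⟩
  rw [pow_succ, xi_coeff0_mul, hx, mul_zero]

private theorem xi_coeff1_pow (x : MvPolynomial (Fin 4) k) (hx : MvPolynomial.coeff 0 x = 0)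
    {n : ℕ} (hn : 2 ≤ n) (j : Fin 4) :
    MvPolynomial.coeff (Finsupp.single j 1) (x ^ n) = 0 := by
  obtain ⟨n, rfl⟩ : ∃ n', n = n' + 1 := ⟨n - 1, by omega⟩
  rw [pow_succ, xi_coeff_mul, hx, mul_zero, xi_coeff0_pow x hx (by omega), zero_mul, add_zero]

private theorem xi_coeff_C_mul (c : k) (x : MvPolynomial (Fin 4) k) (m : Fin 4 →₀ ℕ) :
    MvPolynomial.coeff m (MvPolynomial.C c * x) = c * MvPolynomial.coeff m x :=
  MvPolynomial.coeff_C_mul _ _ _

private theorem xi_coeff_X (i : Fin 4) (j : Fin 4) :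
    MvPolynomial.coeff (Finsupp.single j 1) (MvPolynomial.X i : MvPolynomial (Fin 4) k) =
      if i = j then 1 else 0 := by
  classical
  rw [MvPolynomial.coeff_X]
  by_cases h : i = j
  · rw [h, if_pos rfl, if_pos rfl]
  · rw [if_neg h, if_neg]
    intro h2
    exact h ((Finsupp.single_left_inj one_ne_zero).mp h2)

private theorem xi_coeff0_X (i : Fin 4) :
    MvPolynomial.coeff 0 (MvPolynomial.X i : MvPolynomial (Fin 4) k) = 0 := by
  classical
  rw [MvPolynomial.coeff_X, if_neg]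
  intro h
  have := (Finsupp.single_eq_zero).mp h
  exact one_ne_zero this

private theorem xi_e0_0 (s : k) : MvPolynomial.coeff 0 (e0 s) = 0 := by
  unfold e0
  rw [MvPolynomial.coeff_add, xi_coeff_C_mul, xi_coeff0_X, xi_coeff0_X]
  ring
private theorem xi_e1_0 (s : k) : MvPolynomial.coeff 0 (e1 s) = 0 := by
  unfold e1
  rw [MvPolynomial.coeff_add, xi_coeff_C_mul, xi_coeff0_X, xi_coeff0_X]
  ring
private theorem xi_e2_0 (s : k) : MvPolynomial.coeff 0 (e2 s) = 0 := by
  unfold e2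
  rw [MvPolynomial.coeff_add, xi_coeff_C_mul, xi_coeff0_X, xi_coeff0_X]
  ring
private theorem xi_e3_0 : MvPolynomial.coeff 0 (e3 : MvPolynomial (Fin 4) k) = 0 := by
  unfold e3
  exact xi_coeff0_X _

private theorem xi_e0 (s : k) (j : Fin 4) : MvPolynomial.coeff (Finsupp.single j 1) (e0 s) =
    ![1, 0, s + s⁻¹, 0] j := by
  unfold e0
  rw [MvPolynomial.coeff_add, xi_coeff_C_mul, xi_coeff_X, xi_coeff_X]
  fin_cases j <;> simp
private theorem xi_e1 (s : k) (j : Fin 4) : MvPolynomial.coeff (Finsupp.single j 1) (e1 s) =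
    ![0, 1, 0, s⁻¹] j := by
  unfold e1
  rw [MvPolynomial.coeff_add, xi_coeff_C_mul, xi_coeff_X, xi_coeff_X]
  fin_cases j <;> simp
private theorem xi_e2 (s : k) (j : Fin 4) : MvPolynomial.coeff (Finsupp.single j 1) (e2 s) =
    ![0, 1, 0, s] j := by
  unfold e2
  rw [MvPolynomial.coeff_add, xi_coeff_C_mul, xi_coeff_X, xi_coeff_X]
  fin_cases j <;> simp
private theorem xi_e3 (j : Fin 4) :
    MvPolynomial.coeff (Finsupp.single j 1) (e3 : MvPolynomial (Fin 4) k) = ![0, 0, 1, 0] j := by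
  unfold e3
  rw [xi_coeff_X]
  fin_cases j <;> simp

end coeffs

variable {k : Type*} [Field k] [IsAlgClosed k] (p m : ℕ) [hp : Fact p.Prime] [CharP k p]
  (F : Subfield k) (hF : ∀ c ∈ F, c ^ (p ^ m) = c)

omit [IsAlgClosed k] in
/-- the action as a sum over an initial segment -/
private theorem xi_act (g : F[X]) (x : MvPolynomial (Fin 4) k) {N : ℕ} (hN : g.natDegree < N) :
    act p m F hF g x = ∑ n ∈ Finset.range N,
      MvPolynomial.C ((g.coeff n : F) : k) * x ^ ((p ^ m) ^ n) := by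
  rw [act_apply]
  refine Finset.sum_subset ?_ ?_
  · intro n hn
    rw [Finset.mem_range]
    exact lt_of_le_of_lt (Polynomial.le_natDegree_of_mem_supp n hn) hN
  · intro n _ hn
    rw [Polynomial.notMem_support_iff] at hn
    rw [hn]
    simp

omit [IsAlgClosed k] hp [CharP k p] in
private theorem xi_fix {c : k} (hc : c ^ (p ^ m) = c) (n : ℕ) : c ^ ((p ^ m) ^ n) = c := by
  induction n with
  | zero => simp
  | succ n ih => rw [pow_succ, pow_mul, ih, hc]

theorem XY_indep (hm : 1 ≤ m) (s phi : k) (hs : s ≠ 0) (hs1 : s * s ≠ 1) (d v : F[X]) (n0 : ℕ)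
    (hn0 : 1 ≤ n0) (hphi : phi ^ ((p ^ m) ^ n0) ≠ phi)
    (hlow : ∀ n, 0 < n → n < n0 → d.coeff n = 0 ∧ v.coeff n = 0)
    (hdet : d.coeff n0 * v.coeff 0 ≠ v.coeff n0 * d.coeff 0) :
    AlgebraicIndependent k ![X1 s phi, X2 s phi, Y1 p m F hF s d v, Y2 p m F hF s d v] := by
  have hQ : 2 ≤ p ^ m := by
    calc 2 ≤ p := hp.out.two_le
      _ = p ^ 1 := (pow_one p).symm
      _ ≤ p ^ m := Nat.pow_le_pow_right hp.out.pos hm
  set Q : ℕ := p ^ m with hQdef
  have hQ0 : ∀ n, 1 ≤ Q ^ n := fun n => Nat.one_le_pow _ _ (by omega)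
  have hQ1 : ∀ n, 1 ≤ n → 2 ≤ Q ^ n := fun n hn => by
    calc 2 ≤ Q := hQ
      _ = Q ^ 1 := (pow_one Q).symm
      _ ≤ Q ^ n := Nat.pow_le_pow_right (by omega) hn
  have hQn0 : 0 < Q ^ n0 := by have := hQ0 n0; omega
  -- the roots
  have hroot : ∀ n : ℕ, ∃ c : k, c ^ (Q ^ n0) = phi ^ (Q ^ (n0 + n)) - phi := fun n =>
    IsAlgClosed.exists_pow_nat_eq _ hQn0
  choose c hc using hroot
  have hc0 : c 0 ≠ 0 := by
    intro h
    have h1 := hc 0
    rw [h, zero_pow hQn0.ne', add_zero] at h1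
    exact hphi (sub_eq_zero.mp h1.symm)
  obtain ⟨N', hN'⟩ : ∃ N', d.natDegree < n0 + N' ∧ v.natDegree < n0 + N' ∧ 1 ≤ N' :=
    ⟨d.natDegree + v.natDegree + 1, by omega, by omega, by omega⟩
  obtain ⟨hNd, hNv, hN1⟩ := hN'
  -- the element `V`
  set V : MvPolynomial (Fin 4) k := ∑ j ∈ Finset.range N', MvPolynomial.C (c j) *
    (MvPolynomial.C ((d.coeff (n0 + j) : F) : k) * e1 s ^ (Q ^ j) -
      MvPolynomial.C ((v.coeff (n0 + j) : F) : k) * e3 ^ (Q ^ j)) with hV
  have hfixF : ∀ (a : F) (n : ℕ), (a : k) ^ (Q ^ n) = (a : k) := fun a n =>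
    xi_fix p m (hF a a.2) n
  have hVpow : V ^ (Q ^ n0) = Y1 p m F hF s d v - act p m F hF d (X1 s phi) +
      act p m F hF v (X2 s phi) - MvPolynomial.C phi * Y2 p m F hF s d v := by
    have e1' : V ^ (Q ^ n0) = ∑ j ∈ Finset.range N',
        MvPolynomial.C (phi ^ (Q ^ (n0 + j)) - phi) *
        (MvPolynomial.C ((d.coeff (n0 + j) : F) : k) * e1 s ^ (Q ^ (n0 + j)) -
          MvPolynomial.C ((v.coeff (n0 + j) : F) : k) * e3 ^ (Q ^ (n0 + j))) := by
      have hQp : Q ^ n0 = p ^ (m * n0) := by rw [hQdef, ← pow_mul]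
      have hpw : ∀ (x : MvPolynomial (Fin 4) k) (j : ℕ),
          (x ^ (Q ^ j)) ^ (Q ^ n0) = x ^ (Q ^ (n0 + j)) := fun x j => by
        rw [← pow_mul, ← pow_add, add_comm j n0]
      rw [hV, hQp, sum_pow_char_pow]
      refine Finset.sum_congr rfl fun j _ => ?_
      rw [mul_pow, sub_pow_char_pow, mul_pow, mul_pow, ← hQp, ← map_pow, hc, ← map_pow,
        hfixF, ← map_pow, hfixF, hpw, hpw]
    have e2' : Y1 p m F hF s d v - act p m F hF d (X1 s phi) +
        act p m F hF v (X2 s phi) - MvPolynomial.C phi * Y2 p m F hF s d v =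
        ∑ n ∈ Finset.range (n0 + N'), MvPolynomial.C (phi ^ (Q ^ n) - phi) *
        (MvPolynomial.C ((d.coeff n : F) : k) * e1 s ^ (Q ^ n) -
          MvPolynomial.C ((v.coeff n : F) : k) * e3 ^ (Q ^ n)) := by
      unfold Y1 Y2 X1 X2
      rw [map_sub, map_sub, xi_act p m F hF d (MvPolynomial.C phi * e1 s) hNd,
        xi_act p m F hF v (MvPolynomial.C phi * e3) hNv, xi_act p m F hF d (e1 s) hNd,
        xi_act p m F hF v e3 hNv]
      have e3' : act p m F hF d (e0 s) - act p m F hF v (e2 s) -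
          (act p m F hF d (e0 s) - ∑ n ∈ Finset.range (n0 + N'),
            MvPolynomial.C ((d.coeff n : F) : k) * (MvPolynomial.C phi * e1 s) ^ (p ^ m) ^ n) +
          (act p m F hF v (e2 s) - ∑ n ∈ Finset.range (n0 + N'),
            MvPolynomial.C ((v.coeff n : F) : k) * (MvPolynomial.C phi * e3) ^ (p ^ m) ^ n) -
          MvPolynomial.C phi * (∑ n ∈ Finset.range (n0 + N'),
            MvPolynomial.C ((d.coeff n : F) : k) * e1 s ^ (p ^ m) ^ n -
            ∑ n ∈ Finset.range (n0 + N'),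
            MvPolynomial.C ((v.coeff n : F) : k) * e3 ^ (p ^ m) ^ n) =
          ∑ n ∈ Finset.range (n0 + N'),
            MvPolynomial.C ((d.coeff n : F) : k) * (MvPolynomial.C phi * e1 s) ^ (p ^ m) ^ n -
          ∑ n ∈ Finset.range (n0 + N'),
            MvPolynomial.C ((v.coeff n : F) : k) * (MvPolynomial.C phi * e3) ^ (p ^ m) ^ n -
          MvPolynomial.C phi * (∑ n ∈ Finset.range (n0 + N'),
            MvPolynomial.C ((d.coeff n : F) : k) * e1 s ^ (p ^ m) ^ n -
            ∑ n ∈ Finset.range (n0 + N'),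
            MvPolynomial.C ((v.coeff n : F) : k) * e3 ^ (p ^ m) ^ n) := by ring
      rw [e3', ← Finset.sum_sub_distrib, ← Finset.sum_sub_distrib, Finset.mul_sum,
        ← Finset.sum_sub_distrib]
      refine Finset.sum_congr rfl fun n _ => ?_
      rw [mul_pow, mul_pow, map_sub, map_pow]
      ring
    rw [e1', e2', Finset.sum_range_add]
    rw [Finset.sum_eq_zero (s := Finset.range n0), zero_add]
    intro n hn
    rw [Finset.mem_range] at hn
    rcases Nat.eq_zero_or_pos n with h0 | h0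
    · rw [h0, pow_zero, pow_one, sub_self, map_zero, zero_mul]
    · obtain ⟨h1, h2⟩ := hlow n h0 hn
      rw [h1, h2]
      simp
  -- the linear parts
  have hV0 : MvPolynomial.coeff 0 V = 0 := by
    rw [hV, MvPolynomial.coeff_sum]
    refine Finset.sum_eq_zero fun j _ => ?_
    rw [xi_coeff_C_mul, MvPolynomial.coeff_sub, xi_coeff_C_mul, xi_coeff_C_mul,
      xi_coeff0_pow _ (xi_e1_0 s) (hQ0 j), xi_coeff0_pow _ xi_e3_0 (hQ0 j)]
    ring
  have hV1 : ∀ i : Fin 4, MvPolynomial.coeff (Finsupp.single i 1) V =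
      c 0 * (((d.coeff n0 : F) : k) * ![0, 1, 0, s⁻¹] i - ((v.coeff n0 : F) : k) *
        ![0, 0, 1, 0] i) := by
    intro i
    rw [hV, MvPolynomial.coeff_sum]
    obtain ⟨M, rfl⟩ : ∃ M, N' = M + 1 := ⟨N' - 1, by omega⟩
    rw [Finset.sum_range_succ', Finset.sum_eq_zero, zero_add]
    · rw [xi_coeff_C_mul, MvPolynomial.coeff_sub, xi_coeff_C_mul, xi_coeff_C_mul, pow_zero,
        pow_one, pow_one, xi_e1, xi_e3, add_zero]
    · intro j _
      rw [xi_coeff_C_mul, MvPolynomial.coeff_sub, xi_coeff_C_mul, xi_coeff_C_mul,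
        xi_coeff1_pow _ (xi_e1_0 s) (hQ1 _ (by omega)), xi_coeff1_pow _ xi_e3_0 (hQ1 _ (by omega))]
      ring
  have hY0 : MvPolynomial.coeff 0 (Y2 p m F hF s d v) = 0 := by
    unfold Y2
    rw [xi_act p m F hF d (e1 s) hNd, xi_act p m F hF v e3 hNv, MvPolynomial.coeff_sub,
      MvPolynomial.coeff_sum, MvPolynomial.coeff_sum, Finset.sum_eq_zero, Finset.sum_eq_zero,
      sub_zero]
    · intro j _
      rw [xi_coeff_C_mul, ← hQdef, xi_coeff0_pow _ xi_e3_0 (hQ0 j), mul_zero]
    · intro j _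
      rw [xi_coeff_C_mul, ← hQdef, xi_coeff0_pow _ (xi_e1_0 s) (hQ0 j), mul_zero]
  have hY1 : ∀ i : Fin 4, MvPolynomial.coeff (Finsupp.single i 1) (Y2 p m F hF s d v) =
      ((d.coeff 0 : F) : k) * ![0, 1, 0, s⁻¹] i - ((v.coeff 0 : F) : k) * ![0, 0, 1, 0] i := by
    intro i
    unfold Y2
    obtain ⟨M, hM⟩ : ∃ M, n0 + N' = M + 1 := ⟨n0 + N' - 1, by omega⟩
    rw [xi_act p m F hF d (e1 s) hNd, xi_act p m F hF v e3 hNv, MvPolynomial.coeff_sub,
      MvPolynomial.coeff_sum, MvPolynomial.coeff_sum, hM, Finset.sum_range_succ',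
      Finset.sum_range_succ', Finset.sum_eq_zero, Finset.sum_eq_zero, zero_add, zero_add]
    · rw [xi_coeff_C_mul, xi_coeff_C_mul, pow_zero, pow_one, pow_one, xi_e1, xi_e3]
    · intro j _
      rw [xi_coeff_C_mul, ← hQdef, xi_coeff1_pow _ xi_e3_0 (hQ1 _ (by omega)), mul_zero]
    · intro j _
      rw [xi_coeff_C_mul, ← hQdef, xi_coeff1_pow _ (xi_e1_0 s) (hQ1 _ (by omega)), mul_zero]
  have hss : s - s⁻¹ ≠ 0 := by
    intro h
    apply hs1
    have h1 : s * (s - s⁻¹) = 0 := by rw [h, mul_zero]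
    rw [mul_sub, mul_inv_cancel₀ hs] at h1
    exact sub_eq_zero.mp h1
  have hdet' : ((d.coeff n0 : F) : k) * ((v.coeff 0 : F) : k) -
      ((v.coeff n0 : F) : k) * ((d.coeff 0 : F) : k) ≠ 0 := by
    intro h
    apply hdet
    have h1 : ((d.coeff n0 * v.coeff 0 : F) : k) = ((v.coeff n0 * d.coeff 0 : F) : k) := by
      push_cast
      exact sub_eq_zero.mp h
    exact_mod_cast h1
  have hind : AlgebraicIndependent k ![X1 s phi, X2 s phi, V, Y2 p m F hF s d v] := by
    refine algebraicIndependent_of_linear _ ?_ ?_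
    · intro i
      fin_cases i
      · change MvPolynomial.coeff 0 (X1 s phi) = 0
        unfold X1
        rw [MvPolynomial.coeff_sub, xi_coeff_C_mul, xi_e0_0, xi_e1_0]
        ring
      · change MvPolynomial.coeff 0 (X2 s phi) = 0
        unfold X2
        rw [MvPolynomial.coeff_sub, xi_coeff_C_mul, xi_e2_0, xi_e3_0]
        ring
      · exact hV0
      · exact hY0
    · rw [Fintype.linearIndependent_iff]
      intro g hg
      have hX1 : ∀ i : Fin 4, MvPolynomial.coeff (Finsupp.single i 1) (X1 s phi) =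
          ![1, 0, s + s⁻¹, 0] i - phi * ![0, 1, 0, s⁻¹] i := fun i => by
        unfold X1
        rw [MvPolynomial.coeff_sub, xi_coeff_C_mul, xi_e0, xi_e1]
      have hX2 : ∀ i : Fin 4, MvPolynomial.coeff (Finsupp.single i 1) (X2 s phi) =
          ![0, 1, 0, s] i - phi * ![0, 0, 1, 0] i := fun i => by
        unfold X2
        rw [MvPolynomial.coeff_sub, xi_coeff_C_mul, xi_e2, xi_e3]
      have key : ∀ j : Fin 4, g 0 * (![1, 0, s + s⁻¹, 0] j - phi * ![0, 1, 0, s⁻¹] j) +
          g 1 * (![0, 1, 0, s] j - phi * ![0, 0, 1, 0] j) +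
          g 2 * (c 0 * (((d.coeff n0 : F) : k) * ![0, 1, 0, s⁻¹] j -
            ((v.coeff n0 : F) : k) * ![0, 0, 1, 0] j)) +
          g 3 * (((d.coeff 0 : F) : k) * ![0, 1, 0, s⁻¹] j -
            ((v.coeff 0 : F) : k) * ![0, 0, 1, 0] j) = 0 := by
        intro j
        have h1 := congrFun hg j
        rw [Finset.sum_apply, Fin.sum_univ_four] at h1
        simp only [Pi.smul_apply, smul_eq_mul, Pi.zero_apply] at h1
        change g 0 * MvPolynomial.coeff (Finsupp.single j 1) (X1 s phi) +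
          g 1 * MvPolynomial.coeff (Finsupp.single j 1) (X2 s phi) +
          g 2 * MvPolynomial.coeff (Finsupp.single j 1) V +
          g 3 * MvPolynomial.coeff (Finsupp.single j 1) (Y2 p m F hF s d v) = 0 at h1
        rw [hX1, hX2, hV1, hY1] at h1
        exact h1
      have k0 := key 0
      have k1 := key 1
      have k2 := key 2
      have k3 := key 3
      simp only [Matrix.cons_val_zero, Matrix.cons_val_one, Matrix.cons_val] at k0 k1 k2 k3
      have g0 : g 0 = 0 := by linear_combination k0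
      rw [g0] at k1 k2 k3
      have g1 : g 1 = 0 := by
        have h1 : g 1 * (s - s⁻¹) = 0 := by linear_combination k3 - s⁻¹ * k1
        exact (mul_eq_zero.mp h1).resolve_right hss
      rw [g1] at k1 k2
      have g2 : g 2 = 0 := by
        have h1 : (g 2 * c 0) * (((d.coeff n0 : F) : k) * ((v.coeff 0 : F) : k) -
            ((v.coeff n0 : F) : k) * ((d.coeff 0 : F) : k)) = 0 := by
          linear_combination ((v.coeff 0 : F) : k) * k1 + ((d.coeff 0 : F) : k) * k2
        have h2 := (mul_eq_zero.mp h1).resolve_right hdet'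
        exact (mul_eq_zero.mp h2).resolve_right hc0
      rw [g2] at k1 k2
      have g3 : g 3 = 0 := by
        have h1 : g 3 * (((d.coeff n0 : F) : k) * ((v.coeff 0 : F) : k) -
            ((v.coeff n0 : F) : k) * ((d.coeff 0 : F) : k)) = 0 := by
          linear_combination (-((v.coeff n0 : F) : k)) * k1 - ((d.coeff n0 : F) : k) * k2
        exact (mul_eq_zero.mp h1).resolve_right hdet'
      intro i
      fin_cases i
      · exact g0
      · exact g1
      · exact g2
      · exact g3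
  refine exchange _ _ hind ?_
  -- membership
  set A := Algebra.adjoin k (Set.range ![X1 s phi, X2 s phi, Y1 p m F hF s d v,
    Y2 p m F hF s d v]) with hA
  have mem : ∀ i : Fin 4, ![X1 s phi, X2 s phi, Y1 p m F hF s d v, Y2 p m F hF s d v] i ∈ A :=
    fun i => Algebra.subset_adjoin ⟨i, rfl⟩
  have m0 : X1 s phi ∈ A := mem 0
  have m1 : X2 s phi ∈ A := mem 1
  have m2 : Y1 p m F hF s d v ∈ A := mem 2
  have m3 : Y2 p m F hF s d v ∈ A := mem 3
  have alg : ∀ z ∈ A, IsAlgebraic A z := fun z hz =>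
    isAlgebraic_algebraMap (⟨z, hz⟩ : A)
  intro i
  fin_cases i
  · exact alg _ m0
  · exact alg _ m1
  · change IsAlgebraic A V
    refine IsAlgebraic.of_pow hQn0 (alg _ ?_)
    rw [hVpow]
    refine A.sub_mem (A.add_mem (A.sub_mem m2 (act_mem_adjoin p m F hF d _ A m0))
      (act_mem_adjoin p m F hF v _ A m1)) (A.mul_mem ?_ m3)
    exact A.algebraMap_mem phi
  · exact alg _ m3

end Prism
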